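import Pool.Agent.Q61.NC.Neg

/-!
# Change of the coordinate, and all profiles over one wall
-/

set_option autoImplicit false

open Set Filter Topology MeasureTheory
open scoped ENNReal ContDiff

namespace Pool.Agent.Q61.NC

theorem flow_zero (D : Set ℝ) (Y T : ℝ) : Flow D Y T (fun _ => 0) (fun _ _ => 0) (fun _ _ => 0)
    (fun _ _ => 0) (fun _ _ => 0) (fun _ => 0) where
  smooth := contDiffOn_const
  gsmooth := contDiffOn_const
  ycont := continuousOn_const
  dt := fun t _ _ _ => hasDerivAt_const t (0 : ℝ)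
  dy := fun _ y _ _ => hasDerivAt_const y (0 : ℝ)
  dyy := fun _ y _ _ => hasDerivAt_const y (0 : ℝ)
  heat := fun _ _ => by simp
  zero := fun _ _ _ => rfl
  lim := by simp
  en := by simp

theorem mp_affine {s : ℝ} (hs : s = 1 ∨ s = -1) (a : ℝ) :
    MeasurePreserving (fun y : ℝ => s * y + a) volume volume := by
  have h1 : MeasurePreserving (fun y : ℝ => s * y) volume volume := by
    rcases hs with h | h
    · subst h
      simp only [one_mul]
      exact MeasurePreserving.id _
    · subst h
      simp only [neg_mul, one_mul]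
      exact Measure.measurePreserving_neg volume
  exact (measurePreserving_add_right volume a).comp h1

theorem emb_affine {s : ℝ} (hs : s = 1 ∨ s = -1) (a : ℝ) :
    MeasurableEmbedding (fun y : ℝ => s * y + a) := by
  have hs0 : s ≠ 0 := by
    rcases hs with h | h
    · rw [h]; norm_num
    · rw [h]; norm_num
  exact (measurableEmbedding_addRight a).comp (measurableEmbedding_mulLeft₀ hs0)

theorem pre_affine {s a : ℝ} (hs : s = 1 ∨ s = -1) :
    (fun y : ℝ => s * y + a) ⁻¹' Icc 0 (2 * a) = Icc (-a) a := by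
  ext y
  simp only [mem_preimage, mem_Icc]
  rcases hs with h | h
  · subst h
    constructor
    · rintro ⟨h1, h2⟩
      constructor <;> linarith
    · rintro ⟨h1, h2⟩
      constructor <;> linarith
  · subst h
    constructor
    · rintro ⟨h1, h2⟩
      constructor <;> linarith
    · rintro ⟨h1, h2⟩
      constructor <;> linarith

theorem lint_affine {s a : ℝ} (hs : s = 1 ∨ s = -1) (G : ℝ → ℝ≥0∞) :
    ∫⁻ y in Icc (-a) a, G (s * y + a) = ∫⁻ z in Icc 0 (2 * a), G z := by
  have h := (mp_affine hs a).setLIntegral_comp_preimage_emb (emb_affine hs a) G (Icc 0 (2 * a))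
  rw [pre_affine hs] at h
  exact h

/-- One wall: every profile. -/
theorem flowW {a T : ℝ} (ha : 0 < a) (hT : 0 < T) {s : ℝ} (hs : s = 1 ∨ s = -1) {f : ℝ → ℝ}
    (hf : MemLp f 2 (volume.restrict (Icc (-a) a))) :
    ∃ (V Vt Vy Vyy : ℝ → ℝ → ℝ) (g : ℝ → ℝ), Flow (Icc (-a) a) (2 * a) T f V Vt Vy Vyy g ∧
      ∀ t, V t (-(s * a)) = 0 := by
  have hss : s * s = 1 := by
    rcases hs with h | h
    · rw [h]; norm_num
    · rw [h]; norm_num
  have habs : |s| = 1 := by
    rcases hs with h | h
    · rw [h]; norm_num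
    · rw [h]; norm_num
  -- the profile on `[0, 2 a]`
  set f' : ℝ → ℝ := fun z => f (s * (z - a)) with hf'
  have hff : ∀ y, f' (s * y + a) = f y := by
    intro y
    rw [hf']
    simp only
    congr 1
    rw [add_sub_cancel_right, ← mul_assoc, hss, one_mul]
  have hf'm : MemLp f' 2 (volume.restrict (Icc 0 (2 * a))) := by
    have h1 : MeasurePreserving (fun z : ℝ => s * (z - a)) (volume.restrict (Icc 0 (2 * a)))
        (volume.restrict (Icc (-a) a)) := by
      have h2 : (fun z : ℝ => s * (z - a)) = fun z => s * z + -(s * a) := by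
        funext z
        ring
      have h3 : MeasurePreserving (fun z : ℝ => s * (z - a)) volume volume := by
        rw [h2]
        exact mp_affine hs _
      have h4 := h3.restrict_preimage (s := Icc (-a) a) measurableSet_Icc
      have h5 : (fun z : ℝ => s * (z - a)) ⁻¹' Icc (-a) a = Icc 0 (2 * a) := by
        ext z
        simp only [mem_preimage, mem_Icc]
        rcases hs with h | h
        · subst h
          constructor
          · rintro ⟨h1, h2⟩
            constructor <;> linarith
          · rintro ⟨h1, h2⟩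
            constructor <;> linarith
        · subst h
          constructor
          · rintro ⟨h1, h2⟩
            constructor <;> linarith
          · rintro ⟨h1, h2⟩
            constructor <;> linarith
      rw [h5] at h4
      exact h4
    exact hf.comp_measurePreserving h1
  obtain ⟨V, Vt, Vy, Vyy, g, hV, hw, -⟩ := flowB (a := 2 * a) (by linarith) hT hf'm
  have hdom : ∀ y : ℝ, |y| < 2 * a → |s * y + a| < 2 * (2 * a) := by
    intro y hy
    calc |s * y + a| ≤ |s * y| + |a| := abs_add_le _ _
      _ = |y| + a := by rw [abs_mul, habs, one_mul, abs_of_pos ha]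
      _ < 2 * (2 * a) := by linarith
  have haff : ∀ y : ℝ, HasDerivAt (fun y : ℝ => s * y + a) s y := by
    intro y
    have h := ((hasDerivAt_id y).const_mul s).add_const a
    simpa using h
  refine ⟨fun t y => V t (s * y + a), fun t y => Vt t (s * y + a), fun t y => s * Vy t (s * y + a),
    fun t y => Vyy t (s * y + a), g, ?_, ?_⟩
  · exact
    { smooth := by
        have h1 : ContDiff ℝ ((⊤ : ℕ∞) : WithTop ℕ∞)
            fun q : ℝ × ℝ => ((q.1, s * q.2 + a) : ℝ × ℝ) :=
          contDiff_fst.prodMk ((contDiff_const.mul contDiff_snd).add contDiff_const)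
        exact hV.smooth.comp h1.contDiffOn fun q hq => ⟨hq.1, hdom _ hq.2⟩
      gsmooth := hV.gsmooth
      ycont := by
        have h1 : Continuous fun q : ℝ × ℝ => ((q.1, s * q.2 + a) : ℝ × ℝ) := by fun_prop
        exact continuousOn_const.mul (hV.ycont.comp h1.continuousOn
          fun q hq => ⟨hq.1, hdom _ hq.2⟩)
      dt := fun t y ht hy => hV.dt t _ ht (hdom y hy)
      dy := fun t y ht hy => by
        have h := (hV.dy t _ ht (hdom y hy)).comp y (haff y)
        rw [mul_comm] at h
        exact h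
      dyy := fun t y ht hy => by
        have h := ((hV.dyy t _ ht (hdom y hy)).comp y (haff y)).const_mul s
        have e : s * (Vyy t (s * y + a) * s) = Vyy t (s * y + a) := by
          rw [mul_comm, mul_assoc, hss, mul_one]
        rw [e] at h
        exact h
      heat := fun t y => hV.heat t _
      zero := fun t y ht => hV.zero t _ ht
      lim := by
        have h1 : ∀ t, ∫⁻ y in Icc (-a) a, ‖V t (s * y + a) - f y‖ₑ ^ 2 =
            ∫⁻ z in Icc 0 (2 * a), ‖V t z - f' z‖ₑ ^ 2 := by
          intro t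
          rw [← lint_affine hs fun z => ‖V t z - f' z‖ₑ ^ 2]
          refine lintegral_congr fun y => ?_
          rw [hff]
        simp_rw [h1]
        exact hV.lim
      en := by
        have h1 : ∀ t, ∫⁻ y in Icc (-a) a, ‖s * Vy t (s * y + a)‖ₑ ^ 2 =
            ∫⁻ z in Icc 0 (2 * a), ‖Vy t z‖ₑ ^ 2 := by
          intro t
          rw [← lint_affine hs fun z => ‖Vy t z‖ₑ ^ 2]
          refine lintegral_congr fun y => ?_
          have h2 : ‖s * Vy t (s * y + a)‖ₑ = ‖Vy t (s * y + a)‖ₑ := by
            rw [← ofReal_norm, ← ofReal_norm, norm_mul, Real.norm_eq_abs, habs, one_mul]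
          rw [h2]
        simp_rw [h1]
        exact hV.en }
  · intro t
    show V t (s * -(s * a) + a) = 0
    have e : s * -(s * a) + a = 0 := by
      have : s * -(s * a) = -((s * s) * a) := by ring
      rw [this, hss]
      ring
    rw [e]
    exact hw t

/-- The vector version, for at most one wall. -/
theorem stops_one {d : ℕ} (j : Fin d) {a T : ℝ} (ha : 0 < a) (hT : 0 < T) {s : ℝ}
    (hs : s = 1 ∨ s = -1) {W : Set ℝ} (hW : W ⊆ {-(s * a)}) {U₀ : ℝ → Sp d}
    (h0 : ∀ y, U₀ y j = 0) (hU : MemLp U₀ 2 (volume.restrict (Icc (-a) a))) :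
    ∃ u p, Stops j (Icc (-a) a) W T U₀ u p ∧ Shear j (Icc (-a) a) u := by
  have hk : ∀ k : Fin d, ∃ (V Vt Vy Vyy : ℝ → ℝ → ℝ) (g : ℝ → ℝ),
      Flow (Icc (-a) a) (2 * a) T (fun y => U₀ y k) V Vt Vy Vyy g ∧
      (∀ t, V t (-(s * a)) = 0) ∧ (k = j → ∀ t y, V t y = 0) := by
    intro k
    by_cases hkj : k = j
    · refine ⟨fun _ _ => 0, fun _ _ => 0, fun _ _ => 0, fun _ _ => 0, fun _ => 0, ?_,
        fun _ => rfl, fun _ _ _ => rfl⟩
      have : (fun y => U₀ y k) = fun _ => 0 := funext fun y => by rw [hkj, h0]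
      rw [this]
      exact flow_zero _ _ _
    · have hfk : MemLp (fun y => U₀ y k) 2 (volume.restrict (Icc (-a) a)) :=
        (EuclideanSpace.proj k : Sp d →L[ℝ] ℝ).comp_memLp' hU
      obtain ⟨V, Vt, Vy, Vyy, g, h1, h2⟩ := flowW ha hT hs hfk
      exact ⟨V, Vt, Vy, Vyy, g, h1, h2, fun h => absurd h hkj⟩
  choose V Vt Vy Vyy g h1 h2 h3 using hk
  refine stops_of j measurableSet_Icc (Y := 2 * a) ?_ hU (f := fun k y => U₀ y k)
    (fun k => Filter.Eventually.of_forall fun y => rfl) h1 ?_ (h3 j rfl)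
  · intro y hy
    exact (abs_le.2 hy).trans_lt (by linarith)
  · intro k t y hy
    rw [mem_singleton_iff.1 (hW hy)]
    exact h2 k t

/-- The vector version, for two walls and even profiles. -/
theorem stops_two {d : ℕ} (j : Fin d) {a T : ℝ} (ha : 0 < a) (hT : 0 < T) {W : Set ℝ}
    (hW : W ⊆ {-a, a}) {U₀ : ℝ → Sp d}
    (h0 : ∀ y, U₀ y j = 0) (hU : MemLp U₀ 2 (volume.restrict (Icc (-a) a)))
    (heven : ∀ᵐ y ∂(volume.restrict (Icc (-a) a)), U₀ (-y) = U₀ y) :
    ∃ u p, Stops j (Icc (-a) a) W T U₀ u p ∧ Shear j (Icc (-a) a) u := by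
  set f : Fin d → ℝ → ℝ := fun k y => (U₀ y k + U₀ (-y) k) / 2 with hf
  have hfae : ∀ k, ∀ᵐ y ∂(volume.restrict (Icc (-a) a)), f k y = U₀ y k := by
    intro k
    filter_upwards [heven] with y hy
    rw [hf]
    simp only
    rw [hy]
    ring
  have hk : ∀ k : Fin d, ∃ (V Vt Vy Vyy : ℝ → ℝ → ℝ) (g : ℝ → ℝ),
      Flow (Icc (-a) a) (2 * a) T (f k) V Vt Vy Vyy g ∧
      (∀ t, V t a = 0) ∧ (∀ t, V t (-a) = 0) ∧ (k = j → ∀ t y, V t y = 0) := by
    intro k
    by_cases hkj : k = j
    · refine ⟨fun _ _ => 0, fun _ _ => 0, fun _ _ => 0, fun _ _ => 0, fun _ => 0, ?_,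
        fun _ => rfl, fun _ => rfl, fun _ _ _ => rfl⟩
      have : f k = fun _ => 0 := funext fun y => by
        rw [hf]
        simp only
        rw [hkj, h0, h0]
        norm_num
      rw [this]
      exact flow_zero _ _ _
    · have hfk : MemLp (f k) 2 (volume.restrict (Icc (-a) a)) := by
        have h1 : MemLp (fun y => U₀ y k) 2 (volume.restrict (Icc (-a) a)) :=
          (EuclideanSpace.proj k : Sp d →L[ℝ] ℝ).comp_memLp' hU
        exact (memLp_congr_ae (hfae k)).2 h1
      obtain ⟨V, Vt, Vy, Vyy, g, h1, h2, h3, -⟩ := flowA ha hT hfk fun y _ => by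
        rw [hf]
        simp only [neg_neg]
        ring
      exact ⟨V, Vt, Vy, Vyy, g, h1, h2, h3, fun h => absurd h hkj⟩
  choose V Vt Vy Vyy g h1 h2 h3 h4 using hk
  refine stops_of j measurableSet_Icc (Y := 2 * a) ?_ hU (f := f) hfae h1 ?_ (h4 j rfl)
  · intro y hy
    exact (abs_le.2 hy).trans_lt (by linarith)
  · intro k t y hy
    rcases hW hy with hy | hy
    · rw [hy]
      exact h3 k t
    · rw [mem_singleton_iff.1 hy]
      exact h2 k t

end Pool.Agent.Q61.NC
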