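import Pool.Agent.Q61.NC.Rad

/-!
# The Bessel function of order zero and the integral equation of Schloemilch
-/

set_option autoImplicit false

open Set Filter Topology MeasureTheory

namespace Pool.Agent.Q61.NC

/-- The Bessel function of order zero. -/
noncomputable def Jb (x : ℝ) : ℝ :=
  (1 / Real.pi) * ∫ θ in (0 : ℝ)..Real.pi, Real.cos (x * Real.sin θ)

theorem Jb_abs (x : ℝ) : |Jb x| ≤ 1 := by
  have hpi := Real.pi_pos
  have h := intervalIntegral.norm_integral_le_of_norm_le_const (a := 0) (b := Real.pi)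
    (f := fun θ => Real.cos (x * Real.sin θ)) (C := 1) fun θ _ => Real.abs_cos_le_one _
  rw [Real.norm_eq_abs, sub_zero, abs_of_pos hpi, one_mul] at h
  rw [Jb, abs_mul, abs_of_pos (by positivity : 0 < 1 / Real.pi), one_div,
    inv_mul_le_iff₀ hpi, mul_one]
  exact h

theorem Jb_lip (x y : ℝ) : |Jb x - Jb y| ≤ |x - y| := by
  have hpi := Real.pi_pos
  have hc : ∀ x : ℝ, IntervalIntegrable (fun θ => Real.cos (x * Real.sin θ)) volume 0 Real.pi :=
    fun x => (by fun_prop : Continuous fun θ => Real.cos (x * Real.sin θ)).intervalIntegrable _ _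
  have e : Jb x - Jb y = (1 / Real.pi) * ∫ θ in (0 : ℝ)..Real.pi,
      (Real.cos (x * Real.sin θ) - Real.cos (y * Real.sin θ)) := by
    rw [intervalIntegral.integral_sub (hc x) (hc y), Jb, Jb]
    ring
  have h := intervalIntegral.norm_integral_le_of_norm_le_const (a := 0) (b := Real.pi)
    (f := fun θ => Real.cos (x * Real.sin θ) - Real.cos (y * Real.sin θ)) (C := |x - y|)
    fun θ _ => by
      have h1 : |Real.cos (x * Real.sin θ) - Real.cos (y * Real.sin θ)| ≤
          |x * Real.sin θ - y * Real.sin θ| := by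
        have := Real.abs_cos_sub_cos_le (x * Real.sin θ) (y * Real.sin θ)
        exact this
      rw [Real.norm_eq_abs]
      refine h1.trans ?_
      rw [← sub_mul, abs_mul]
      have h2 := Real.abs_sin_le_one θ
      calc |x - y| * |Real.sin θ| ≤ |x - y| * 1 := by gcongr
        _ = _ := mul_one _
  rw [Real.norm_eq_abs, sub_zero, abs_of_pos hpi] at h
  rw [e, abs_mul, abs_of_pos (by positivity : 0 < 1 / Real.pi), one_div,
    inv_mul_le_iff₀ hpi, mul_comm Real.pi]
  exact h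

theorem prod_even (i : ℕ) :
    (∏ l ∈ Finset.range i, (2 * (l : ℝ) + 1) / (2 * l + 2)) = ((2 * i).factorial : ℝ) / bden 0 i := by
  induction i with
  | zero => simp [bden]
  | succ i ih =>
    rw [Finset.prod_range_succ, ih]
    have e : 2 * (i + 1) = (2 * i + 1) + 1 := by ring
    have hb : bden 0 (i + 1) = 4 * ((i : ℝ) + 1) ^ 2 * bden 0 i := by
      unfold bden
      rw [add_zero, add_zero, Nat.factorial_succ]
      push_cast
      ring
    rw [e, Nat.factorial_succ, Nat.factorial_succ, hb]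
    have := bden_pos 0 i
    push_cast
    field_simp
    ring

theorem Jb_hasSum (x : ℝ) :
    HasSum (fun i : ℕ => (-1) ^ i * x ^ (2 * i) / bden 0 i) (Jb x) := by
  have hpi := Real.pi_pos
  have h := intervalIntegral.hasSum_integral_of_dominated_convergence (μ := volume)
    (a := 0) (b := Real.pi)
    (F := fun (i : ℕ) θ => (-1) ^ i * (x * Real.sin θ) ^ (2 * i) / ((2 * i).factorial : ℝ))
    (f := fun θ => Real.cos (x * Real.sin θ))
    (fun i _ => |x| ^ (2 * i) / ((2 * i).factorial : ℝ)) ?_ ?_ ?_ ?_ ?_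
  · have h1 := h.mul_left (1 / Real.pi)
    refine h1.congr_fun fun i => ?_
    have e1 : ∫ θ in (0 : ℝ)..Real.pi,
        (-1) ^ i * (x * Real.sin θ) ^ (2 * i) / ((2 * i).factorial : ℝ) =
        (-1) ^ i * x ^ (2 * i) / ((2 * i).factorial : ℝ) *
          ∫ θ in (0 : ℝ)..Real.pi, Real.sin θ ^ (2 * i) := by
      rw [← intervalIntegral.integral_const_mul]
      refine intervalIntegral.integral_congr fun θ _ => ?_
      show (-1) ^ i * (x * Real.sin θ) ^ (2 * i) / ((2 * i).factorial : ℝ) =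
        (-1) ^ i * x ^ (2 * i) / ((2 * i).factorial : ℝ) * Real.sin θ ^ (2 * i)
      rw [mul_pow]
      ring
    rw [e1, integral_sin_pow_even, prod_even]
    have h2 : (0 : ℝ) < ((2 * i).factorial : ℝ) := by positivity
    have h3 := bden_pos 0 i
    field_simp
  · intro i
    exact (by fun_prop : Continuous fun θ =>
      (-1) ^ i * (x * Real.sin θ) ^ (2 * i) / ((2 * i).factorial : ℝ)).aestronglyMeasurable
  · intro i
    refine Eventually.of_forall fun θ _ => ?_
    have h2 : (0 : ℝ) < ((2 * i).factorial : ℝ) := by positivity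
    rw [Real.norm_eq_abs, abs_div, abs_mul, abs_pow, abs_neg, abs_one, one_pow, one_mul,
      abs_pow, abs_mul, abs_of_pos h2]
    have h3 := Real.abs_sin_le_one θ
    have h4 : |x| * |Real.sin θ| ≤ |x| := by
      calc |x| * |Real.sin θ| ≤ |x| * 1 := by gcongr
        _ = _ := mul_one _
    gcongr
  · exact Eventually.of_forall fun θ _ => (Real.hasSum_cosh |x|).summable
  · exact intervalIntegrable_const
  · exact Eventually.of_forall fun θ _ => Real.hasSum_cos _

/-! ### Schloemilch's integral equation -/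

/-- The double integral. -/
noncomputable def Sch (g : ℝ → ℝ) (B : ℝ) : ℝ :=
  (1 / Real.pi) * ∫ θ in (0 : ℝ)..Real.pi, B * Real.sin θ ^ 2 *
    ∫ φ in (0 : ℝ)..Real.pi, Real.sin φ * g (B * Real.sin θ ^ 2 * Real.sin φ ^ 2)

theorem inner_cont {g : ℝ → ℝ} (hg : Continuous g) (m : ℕ) :
    Continuous fun σ : ℝ => ∫ φ in (0 : ℝ)..Real.pi, Real.sin φ ^ m * g (σ * Real.sin φ ^ 2) := by
  refine intervalIntegral.continuous_parametric_intervalIntegral_of_continuous' ?_ _ _
  fun_prop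

theorem prod_wallis (n : ℕ) :
    (∏ l ∈ Finset.range (n + 1), (2 * (l : ℝ) + 1) / (2 * l + 2)) *
      (2 * ∏ l ∈ Finset.range n, (2 * (l : ℝ) + 2) / (2 * l + 3)) = 1 / ((n : ℝ) + 1) := by
  induction n with
  | zero => simp
  | succ n ih =>
    rw [Finset.prod_range_succ (fun l : ℕ => (2 * (l : ℝ) + 1) / (2 * l + 2)) (n + 1),
      Finset.prod_range_succ (fun l : ℕ => (2 * (l : ℝ) + 2) / (2 * l + 3)) n]
    have e : (∏ l ∈ Finset.range (n + 1), (2 * (l : ℝ) + 1) / (2 * l + 2)) *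
        ((2 * ((n + 1 : ℕ) : ℝ) + 1) / (2 * ((n + 1 : ℕ) : ℝ) + 2)) *
        (2 * ((∏ l ∈ Finset.range n, (2 * (l : ℝ) + 2) / (2 * l + 3)) *
          ((2 * (n : ℝ) + 2) / (2 * (n : ℝ) + 3)))) =
        ((∏ l ∈ Finset.range (n + 1), (2 * (l : ℝ) + 1) / (2 * l + 2)) *
          (2 * ∏ l ∈ Finset.range n, (2 * (l : ℝ) + 2) / (2 * l + 3))) *
        (((2 * ((n + 1 : ℕ) : ℝ) + 1) / (2 * ((n + 1 : ℕ) : ℝ) + 2)) *
          ((2 * (n : ℝ) + 2) / (2 * (n : ℝ) + 3))) := by ring
    rw [e, ih]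
    push_cast
    have h1 : (0 : ℝ) < (n : ℝ) + 1 := by positivity
    field_simp
    ring

theorem inner_pow (m n : ℕ) (σ : ℝ) :
    ∫ φ in (0 : ℝ)..Real.pi, Real.sin φ ^ m * (σ * Real.sin φ ^ 2) ^ n =
      σ ^ n * ∫ φ in (0 : ℝ)..Real.pi, Real.sin φ ^ (2 * n + m) := by
  rw [← intervalIntegral.integral_const_mul]
  refine intervalIntegral.integral_congr fun φ _ => ?_
  show Real.sin φ ^ m * (σ * Real.sin φ ^ 2) ^ n = σ ^ n * Real.sin φ ^ (2 * n + m)
  rw [mul_pow, ← pow_mul, pow_add]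
  ring

theorem sch_pow (n : ℕ) (B : ℝ) : Sch (fun ρ => ρ ^ n) B = B ^ (n + 1) / ((n : ℝ) + 1) := by
  have hpi := Real.pi_pos
  have h1 : ∀ θ : ℝ, B * Real.sin θ ^ 2 *
      ∫ φ in (0 : ℝ)..Real.pi, Real.sin φ * (B * Real.sin θ ^ 2 * Real.sin φ ^ 2) ^ n =
      (B ^ (n + 1) * ∫ φ in (0 : ℝ)..Real.pi, Real.sin φ ^ (2 * n + 1)) *
        Real.sin θ ^ (2 * (n + 1)) := by
    intro θ
    have h2 := inner_pow 1 n (B * Real.sin θ ^ 2)
    simp only [pow_one] at h2
    rw [h2, mul_pow, ← pow_mul]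
    ring
  unfold Sch
  simp_rw [h1]
  rw [intervalIntegral.integral_const_mul, integral_sin_pow_even, integral_sin_pow_odd]
  have h3 := prod_wallis n
  calc 1 / Real.pi * (B ^ (n + 1) *
        (2 * ∏ i ∈ Finset.range n, (2 * (i : ℝ) + 2) / (2 * i + 3)) *
        (Real.pi * ∏ i ∈ Finset.range (n + 1), (2 * (i : ℝ) + 1) / (2 * i + 2)))
      = B ^ (n + 1) * ((∏ l ∈ Finset.range (n + 1), (2 * (l : ℝ) + 1) / (2 * l + 2)) *
        (2 * ∏ l ∈ Finset.range n, (2 * (l : ℝ) + 2) / (2 * l + 3))) * (Real.pi / Real.pi) := by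
        ring
    _ = _ := by
        rw [h3, div_self hpi.ne']
        ring

theorem outer_int {g : ℝ → ℝ} (hg : Continuous g) (B : ℝ) :
    IntervalIntegrable (fun θ => B * Real.sin θ ^ 2 *
      ∫ φ in (0 : ℝ)..Real.pi, Real.sin φ * g (B * Real.sin θ ^ 2 * Real.sin φ ^ 2))
      volume 0 Real.pi := by
  refine Continuous.intervalIntegrable ?_ _ _
  have h1 := inner_cont hg 1
  simp only [pow_one] at h1
  have h2 : Continuous fun θ : ℝ => B * Real.sin θ ^ 2 := by fun_prop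
  exact h2.mul (h1.comp h2)

theorem inner_int {g : ℝ → ℝ} (hg : Continuous g) (σ : ℝ) :
    IntervalIntegrable (fun φ => Real.sin φ * g (σ * Real.sin φ ^ 2)) volume 0 Real.pi :=
  (by fun_prop : Continuous fun φ => Real.sin φ * g (σ * Real.sin φ ^ 2)).intervalIntegrable _ _

theorem sch_add {g h : ℝ → ℝ} (hg : Continuous g) (hh : Continuous h) (B : ℝ) :
    Sch (fun ρ => g ρ + h ρ) B = Sch g B + Sch h B := by
  unfold Sch
  rw [← mul_add, ← intervalIntegral.integral_add (outer_int hg B) (outer_int hh B)]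
  congr 1
  refine intervalIntegral.integral_congr fun θ _ => ?_
  show B * Real.sin θ ^ 2 * ∫ φ in (0 : ℝ)..Real.pi, Real.sin φ *
      (g (B * Real.sin θ ^ 2 * Real.sin φ ^ 2) + h (B * Real.sin θ ^ 2 * Real.sin φ ^ 2)) =
    B * Real.sin θ ^ 2 * (∫ φ in (0 : ℝ)..Real.pi, Real.sin φ *
      g (B * Real.sin θ ^ 2 * Real.sin φ ^ 2)) + B * Real.sin θ ^ 2 *
        ∫ φ in (0 : ℝ)..Real.pi, Real.sin φ * h (B * Real.sin θ ^ 2 * Real.sin φ ^ 2)
  rw [← mul_add, ← intervalIntegral.integral_add (inner_int hg _) (inner_int hh _)]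
  congr 1
  refine intervalIntegral.integral_congr fun φ _ => ?_
  exact mul_add _ _ _

theorem sch_smul {g : ℝ → ℝ} (c B : ℝ) : Sch (fun ρ => c * g ρ) B = c * Sch g B := by
  unfold Sch
  rw [mul_left_comm, ← intervalIntegral.integral_const_mul c]
  congr 1
  refine intervalIntegral.integral_congr fun θ _ => ?_
  show B * Real.sin θ ^ 2 * ∫ φ in (0 : ℝ)..Real.pi, Real.sin φ *
      (c * g (B * Real.sin θ ^ 2 * Real.sin φ ^ 2)) =
    c * (B * Real.sin θ ^ 2 * ∫ φ in (0 : ℝ)..Real.pi, Real.sin φ *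
      g (B * Real.sin θ ^ 2 * Real.sin φ ^ 2))
  rw [mul_left_comm c, ← intervalIntegral.integral_const_mul c]
  congr 1
  refine intervalIntegral.integral_congr fun φ _ => ?_
  exact mul_left_comm _ _ _

theorem sch_poly (p : Polynomial ℝ) (B : ℝ) :
    Sch (fun ρ => p.eval ρ) B = ∫ ρ in (0 : ℝ)..B, p.eval ρ := by
  induction p using Polynomial.induction_on' with
  | add p q hp hq =>
    simp only [Polynomial.eval_add]
    rw [sch_add p.continuous q.continuous, hp, hq,
      intervalIntegral.integral_add (p.continuous.intervalIntegrable _ _)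
        (q.continuous.intervalIntegrable _ _)]
  | monomial n c =>
    simp only [Polynomial.eval_monomial]
    rw [sch_smul, sch_pow, intervalIntegral.integral_const_mul, integral_pow]
    simp

theorem sch_bound {g : ℝ → ℝ} {B e : ℝ} (hB : 0 ≤ B)
    (hb : ∀ ρ ∈ Icc 0 B, |g ρ| ≤ e) : |Sch g B| ≤ B * (Real.pi * e) := by
  have hpi := Real.pi_pos
  have h1 : ∀ θ : ℝ, |B * Real.sin θ ^ 2 * ∫ φ in (0 : ℝ)..Real.pi, Real.sin φ *
      g (B * Real.sin θ ^ 2 * Real.sin φ ^ 2)| ≤ B * (Real.pi * e) := by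
    intro θ
    have hs : Real.sin θ ^ 2 ≤ 1 := by
      have := Real.sin_sq_add_cos_sq θ
      nlinarith [sq_nonneg (Real.cos θ)]
    have hs0 : 0 ≤ Real.sin θ ^ 2 := sq_nonneg _
    have h2 := intervalIntegral.norm_integral_le_of_norm_le_const (a := 0) (b := Real.pi)
      (f := fun φ => Real.sin φ * g (B * Real.sin θ ^ 2 * Real.sin φ ^ 2)) (C := e) fun φ _ => by
        rw [norm_mul]
        have h3 : ‖Real.sin φ‖ ≤ 1 := Real.abs_sin_le_one φ
        have hs' : Real.sin φ ^ 2 ≤ 1 := by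
          have := Real.sin_sq_add_cos_sq φ
          nlinarith [sq_nonneg (Real.cos φ)]
        have hs0' : 0 ≤ Real.sin φ ^ 2 := sq_nonneg _
        have h4 : ‖g (B * Real.sin θ ^ 2 * Real.sin φ ^ 2)‖ ≤ e := by
          refine hb _ ⟨by positivity, ?_⟩
          calc B * Real.sin θ ^ 2 * Real.sin φ ^ 2 ≤ B * 1 * 1 := by gcongr
            _ = B := by ring
        calc ‖Real.sin φ‖ * ‖g (B * Real.sin θ ^ 2 * Real.sin φ ^ 2)‖ ≤ 1 * e := by gcongr
          _ = e := one_mul e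
    rw [Real.norm_eq_abs, sub_zero, abs_of_pos hpi] at h2
    rw [abs_mul, abs_mul, abs_of_nonneg hB, abs_of_nonneg hs0]
    calc B * Real.sin θ ^ 2 * |∫ φ in (0 : ℝ)..Real.pi, Real.sin φ *
        g (B * Real.sin θ ^ 2 * Real.sin φ ^ 2)| ≤ B * 1 * (e * Real.pi) := by gcongr
      _ = _ := by ring
  have h2 := intervalIntegral.norm_integral_le_of_norm_le_const (a := 0) (b := Real.pi)
    (f := fun θ => B * Real.sin θ ^ 2 * ∫ φ in (0 : ℝ)..Real.pi, Real.sin φ *
      g (B * Real.sin θ ^ 2 * Real.sin φ ^ 2))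
    (C := B * (Real.pi * e)) fun θ _ => h1 θ
  rw [Real.norm_eq_abs, sub_zero, abs_of_pos hpi] at h2
  unfold Sch
  rw [abs_mul, abs_of_pos (by positivity : 0 < 1 / Real.pi), one_div, inv_mul_le_iff₀ hpi,
    mul_comm Real.pi]
  exact h2

theorem sch_eq {g : ℝ → ℝ} (hg : Continuous g) {B : ℝ} (hB : 0 ≤ B) :
    Sch g B = ∫ ρ in (0 : ℝ)..B, g ρ := by
  have hpi := Real.pi_pos
  have key : ∀ e : ℝ, 0 < e → |Sch g B - ∫ ρ in (0 : ℝ)..B, g ρ| ≤ (B * Real.pi + B) * e := by
    intro e he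
    obtain ⟨p, hp⟩ := exists_polynomial_near_of_continuousOn 0 B g hg.continuousOn e he
    have h1 : Sch g B = Sch (fun ρ => p.eval ρ) B + Sch (fun ρ => g ρ - p.eval ρ) B := by
      rw [← sch_add (g := fun ρ => p.eval ρ) (h := fun ρ => g ρ - p.eval ρ) p.continuous
        (hg.sub p.continuous)]
      congr 1
      funext ρ
      ring
    have h2 : |Sch (fun ρ => g ρ - p.eval ρ) B| ≤ B * (Real.pi * e) :=
      sch_bound hB fun ρ hρ => by
        rw [abs_sub_comm]
        exact (hp ρ hρ).le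
    have h3 : |(∫ ρ in (0 : ℝ)..B, p.eval ρ) - ∫ ρ in (0 : ℝ)..B, g ρ| ≤ e * B := by
      rw [← intervalIntegral.integral_sub (p.continuous.intervalIntegrable _ _)
        (hg.intervalIntegrable _ _)]
      have h4 := intervalIntegral.norm_integral_le_of_norm_le_const (a := 0) (b := B)
        (f := fun ρ => p.eval ρ - g ρ) (C := e) fun ρ hρ => by
          rw [uIoc_of_le hB] at hρ
          exact (hp ρ (Ioc_subset_Icc_self hρ)).le
      rwa [Real.norm_eq_abs, sub_zero, abs_of_nonneg hB] at h4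
    rw [h1, sch_poly]
    calc |(∫ ρ in (0 : ℝ)..B, p.eval ρ) + Sch (fun ρ => g ρ - p.eval ρ) B -
          ∫ ρ in (0 : ℝ)..B, g ρ|
        = |((∫ ρ in (0 : ℝ)..B, p.eval ρ) - ∫ ρ in (0 : ℝ)..B, g ρ) +
          Sch (fun ρ => g ρ - p.eval ρ) B| := by congr 1; ring
      _ ≤ e * B + B * (Real.pi * e) := (abs_add_le _ _).trans (add_le_add h3 h2)
      _ = _ := by ring
  have h0 : |Sch g B - ∫ ρ in (0 : ℝ)..B, g ρ| ≤ 0 := by
    refine le_of_forall_pos_le_add fun e he => ?_
    rw [zero_add]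
    have hc : 0 < B * Real.pi + B + 1 := by positivity
    have h1 := key (e / (B * Real.pi + B + 1)) (by positivity)
    refine h1.trans ?_
    rw [mul_div_assoc', div_le_iff₀ hc]
    nlinarith
  have := abs_nonneg (Sch g B - ∫ ρ in (0 : ℝ)..B, g ρ)
  have h2 : Sch g B - ∫ ρ in (0 : ℝ)..B, g ρ = 0 := abs_eq_zero.1 (le_antisymm h0 this)
  linarith

/-- The solution of the integral equation of Schloemilch. -/
noncomputable def v0 (h : ℝ → ℝ) (s : ℝ) : ℝ :=
  h 0 + s ^ 2 * ∫ φ in (0 : ℝ)..Real.pi, Real.sin φ * deriv h (s ^ 2 * Real.sin φ ^ 2)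

theorem v0_even (h : ℝ → ℝ) (s : ℝ) : v0 h (-s) = v0 h s := by
  unfold v0
  rw [neg_sq]

theorem v0_avg {h : ℝ → ℝ} (hh : ContDiff ℝ 1 h) (r : ℝ) :
    (1 / Real.pi) * ∫ θ in (0 : ℝ)..Real.pi, v0 h (r * Real.sin θ) = h (r ^ 2) := by
  have hpi := Real.pi_pos
  have hd : Continuous (deriv h) := hh.continuous_deriv le_rfl
  have h1 : ∫ θ in (0 : ℝ)..Real.pi, v0 h (r * Real.sin θ) =
      (∫ _θ in (0 : ℝ)..Real.pi, h 0) + ∫ θ in (0 : ℝ)..Real.pi, r ^ 2 * Real.sin θ ^ 2 *
        ∫ φ in (0 : ℝ)..Real.pi, Real.sin φ *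
          deriv h (r ^ 2 * Real.sin θ ^ 2 * Real.sin φ ^ 2) := by
    rw [← intervalIntegral.integral_add intervalIntegrable_const (outer_int hd (r ^ 2))]
    refine intervalIntegral.integral_congr fun θ _ => ?_
    show v0 h (r * Real.sin θ) = _
    unfold v0
    rw [mul_pow]
  have h2 := sch_eq hd (sq_nonneg r)
  have h3 : ∫ ρ in (0 : ℝ)..r ^ 2, deriv h ρ = h (r ^ 2) - h 0 := by
    refine intervalIntegral.integral_deriv_eq_sub (fun x _ => ?_) (hd.intervalIntegrable _ _)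
    exact (hh.differentiable (by norm_num)).differentiableAt
  rw [h1, mul_add]
  unfold Sch at h2
  rw [h2, h3, intervalIntegral.integral_const, sub_zero, smul_eq_mul]
  field_simp
  ring

theorem inner_deriv {g : ℝ → ℝ} (hg : ContDiff ℝ 1 g) (m : ℕ) (σ : ℝ) :
    HasDerivAt (fun σ : ℝ => ∫ φ in (0 : ℝ)..Real.pi, Real.sin φ ^ m * g (σ * Real.sin φ ^ 2))
      (∫ φ in (0 : ℝ)..Real.pi, Real.sin φ ^ (m + 2) * deriv g (σ * Real.sin φ ^ 2)) σ := by
  have hd : Continuous (deriv g) := hg.continuous_deriv le_rfl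
  have hgc := hg.continuous
  obtain ⟨C, hC⟩ := (isCompact_Icc (a := -(|σ| + 1)) (b := |σ| + 1)).exists_bound_of_continuousOn
    hd.continuousOn
  refine (intervalIntegral.hasDerivAt_integral_of_dominated_loc_of_deriv_le
    (F := fun σ φ => Real.sin φ ^ m * g (σ * Real.sin φ ^ 2))
    (F' := fun σ φ => Real.sin φ ^ (m + 2) * deriv g (σ * Real.sin φ ^ 2))
    (bound := fun _ => C) (Metric.ball_mem_nhds σ one_pos) ?_ ?_ ?_ ?_ ?_ ?_).2
  · exact Eventually.of_forall fun s => (by fun_prop : Continuous fun φ =>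
      Real.sin φ ^ m * g (s * Real.sin φ ^ 2)).aestronglyMeasurable
  · exact (by fun_prop : Continuous fun φ =>
      Real.sin φ ^ m * g (σ * Real.sin φ ^ 2)).intervalIntegrable _ _
  · exact (by fun_prop : Continuous fun φ =>
      Real.sin φ ^ (m + 2) * deriv g (σ * Real.sin φ ^ 2)).aestronglyMeasurable
  · refine Eventually.of_forall fun φ _ s hs => ?_
    have h3 : ‖Real.sin φ‖ ≤ 1 := Real.abs_sin_le_one φ
    have hs' : Real.sin φ ^ 2 ≤ 1 := by
      have := Real.sin_sq_add_cos_sq φ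
      nlinarith [sq_nonneg (Real.cos φ)]
    have hs0' : 0 ≤ Real.sin φ ^ 2 := sq_nonneg _
    have h4 : |s * Real.sin φ ^ 2| ≤ |σ| + 1 := by
      rw [Metric.mem_ball, Real.dist_eq] at hs
      have h5 : |s| ≤ |σ| + 1 := by
        have := abs_sub_abs_le_abs_sub s σ
        linarith
      rw [abs_mul, abs_of_nonneg hs0']
      calc |s| * Real.sin φ ^ 2 ≤ (|σ| + 1) * 1 := by gcongr
        _ = _ := mul_one _
    have h6 := hC _ (abs_le.1 h4)
    have h7 : ‖Real.sin φ‖ ^ (m + 2) ≤ 1 := pow_le_one₀ (norm_nonneg _) h3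
    rw [norm_mul, norm_pow]
    calc ‖Real.sin φ‖ ^ (m + 2) * ‖deriv g (s * Real.sin φ ^ 2)‖ ≤ 1 * C := by
          refine mul_le_mul h7 h6 (norm_nonneg _) zero_le_one
      _ = C := one_mul C
  · exact intervalIntegrable_const
  · refine Eventually.of_forall fun φ _ s _ => ?_
    have h1 : HasDerivAt (fun s : ℝ => s * Real.sin φ ^ 2) (Real.sin φ ^ 2) s := by
      simpa using (hasDerivAt_id s).mul_const (Real.sin φ ^ 2)
    have h2 : HasDerivAt g (deriv g (s * Real.sin φ ^ 2)) (s * Real.sin φ ^ 2) :=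
      ((hg.differentiable (by norm_num)).differentiableAt).hasDerivAt
    have h3 := (h2.comp s h1).const_mul (Real.sin φ ^ m)
    have e : Real.sin φ ^ m * (deriv g (s * Real.sin φ ^ 2) * Real.sin φ ^ 2) =
        Real.sin φ ^ (m + 2) * deriv g (s * Real.sin φ ^ 2) := by
      rw [pow_add]
      ring
    rw [e] at h3
    exact h3

theorem inner_smooth (n : ℕ) : ∀ (m : ℕ) (g : ℝ → ℝ), ContDiff ℝ n g →
    ContDiff ℝ n fun σ : ℝ => ∫ φ in (0 : ℝ)..Real.pi, Real.sin φ ^ m * g (σ * Real.sin φ ^ 2) := by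
  induction n with
  | zero =>
    intro m g hg
    rw [Nat.cast_zero, contDiff_zero] at *
    exact inner_cont hg m
  | succ n ih =>
    intro m g hg
    have hg1 : ContDiff ℝ 1 g := hg.of_le (by push_cast; exact le_add_self)
    have hd := fun σ => inner_deriv hg1 m σ
    push_cast at hg ⊢
    rw [contDiff_succ_iff_deriv]
    refine ⟨fun σ => (hd σ).differentiableAt, by simp, ?_⟩
    have e : (deriv fun σ : ℝ => ∫ φ in (0 : ℝ)..Real.pi,
        Real.sin φ ^ m * g (σ * Real.sin φ ^ 2)) =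
        fun σ => ∫ φ in (0 : ℝ)..Real.pi, Real.sin φ ^ (m + 2) * deriv g (σ * Real.sin φ ^ 2) :=
      funext fun σ => (hd σ).deriv
    rw [e]
    exact ih (m + 2) (deriv g) (contDiff_succ_iff_deriv.1 hg).2.2

theorem v0_smooth {h : ℝ → ℝ} (hh : ContDiff ℝ 4 h) : ContDiff ℝ 3 (v0 h) := by
  have h1 : ContDiff ℝ ((3 : ℕ) : WithTop ℕ∞) (deriv h) := by
    have : ContDiff ℝ (((3 : ℕ) : WithTop ℕ∞) + 1) h := by
      have e : (((3 : ℕ) : WithTop ℕ∞) + 1) = 4 := by norm_num
      rw [e]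
      exact hh
    exact (contDiff_succ_iff_deriv.1 this).2.2
  have h2 := inner_smooth 3 1 (deriv h) h1
  simp only [pow_one] at h2
  have e : ((3 : ℕ) : WithTop ℕ∞) = 3 := by norm_num
  rw [e] at h2
  unfold v0
  have h3 : ContDiff ℝ 3 fun s : ℝ => s ^ 2 := contDiff_id.pow 2
  exact contDiff_const.add (h3.mul (h2.comp h3))

end Pool.Agent.Q61.NC
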