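import Mathlib

/-!
# Shear flows stopped in finite time
-/

set_option autoImplicit false

open Set Filter Topology MeasureTheory
open scoped ENNReal ContDiff

namespace Pool.Agent.Q61.NC

/-- The Euclidean space of dimension `d`. -/
abbrev Sp (d : ℕ) := EuclideanSpace ℝ (Fin d)

/-- The partial derivative in the coordinate `i`. -/
noncomputable def pd {d : ℕ} (i : Fin d) (f : Sp d → ℝ) (x : Sp d) : ℝ :=
  fderiv ℝ f x (EuclideanSpace.single i 1)

/-- The points whose coordinate `j` lies in `D`. -/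
def slab {d : ℕ} (j : Fin d) (D : Set ℝ) : Set (Sp d) := {x | x j ∈ D}

/-- `(u, p)` is, for positive times, a smooth solution of the Navier-Stokes equations with unit
viscosity on (a neighbourhood of) the slab of the points whose coordinate `j` lies in `D`. It
vanishes on the walls, that is where the coordinate `j` lies in `W`, starts at `U₀ (x j)`, has
finite energy on each bounded part of the slab, and is at rest from time `T` on. -/
structure Stops {d : ℕ} (j : Fin d) (D W : Set ℝ) (T : ℝ) (U₀ : ℝ → Sp d)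
    (u : ℝ → Sp d → Sp d) (p : ℝ → Sp d → ℝ) : Prop where
  smooth : ∃ O : Set ℝ, IsOpen O ∧ D ⊆ O ∧
    ContDiffOn ℝ ∞ (fun z : ℝ × Sp d => u z.1 z.2) (Ioi 0 ×ˢ slab j O) ∧
    ContDiffOn ℝ ∞ (fun z : ℝ × Sp d => p z.1 z.2) (Ioi 0 ×ˢ slab j O)
  momentum : ∀ t, 0 < t → ∀ x ∈ slab j D, ∀ k,
    deriv (fun s => u s x k) t + ∑ i, u t x i * pd i (fun y => u t y k) x
      - ∑ i, pd i (pd i fun y => u t y k) x + pd k (p t) x = 0
  divfree : ∀ t, 0 < t → ∀ x ∈ slab j D, ∑ i, pd i (fun y => u t y i) x = 0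
  wall : ∀ t, 0 < t → ∀ x ∈ slab j W, u t x = 0
  rest : ∀ t, T ≤ t → ∀ x ∈ slab j D, u t x = 0
  initial : ∀ Ω ⊆ slab j D, MeasurableSet Ω → Bornology.IsBounded Ω →
    Tendsto (fun t => ∫⁻ x in Ω, ‖u t x - U₀ (x j)‖ₑ ^ 2) (𝓝[>] 0) (𝓝 0)
  energy : ∀ Ω ⊆ slab j D, MeasurableSet Ω → Bornology.IsBounded Ω →
    ∫⁻ t in Ioi (0 : ℝ), ∫⁻ x in Ω, ∑ i, ∑ k, ‖pd i (fun y => u t y k) x‖ₑ ^ 2 < ⊤

/-- For positive times `u` depends in the slab only on the coordinate `j`. -/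
def Shear {d : ℕ} (j : Fin d) (D : Set ℝ) (u : ℝ → Sp d → Sp d) : Prop :=
  ∀ t, 0 < t → ∀ x ∈ slab j D, ∀ x' ∈ slab j D, x j = x' j → u t x = u t x'

end Pool.Agent.Q61.NC
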