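import Pool.Agent.Q61.NC.L2

/-!
# Parity of the data and of the Fourier coefficients
-/

set_option autoImplicit false

open Set Filter Topology MeasureTheory AddCircle
open scoped ENNReal

namespace Pool.Agent.Q61.NC

section

variable {L : ℝ} [hL : Fact (0 < L)]

theorem cf_eq (F : ℝ → ℝ) (k : ℤ) :
    cf L F k = ((1 / L : ℝ) : ℂ) * ∫ y in (-(L / 2))..(L / 2),
      Complex.exp (-((om L k * y : ℝ) : ℂ) * Complex.I) * (F y : ℂ) := by
  rw [cf, fourierCoeff_liftIoc_eq, fourierCoeffOn_eq_integral]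
  simp only [fourier_coe_apply, smul_eq_mul]
  have e1 : -(L / 2) + L - -(L / 2) = L := by ring
  have e2 : -(L / 2) + L = L / 2 := by ring
  rw [e1, e2, Complex.real_smul]
  congr 1
  refine intervalIntegral.integral_congr fun y _ => ?_
  congr 2
  rw [om]
  push_cast
  ring

theorem conj_cf (F : ℝ → ℝ) (k : ℤ) :
    (starRingEnd ℂ) (cf L F k) = ((1 / L : ℝ) : ℂ) * ∫ y in (-(L / 2))..(L / 2),
      Complex.exp (-((om L k * y : ℝ) : ℂ) * Complex.I) * (F (-y) : ℂ) := by
  have hL' : 0 < L := hL.out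
  have h0 : -(L / 2) ≤ L / 2 := by linarith
  rw [cf_eq, map_mul, Complex.conj_ofReal]
  congr 1
  have h1 : ∫ y in (-(L / 2))..(L / 2),
      Complex.exp (-((om L k * y : ℝ) : ℂ) * Complex.I) * (F (-y) : ℂ) =
      ∫ y in (-(L / 2))..(L / 2), Complex.exp (((om L k * y : ℝ) : ℂ) * Complex.I) * (F y : ℂ) := by
    have h2 := intervalIntegral.integral_comp_neg (a := -(L / 2)) (b := L / 2)
      (fun y : ℝ => Complex.exp (((om L k * y : ℝ) : ℂ) * Complex.I) * (F y : ℂ))
    rw [neg_neg] at h2
    rw [← h2]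
    refine intervalIntegral.integral_congr fun y _ => ?_
    congr 2
    push_cast
    ring
  rw [h1, intervalIntegral.integral_of_le h0, intervalIntegral.integral_of_le h0, ← integral_conj]
  refine integral_congr_ae (Eventually.of_forall fun y => ?_)
  simp only [map_mul, Complex.conj_ofReal]
  congr 1
  rw [← Complex.exp_conj, map_mul, map_neg, Complex.conj_ofReal, Complex.conj_I]
  congr 1
  ring

theorem cf_even {F : ℝ → ℝ} (h : ∀ y, F (-y) = F y) (k : ℤ) : (cf L F k).im = 0 := by
  have h1 := conj_cf (L := L) F k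
  simp_rw [h] at h1
  rw [← cf_eq] at h1
  exact Complex.conj_eq_iff_im.1 h1

theorem cf_odd {F : ℝ → ℝ} (h : ∀ y, F (-y) = -F y) (k : ℤ) : (cf L F k).re = 0 := by
  have h1 := conj_cf (L := L) F k
  simp_rw [h] at h1
  have h2 : ((1 / L : ℝ) : ℂ) * ∫ y in (-(L / 2))..(L / 2),
      Complex.exp (-((om L k * y : ℝ) : ℂ) * Complex.I) * ((-F y : ℝ) : ℂ) = -cf L F k := by
    rw [cf_eq, ← mul_neg, ← intervalIntegral.integral_neg]
    congr 1
    refine intervalIntegral.integral_congr fun y _ => ?_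
    push_cast
    ring
  rw [h2] at h1
  have h3 := congrArg Complex.re h1
  rw [Complex.conj_re, Complex.neg_re] at h3
  linarith

omit hL in
theorem integrand_int {F : ℝ → ℝ}
    (hF : MemLp F 2 (volume.restrict (Ioc (-(L / 2)) (-(L / 2) + L)))) (k : ℤ) :
    IntegrableOn (fun y : ℝ => Complex.exp (-((om L k * y : ℝ) : ℂ) * Complex.I) * (F y : ℂ))
      (Ioc (-(L / 2)) (-(L / 2) + L)) := by
  have h1 : MemLp (fun y => (F y : ℂ)) 2 (volume.restrict (Ioc (-(L / 2)) (-(L / 2) + L))) :=
    hF.ofReal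
  have h2 := h1.integrable one_le_two
  refine Integrable.bdd_mul (c := 1) h2 ?_ ?_
  · have hc : Continuous fun y : ℝ => Complex.exp (-((om L k * y : ℝ) : ℂ) * Complex.I) := by
      fun_prop
    exact hc.aestronglyMeasurable
  · refine Eventually.of_forall fun y => ?_
    rw [← Complex.ofReal_neg, Complex.norm_exp_ofReal_mul_I]

theorem cf_anti {F : ℝ → ℝ}
    (hF : MemLp F 2 (volume.restrict (Ioc (-(L / 2)) (-(L / 2) + L))))
    (h : ∀ y ∈ Icc (-(L / 2)) 0, F (y + L / 2) = -F y) {k : ℤ} (hk : Even k) :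
    cf L F k = 0 := by
  have hL' : 0 < L := hL.out
  have hI := integrand_int hF k
  have e2 : -(L / 2) + L = L / 2 := by ring
  rw [e2] at hI
  have i1 : IntervalIntegrable
      (fun y : ℝ => Complex.exp (-((om L k * y : ℝ) : ℂ) * Complex.I) * (F y : ℂ)) volume
      (-(L / 2)) 0 := by
    rw [intervalIntegrable_iff_integrableOn_Ioc_of_le (by linarith)]
    exact hI.mono_set (Ioc_subset_Ioc_right (by linarith))
  have i2 : IntervalIntegrable
      (fun y : ℝ => Complex.exp (-((om L k * y : ℝ) : ℂ) * Complex.I) * (F y : ℂ)) volume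
      0 (L / 2) := by
    rw [intervalIntegrable_iff_integrableOn_Ioc_of_le (by linarith)]
    exact hI.mono_set (Ioc_subset_Ioc_left (by linarith))
  rw [cf_eq, ← intervalIntegral.integral_add_adjacent_intervals i1 i2]
  have h1 : ∫ y in (0 : ℝ)..(L / 2),
      Complex.exp (-((om L k * y : ℝ) : ℂ) * Complex.I) * (F y : ℂ) =
      -∫ y in (-(L / 2))..0,
        Complex.exp (-((om L k * y : ℝ) : ℂ) * Complex.I) * (F y : ℂ) := by
    have h2 := intervalIntegral.integral_comp_add_right (a := -(L / 2)) (b := 0)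
      (fun y : ℝ => Complex.exp (-((om L k * y : ℝ) : ℂ) * Complex.I) * (F y : ℂ)) (L / 2)
    have e3 : -(L / 2) + L / 2 = 0 := by ring
    rw [e3, zero_add] at h2
    rw [← h2, ← intervalIntegral.integral_neg]
    refine intervalIntegral.integral_congr fun y hy => ?_
    rw [uIcc_of_le (by linarith)] at hy
    rw [h y hy]
    obtain ⟨m, hm⟩ := hk
    have e4 : Complex.exp (-((om L k * (y + L / 2) : ℝ) : ℂ) * Complex.I) =
        Complex.exp (-((om L k * y : ℝ) : ℂ) * Complex.I) := by
      have e5 : -((om L k * (y + L / 2) : ℝ) : ℂ) * Complex.I =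
          -((om L k * y : ℝ) : ℂ) * Complex.I + ((-m : ℤ) : ℂ) * (2 * Real.pi * Complex.I) := by
        have e6 : om L k * (y + L / 2) = om L k * y + 2 * Real.pi * m := by
          rw [om, hm]
          push_cast
          field_simp
          ring
        rw [e6]
        push_cast
        ring
      rw [e5, Complex.exp_add, Complex.exp_int_mul_two_pi_mul_I, mul_one]
    rw [e4]
    push_cast
    ring
  rw [h1, add_neg_cancel, mul_zero]

end

end Pool.Agent.Q61.NC
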