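import Pool.Agent.Q61.NC.Bes
import Pool.Agent.Q61.NC.Par

/-!
# Bessel series of smooth profiles
-/

set_option autoImplicit false

open Set Filter Topology MeasureTheory AddCircle

namespace Pool.Agent.Q61.NC

section

variable {L : ℝ} [hL : Fact (0 < L)]

/-- The Fourier integral. -/
noncomputable def FI (L : ℝ) (k : ℤ) (G : ℝ → ℝ) : ℂ := ∫ y in (-(L / 2))..(L / 2),
  Complex.exp (-((om L k * y : ℝ) : ℂ) * Complex.I) * (G y : ℂ)

omit hL in
theorem FI_parts {G : ℝ → ℝ} (hG : ContDiff ℝ 1 G) (h1 : G (-(L / 2)) = 0) (h2 : G (L / 2) = 0)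
    (k : ℤ) : |om L k| * ‖FI L k G‖ = ‖FI L k (deriv G)‖ := by
  have hd : Continuous (deriv G) := hG.continuous_deriv le_rfl
  have he : ∀ y : ℝ, HasDerivAt (fun y : ℝ => Complex.exp (-((om L k * y : ℝ) : ℂ) * Complex.I))
      (Complex.exp (-((om L k * y : ℝ) : ℂ) * Complex.I) * (-(om L k : ℂ) * Complex.I)) y := by
    intro y
    have h3 : HasDerivAt (fun y : ℝ => -((om L k * y : ℝ) : ℂ) * Complex.I)
        (-(om L k : ℂ) * Complex.I) y := by
      have h4 : HasDerivAt (fun y : ℝ => om L k * y) (om L k) y := by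
        simpa using (hasDerivAt_id y).const_mul (om L k)
      exact (h4.ofReal_comp.neg).mul_const Complex.I
    exact h3.cexp
  have hg : ∀ y : ℝ, HasDerivAt (fun y : ℝ => (G y : ℂ)) ((deriv G y : ℝ) : ℂ) y := fun y =>
    ((hG.differentiable (by norm_num)).differentiableAt.hasDerivAt).ofReal_comp
  have c1 : Continuous fun y : ℝ => Complex.exp (-((om L k * y : ℝ) : ℂ) * Complex.I) *
      (-(om L k : ℂ) * Complex.I) := by fun_prop
  have c2 : Continuous fun y : ℝ => ((deriv G y : ℝ) : ℂ) := Complex.continuous_ofReal.comp hd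
  have h := intervalIntegral.integral_mul_deriv_eq_deriv_mul (a := -(L / 2)) (b := L / 2)
    (u := fun y : ℝ => Complex.exp (-((om L k * y : ℝ) : ℂ) * Complex.I))
    (u' := fun y : ℝ => Complex.exp (-((om L k * y : ℝ) : ℂ) * Complex.I) *
      (-(om L k : ℂ) * Complex.I))
    (v := fun y : ℝ => (G y : ℂ)) (v' := fun y : ℝ => ((deriv G y : ℝ) : ℂ))
    (fun y _ => he y) (fun y _ => hg y) (c1.intervalIntegrable _ _) (c2.intervalIntegrable _ _)
  rw [h1, h2] at h
  have e : ∫ y in (-(L / 2))..(L / 2), Complex.exp (-((om L k * y : ℝ) : ℂ) * Complex.I) *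
      (-(om L k : ℂ) * Complex.I) * (G y : ℂ) = (-(om L k : ℂ) * Complex.I) * FI L k G := by
    unfold FI
    rw [← intervalIntegral.integral_const_mul]
    refine intervalIntegral.integral_congr fun y _ => ?_
    ring
  rw [e] at h
  have h3 : FI L k (deriv G) = -((-(om L k : ℂ) * Complex.I) * FI L k G) := by
    unfold FI at h ⊢
    rw [h]
    simp
  rw [h3, norm_neg, norm_mul, norm_mul, norm_neg, Complex.norm_real, Complex.norm_I, mul_one,
    Real.norm_eq_abs]

theorem FI_bound {G : ℝ → ℝ} {C : ℝ} (hC : ∀ y ∈ Icc (-(L / 2)) (L / 2), |G y| ≤ C) (k : ℤ) :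
    ‖FI L k G‖ ≤ C * L := by
  have hL' : 0 < L := hL.out
  have h := intervalIntegral.norm_integral_le_of_norm_le_const (a := -(L / 2)) (b := L / 2)
    (f := fun y => Complex.exp (-((om L k * y : ℝ) : ℂ) * Complex.I) * (G y : ℂ)) (C := C)
    fun y hy => by
      rw [uIoc_of_le (by linarith)] at hy
      rw [norm_mul, ← Complex.ofReal_neg, Complex.norm_exp_ofReal_mul_I, one_mul,
        Complex.norm_real]
      exact hC y (Ioc_subset_Icc_self hy)
  have e : |L / 2 - -(L / 2)| = L := by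
    rw [abs_of_pos (by linarith)]
    ring
  rw [e] at h
  exact h

variable {F : ℝ → ℝ} (hF : ContDiff ℝ 3 F) {ρ : ℝ} (hρ : ρ < L / 2)
  (h0 : ∀ y, ρ < |y| → F y = 0)

include hF hρ h0

theorem cf_decay : ∃ C : ℝ, 0 ≤ C ∧ ∀ k, ‖cf L F k‖ * |om L k| ^ 3 ≤ C := by
  have hL' : 0 < L := hL.out
  have hopen : IsOpen {y : ℝ | ρ < |y|} := isOpen_lt continuous_const continuous_abs
  have z0 : ∀ y ∈ {y : ℝ | ρ < |y|}, F y = 0 := fun y hy => h0 y hy
  have zd : ∀ G : ℝ → ℝ, (∀ y ∈ {y : ℝ | ρ < |y|}, G y = 0) →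
      ∀ y ∈ {y : ℝ | ρ < |y|}, deriv G y = 0 := by
    intro G hG y hy
    have : G =ᶠ[𝓝 y] fun _ => 0 := by
      filter_upwards [hopen.mem_nhds hy] with z hz
      exact hG z hz
    rw [this.deriv_eq]
    simp
  have z1 := zd F z0
  have z2 := zd (deriv F) z1
  have m1 : -(L / 2) ∈ {y : ℝ | ρ < |y|} := by
    show ρ < |-(L / 2)|
    rw [abs_neg, abs_of_pos (by linarith)]
    exact hρ
  have m2 : L / 2 ∈ {y : ℝ | ρ < |y|} := by
    show ρ < |L / 2|
    rw [abs_of_pos (by linarith)]
    exact hρ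
  have s1 : ContDiff ℝ 2 (deriv F) := by
    have : ContDiff ℝ (2 + 1) F := by
      have e : (2 : WithTop ℕ∞) + 1 = 3 := by norm_num
      rw [e]
      exact hF
    exact (contDiff_succ_iff_deriv.1 this).2.2
  have s2 : ContDiff ℝ 1 (deriv (deriv F)) := by
    have : ContDiff ℝ (1 + 1) (deriv F) := by
      have e : (1 : WithTop ℕ∞) + 1 = 2 := by norm_num
      rw [e]
      exact s1
    exact (contDiff_succ_iff_deriv.1 this).2.2
  have c3 : Continuous (deriv (deriv (deriv F))) := s2.continuous_deriv le_rfl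
  obtain ⟨C, hC⟩ := (isCompact_Icc (a := -(L / 2)) (b := L / 2)).exists_bound_of_continuousOn
    c3.continuousOn
  have hC0 : 0 ≤ C := (norm_nonneg _).trans (hC 0 ⟨by linarith, by linarith⟩)
  refine ⟨C, hC0, fun k => ?_⟩
  have p1 := FI_parts (L := L) (hF.of_le (by norm_num)) (z0 _ m1) (z0 _ m2) k
  have p2 := FI_parts (L := L) (s1.of_le (by norm_num)) (z1 _ m1) (z1 _ m2) k
  have p3 := FI_parts (L := L) s2 (z2 _ m1) (z2 _ m2) k
  have b3 := FI_bound (L := L) (G := deriv (deriv (deriv F))) (fun y hy => hC y hy) k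
  have hcf : ‖cf L F k‖ = 1 / L * ‖FI L k F‖ := by
    rw [cf_eq, norm_mul, Complex.norm_real, Real.norm_of_nonneg (by positivity)]
    rfl
  rw [hcf]
  calc 1 / L * ‖FI L k F‖ * |om L k| ^ 3
      = 1 / L * (|om L k| * (|om L k| * (|om L k| * ‖FI L k F‖))) := by ring
    _ = 1 / L * ‖FI L k (deriv (deriv (deriv F)))‖ := by rw [p1, p2, p3]
    _ ≤ 1 / L * (C * L) := by gcongr
    _ = C := by field_simp

theorem cf_summable_one : Summable fun k => ‖cf L F k‖ * (1 + |om L k|) := by
  have hL' : 0 < L := hL.out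
  obtain ⟨C, hC, hb⟩ := cf_decay hF hρ h0
  set w : ℝ := 2 * Real.pi / L with hw
  have hw0 : 0 < w := by positivity
  have hom : ∀ k : ℤ, |om L k| = w * |(k : ℝ)| := by
    intro k
    have : om L k = w * k := by rw [om, hw]; ring
    rw [this, abs_mul, abs_of_pos hw0]
  have hs : Summable fun k : ℤ => C * (1 / w ^ 3 + 1 / w ^ 2) * (1 / (k : ℝ) ^ 2) +
      (if k = 0 then ‖cf L F 0‖ else 0) := by
    refine ((Real.summable_one_div_int_pow.2 (by norm_num : 1 < 2)).mul_left _).add ?_
    exact (hasSum_ite_eq (0 : ℤ) ‖cf L F 0‖).summable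
  refine Summable.of_nonneg_of_le (fun k => by positivity) (fun k => ?_) hs
  rcases eq_or_ne k 0 with hk | hk
  · subst hk
    have : om L 0 = 0 := by rw [om]; simp
    rw [this]
    simp
  · rw [if_neg hk, add_zero]
    have hk1 : (1 : ℝ) ≤ |(k : ℝ)| := by
      rw [← Int.cast_abs]
      exact_mod_cast Int.one_le_abs hk
    have hk0 : 0 < |(k : ℝ)| := by linarith
    have h1 := hb k
    rw [hom k] at h1 ⊢
    have h2 : ‖cf L F k‖ ≤ C / (w * |(k : ℝ)|) ^ 3 := by
      rw [le_div_iff₀ (by positivity)]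
      exact h1
    have h3 : (k : ℝ) ^ 2 = |(k : ℝ)| ^ 2 := (sq_abs _).symm
    calc ‖cf L F k‖ * (1 + w * |(k : ℝ)|)
        ≤ C / (w * |(k : ℝ)|) ^ 3 * (1 + w * |(k : ℝ)|) := by gcongr
      _ = C * (1 / w ^ 3 * (1 / |(k : ℝ)| ^ 3) + 1 / w ^ 2 * (1 / |(k : ℝ)| ^ 2)) := by
          field_simp
      _ ≤ C * (1 / w ^ 3 * (1 / |(k : ℝ)| ^ 2) + 1 / w ^ 2 * (1 / |(k : ℝ)| ^ 2)) := by
          have h4 : 1 / |(k : ℝ)| ^ 3 ≤ 1 / |(k : ℝ)| ^ 2 := by
            apply one_div_le_one_div_of_le (by positivity)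
            exact pow_le_pow_right₀ hk1 (by norm_num)
          gcongr
      _ = _ := by rw [h3]; ring

theorem cf_summable_abs : Summable fun k => ‖cf L F k‖ := by
  refine Summable.of_nonneg_of_le (fun k => norm_nonneg _) (fun k => ?_)
    (cf_summable_one hF hρ h0)
  have := norm_nonneg (cf L F k)
  have := abs_nonneg (om L k)
  nlinarith

/-- The Fourier series, pointwise. -/
theorem cf_pointwise {y : ℝ} (hy : y ∈ Ioc (-(L / 2)) (-(L / 2) + L)) :
    HasSum (fun k => (cf L F k).re * Real.cos (om L k * y) -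
      (cf L F k).im * Real.sin (om L k * y)) (F y) := by
  have hL' : 0 < L := hL.out
  have e1 : (F (-(L / 2)) : ℂ) = (F (-(L / 2) + L) : ℂ) := by
    rw [h0, h0]
    · rw [abs_of_pos (by linarith)]
      linarith
    · rw [abs_neg, abs_of_pos (by linarith)]
      exact hρ
  have hc : Continuous (AddCircle.liftIoc L (-(L / 2)) fun y => (F y : ℂ)) :=
    liftIoc_continuous e1 (Complex.continuous_ofReal.comp hF.continuous).continuousOn
  set f : C(AddCircle L, ℂ) := ⟨_, hc⟩ with hf
  have hcoef : ∀ k, fourierCoeff f k = cf L F k := fun k => rfl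
  have hsum : Summable (fourierCoeff f) :=
    Summable.of_norm (cf_summable_abs hF hρ h0)
  have h1 := hasSum_fourier_series_of_summable hsum
  have h2 := SC_hasSum (L := L) (cf_summable_abs hF hρ h0)
  have h3 : SC L (cf L F) = f := h2.unique h1
  have h4 := SC_re (L := L) (cf_summable_abs hF hρ h0) y
  rw [h3] at h4
  have h5 : (f (y : AddCircle L)).re = F y := by
    show ((AddCircle.liftIoc L (-(L / 2)) fun y => (F y : ℂ)) (y : AddCircle L)).re = F y
    rw [liftIoc_coe_apply hy, Complex.ofReal_re]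
  rw [h5] at h4
  exact h4

end

/-! ### the radial free flow -/

section

variable {L : ℝ} (hL : 0 < L)

include hL

theorem SB_fr {a : ℤ → ℝ} {M : ℝ} (hM : 0 ≤ M) (ha : ∀ k, |a k| ≤ M * (1 + lam L k))
    {t : ℝ} (ht : 0 < t) (y : ℝ) :
    SB 0 (fr L a) t (y ^ 2) = ∑' k : ℤ, a k * Real.exp (-(lam L k * t)) * Jb (om L k * y) := by
  have hle : ∀ (x : ℝ) (i : ℕ), 0 ≤ x → x ^ (2 * i) / bden 0 i ≤
      x ^ (2 * i) / ((2 * i).factorial : ℝ) := by
    intro x i hx
    have h1 := fact_le_bden 0 i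
    have h2 := bden_pos 0 i
    gcongr
  have hs : Summable fun p : ℤ × ℕ => a p.1 * (-lam L p.1) ^ p.2 * Real.exp (-(lam L p.1 * t)) *
      ((y ^ 2) ^ p.2 / bden 0 p.2) := by
    refine Summable.of_norm ((double_summable hL hM ha ht y
      (fun x i => x ^ (2 * i) / bden 0 i) ?_).congr ?_)
    · intro x hx
      have hb : ∀ i, 0 ≤ x ^ (2 * i) / bden 0 i := fun i => by
        have := bden_pos 0 i
        positivity
      have hsc := (Real.hasSum_cosh x).summable
      have hsb : Summable fun i => x ^ (2 * i) / bden 0 i :=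
        Summable.of_nonneg_of_le hb (fun i => hle x i hx) hsc
      refine ⟨hb, hsb, ?_⟩
      refine (hsb.tsum_le_tsum (fun i => hle x i hx) hsc).trans ?_
      rw [(Real.hasSum_cosh x).tsum_eq, Real.cosh_eq]
      have : Real.exp (-x) ≤ Real.exp x := Real.exp_le_exp.2 (by linarith)
      linarith
    · rintro ⟨k, i⟩
      have hbd := bden_pos 0 i
      simp only [norm_mul, norm_div, norm_pow, Real.norm_eq_abs, abs_neg,
        abs_of_pos (Real.exp_pos _), abs_of_nonneg (lam_nonneg L k), abs_of_pos hbd]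
      rw [lam, mul_pow, pow_mul |om L k| 2 i, sq_abs, pow_mul |y| 2 i]
      ring
  have h1 : SB 0 (fr L a) t (y ^ 2) = ∑' i : ℕ, ∑' k : ℤ, a k * (-lam L k) ^ i *
      Real.exp (-(lam L k * t)) * ((y ^ 2) ^ i / bden 0 i) := by
    unfold SB fr
    congr 1
    funext i
    rw [tsum_mul_right]
  rw [h1, ← Summable.tsum_comm (f := fun (i : ℕ) (k : ℤ) => a k * (-lam L k) ^ i *
      Real.exp (-(lam L k * t)) * ((y ^ 2) ^ i / bden 0 i)) hs.prod_symm]
  congr 1
  funext k
  have h2 := (Jb_hasSum (om L k * y)).mul_left (a k * Real.exp (-(lam L k * t)))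
  rw [← h2.tsum_eq]
  congr 1
  funext i
  have e : (-lam L k) ^ i = (-1) ^ i * om L k ^ (2 * i) := by
    rw [lam, neg_pow, pow_mul]
  rw [e, mul_pow, pow_mul y]
  ring

end

/-- A bounded, smooth, compactly supported even extension of the solution of Schloemilch's equation,
and the Bessel series of the profile. -/
theorem bessel_series {R : ℝ} (hR : 0 < R) {h : ℝ → ℝ} (hh : ContDiff ℝ 4 h) :
    ∃ α : ℤ → ℝ, Summable (fun k => |α k| * (1 + |om (4 * R) k|)) ∧
      ∀ r : ℝ, |r| ≤ R → HasSum (fun k => α k * Jb (om (4 * R) k * r)) (h (r ^ 2)) := by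
  have hL : Fact (0 < 4 * R) := ⟨by positivity⟩
  have hpi := Real.pi_pos
  let b : ContDiffBump (0 : ℝ) := ⟨R, 3 / 2 * R, hR, by linarith⟩
  have hb1 : ∀ y : ℝ, |y| ≤ R → b y = 1 := fun y hy =>
    b.one_of_mem_closedBall (by rw [mem_closedBall_zero_iff, Real.norm_eq_abs]; exact hy)
  have hb0 : ∀ y : ℝ, 3 / 2 * R ≤ |y| → b y = 0 := fun y hy =>
    b.zero_of_le_dist (by rw [dist_zero_right, Real.norm_eq_abs]; exact hy)
  set F : ℝ → ℝ := fun y => b y * v0 h y with hFd
  have hF : ContDiff ℝ 3 F := b.contDiff.mul (v0_smooth hh)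
  have h0 : ∀ y, 3 / 2 * R < |y| → F y = 0 := fun y hy => by
    rw [hFd]
    simp only
    rw [hb0 y hy.le, zero_mul]
  have hρ : 3 / 2 * R < 4 * R / 2 := by linarith
  have heven : ∀ y, F (-y) = F y := by
    intro y
    rw [hFd]
    simp only
    rw [v0_even, b.neg]
  have him : ∀ k, (cf (4 * R) F k).im = 0 := cf_even heven
  refine ⟨fun k => (cf (4 * R) F k).re, ?_, fun r hr => ?_⟩
  · refine Summable.of_nonneg_of_le (fun k => by positivity) (fun k => ?_)
      (cf_summable_one hF hρ h0)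
    have h1 := Complex.abs_re_le_norm (cf (4 * R) F k)
    have h2 := abs_nonneg (om (4 * R) k)
    gcongr
  · have hsum : Summable fun k => |(cf (4 * R) F k).re| :=
      Summable.of_nonneg_of_le (fun k => abs_nonneg _) (fun k => Complex.abs_re_le_norm _)
        (cf_summable_abs hF hρ h0)
    have hrs : ∀ θ : ℝ, |r * Real.sin θ| ≤ R := by
      intro θ
      rw [abs_mul]
      have := Real.abs_sin_le_one θ
      calc |r| * |Real.sin θ| ≤ R * 1 := by gcongr
        _ = R := mul_one R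
    have hv : ∀ θ : ℝ, v0 h (r * Real.sin θ) = F (r * Real.sin θ) := by
      intro θ
      rw [hFd]
      simp only
      rw [hb1 _ (hrs θ), one_mul]
    have hpt : ∀ θ : ℝ, HasSum (fun k => (cf (4 * R) F k).re *
        Real.cos (om (4 * R) k * (r * Real.sin θ))) (F (r * Real.sin θ)) := by
      intro θ
      have hmem : r * Real.sin θ ∈ Ioc (-(4 * R / 2)) (-(4 * R / 2) + 4 * R) := by
        have := abs_le.1 (hrs θ)
        constructor
        · linarith [this.1]
        · linarith [this.2]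
      have h1 := cf_pointwise hF hρ h0 hmem
      simp_rw [him, zero_mul, sub_zero] at h1
      exact h1
    have key := intervalIntegral.hasSum_integral_of_dominated_convergence (μ := volume)
      (a := 0) (b := Real.pi)
      (F := fun (k : ℤ) θ => (cf (4 * R) F k).re * Real.cos (om (4 * R) k * (r * Real.sin θ)))
      (f := fun θ => F (r * Real.sin θ)) (fun k _ => |(cf (4 * R) F k).re|)
      (fun k => (by fun_prop : Continuous fun θ => (cf (4 * R) F k).re *
        Real.cos (om (4 * R) k * (r * Real.sin θ))).aestronglyMeasurable)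
      (fun k => Eventually.of_forall fun θ _ => by
        rw [norm_mul]
        have h1 : ‖Real.cos (om (4 * R) k * (r * Real.sin θ))‖ ≤ 1 := Real.abs_cos_le_one _
        calc ‖(cf (4 * R) F k).re‖ * ‖Real.cos (om (4 * R) k * (r * Real.sin θ))‖
            ≤ ‖(cf (4 * R) F k).re‖ * 1 := by gcongr
          _ = _ := mul_one _)
      (Eventually.of_forall fun θ _ => hsum) intervalIntegrable_const
      (Eventually.of_forall fun θ _ => hpt θ)
    have h2 := key.mul_left (1 / Real.pi)
    have e1 : (1 / Real.pi) * ∫ θ in (0 : ℝ)..Real.pi, F (r * Real.sin θ) = h (r ^ 2) := by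
      rw [← v0_avg (hh.of_le (by norm_num)) r]
      simp_rw [hv]
    rw [e1] at h2
    refine h2.congr_fun fun k => ?_
    rw [Jb, intervalIntegral.integral_const_mul, mul_left_comm]
    congr 2
    refine intervalIntegral.integral_congr fun θ _ => ?_
    show Real.cos (om (4 * R) k * r * Real.sin θ) = Real.cos (om (4 * R) k * (r * Real.sin θ))
    rw [mul_assoc]

end Pool.Agent.Q61.NC
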