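import Pool.Agent.Q61.NC.Flat

/-!
# The free heat flow on a circle and its flat outputs
-/

set_option autoImplicit false

open Set Filter Topology

namespace Pool.Agent.Q61.NC

/-- Frequencies of the circle of length `L`. -/
noncomputable def om (L : ℝ) (k : ℤ) : ℝ := 2 * Real.pi * k / L

/-- Eigenvalues. -/
noncomputable def lam (L : ℝ) (k : ℤ) : ℝ := om L k ^ 2

theorem lam_nonneg (L : ℝ) (k : ℤ) : 0 ≤ lam L k := sq_nonneg _

/-- The free jet with coefficients `a k`. -/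
noncomputable def fr (L : ℝ) (a : ℤ → ℝ) : ℕ → ℝ → ℝ := fun i t =>
  ∑' k : ℤ, a k * (-lam L k) ^ i * Real.exp (-(lam L k * t))

section

variable {L : ℝ} (hL : 0 < L)

include hL

theorem summ_exp {δ : ℝ} (hδ : 0 < δ) :
    Summable fun k : ℤ => Real.exp (-(lam L k * δ)) := by
  set c : ℝ := (2 * Real.pi / L) ^ 2 * δ with hc
  have hc0 : 0 < c := by positivity
  have hρ : Real.exp (-c) < 1 := by rw [Real.exp_lt_one_iff]; linarith
  have hg : Summable fun n : ℕ => Real.exp (-c) ^ n :=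
    summable_geometric_of_lt_one (Real.exp_pos _).le hρ
  have key : ∀ (n : ℕ) (k : ℤ), (k : ℝ) ^ 2 = (n : ℝ) ^ 2 →
      Real.exp (-(lam L k * δ)) ≤ Real.exp (-c) ^ n := by
    intro n k hk
    rw [← Real.exp_nat_mul]
    apply Real.exp_le_exp.2
    have h1 : lam L k * δ = c * (n : ℝ) ^ 2 := by
      rw [lam, om, hc]
      have : (2 * Real.pi * (k : ℝ) / L) ^ 2 = (2 * Real.pi / L) ^ 2 * (k : ℝ) ^ 2 := by ring
      rw [this, hk]
      ring
    rw [h1]
    have h2 : (n : ℝ) ≤ (n : ℝ) ^ 2 := by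
      rcases Nat.eq_zero_or_pos n with h0 | h0
      · simp [h0]
      · have : (1 : ℝ) ≤ n := by exact_mod_cast h0
        nlinarith
    nlinarith
  rw [summable_int_iff_summable_nat_and_neg]
  constructor
  · exact Summable.of_nonneg_of_le (fun n => (Real.exp_pos _).le)
      (fun n => key n (n : ℤ) (by push_cast; rfl)) hg
  · exact Summable.of_nonneg_of_le (fun n => (Real.exp_pos _).le)
      (fun n => key n (-(n : ℤ)) (by push_cast; ring)) hg

omit hL in
/-- Elementary bound for the terms. -/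
theorem term_le {M : ℝ} (hM : 0 ≤ M) {x l t t₁ : ℝ} (hl : 0 ≤ l) (hx : |x| ≤ M * (1 + l))
    (ht₁ : 0 < t₁) (ht : t₁ ≤ t) (i : ℕ) :
    |x * (-l) ^ i * Real.exp (-(l * t))| ≤
      M * (1 + 4 / t₁) * ((i.factorial : ℝ) * (4 / t₁) ^ i) * Real.exp (-(l * (t₁ / 2))) := by
  have h1 : l ^ i * Real.exp (-(l * (t₁ / 4))) ≤ (i.factorial : ℝ) * (4 / t₁) ^ i := by
    have h2 := Real.pow_div_factorial_le_exp (l * (t₁ / 4)) (by positivity) i
    rw [div_le_iff₀ (by positivity)] at h2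
    rw [Real.exp_neg, ← div_eq_mul_inv, div_le_iff₀ (Real.exp_pos _)]
    have h3 : l ^ i = (l * (t₁ / 4)) ^ i * (4 / t₁) ^ i := by
      rw [← mul_pow]
      congr 1
      field_simp
    rw [h3]
    have h4 : 0 ≤ (4 / t₁) ^ i := by positivity
    calc (l * (t₁ / 4)) ^ i * (4 / t₁) ^ i
        ≤ (Real.exp (l * (t₁ / 4)) * (i.factorial : ℝ)) * (4 / t₁) ^ i := by gcongr
      _ = _ := by ring
  have h2 : (1 + l) * Real.exp (-(l * (t₁ / 4))) ≤ 1 + 4 / t₁ := by
    have h3 : l * (t₁ / 4) + 1 ≤ Real.exp (l * (t₁ / 4)) := Real.add_one_le_exp _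
    rw [Real.exp_neg, ← div_eq_mul_inv, div_le_iff₀ (Real.exp_pos _)]
    have h5 : 0 < 1 + 4 / t₁ := by positivity
    have h6 : 1 + l ≤ (1 + 4 / t₁) * (l * (t₁ / 4) + 1) := by
      have : (1 + 4 / t₁) * (l * (t₁ / 4) + 1) = 1 + l + (l * (t₁ / 4) + 4 / t₁) := by
        field_simp
        ring
      rw [this]
      have : 0 ≤ l * (t₁ / 4) + 4 / t₁ := by positivity
      linarith
    calc 1 + l ≤ (1 + 4 / t₁) * (l * (t₁ / 4) + 1) := h6
      _ ≤ _ := by gcongr
  have h3 : Real.exp (-(l * t)) ≤ Real.exp (-(l * (t₁ / 4))) * Real.exp (-(l * (t₁ / 4))) *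
      Real.exp (-(l * (t₁ / 2))) := by
    rw [← Real.exp_add, ← Real.exp_add]
    apply Real.exp_le_exp.2
    nlinarith
  rw [abs_mul, abs_mul, abs_pow, abs_neg, abs_of_nonneg hl, abs_of_pos (Real.exp_pos _)]
  calc |x| * l ^ i * Real.exp (-(l * t))
      ≤ (M * (1 + l)) * l ^ i * (Real.exp (-(l * (t₁ / 4))) * Real.exp (-(l * (t₁ / 4))) *
          Real.exp (-(l * (t₁ / 2)))) := by gcongr
    _ = M * ((1 + l) * Real.exp (-(l * (t₁ / 4)))) * (l ^ i * Real.exp (-(l * (t₁ / 4)))) *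
          Real.exp (-(l * (t₁ / 2))) := by ring
    _ ≤ M * (1 + 4 / t₁) * ((i.factorial : ℝ) * (4 / t₁) ^ i) *
          Real.exp (-(l * (t₁ / 2))) := by gcongr

theorem fr_summable {a : ℤ → ℝ} {M : ℝ} (hM : 0 ≤ M) (ha : ∀ k, |a k| ≤ M * (1 + lam L k))
    (i : ℕ) {t : ℝ} (ht : 0 < t) :
    Summable fun k : ℤ => a k * (-lam L k) ^ i * Real.exp (-(lam L k * t)) :=
  Summable.of_norm_bounded ((summ_exp hL (by positivity : 0 < t / 2)).mul_left _) fun k =>
    term_le hM (lam_nonneg L k) (ha k) ht le_rfl i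

theorem fr_jet {a : ℤ → ℝ} {M : ℝ} (hM : 0 ≤ M) (ha : ∀ k, |a k| ≤ M * (1 + lam L k)) :
    IsJet (fr L a) := by
  intro i t ht
  have ht₁ : 0 < t / 2 := by linarith
  refine hasDerivAt_tsum_of_isPreconnected
    (g := fun (k : ℤ) (t : ℝ) => a k * (-lam L k) ^ i * Real.exp (-(lam L k * t)))
    (g' := fun (k : ℤ) (t : ℝ) => a k * (-lam L k) ^ (i + 1) * Real.exp (-(lam L k * t)))
    (t := Ioi (t / 2)) (y₀ := t)
    ((summ_exp hL (by positivity : 0 < t / 2 / 2)).mul_left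
      (M * (1 + 4 / (t / 2)) * (((i + 1).factorial : ℝ) * (4 / (t / 2)) ^ (i + 1))))
    isOpen_Ioi isPreconnected_Ioi ?_ ?_ ?_ (fr_summable hL hM ha i ht) ?_
  · intro k s _
    have h1 : HasDerivAt (fun s : ℝ => -(lam L k * s)) (-(lam L k)) s := by
      have h := ((hasDerivAt_id s).const_mul (lam L k)).neg
      rw [mul_one] at h
      exact h
    have h2 := (h1.exp).const_mul (a k * (-lam L k) ^ i)
    have e : a k * (-lam L k) ^ (i + 1) * Real.exp (-(lam L k * s)) =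
        a k * (-lam L k) ^ i * (Real.exp (-(lam L k * s)) * -(lam L k)) := by
      rw [pow_succ]; ring
    rw [e]
    exact h2
  · intro k s hs
    exact term_le hM (lam_nonneg L k) (ha k) ht₁ (le_of_lt hs) (i + 1)
  · show t / 2 < t
    linarith
  · show t / 2 < t
    linarith

theorem fr_bd {a : ℤ → ℝ} {M : ℝ} (hM : 0 ≤ M) (ha : ∀ k, |a k| ≤ M * (1 + lam L k))
    {r : ℝ} (hr : 0 < r) : Bd r (fr L a) := by
  intro t₁ ht₁
  have hs := summ_exp hL (by positivity : 0 < t₁ / 2)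
  set S : ℝ := ∑' k : ℤ, Real.exp (-(lam L k * (t₁ / 2))) with hS
  have hS0 : 0 ≤ S := tsum_nonneg fun k => (Real.exp_pos _).le
  refine ⟨M * (1 + 4 / t₁) * Real.exp (4 / t₁ / r) * S, by positivity, fun i t ht => ?_⟩
  have h1 : |fr L a i t| ≤
      M * (1 + 4 / t₁) * ((i.factorial : ℝ) * (4 / t₁) ^ i) * S := by
    rw [fr, ← tsum_mul_left]
    rw [← Real.norm_eq_abs]
    exact tsum_of_norm_bounded (hs.mul_left _).hasSum fun k =>
      term_le hM (lam_nonneg L k) (ha k) ht₁ ht i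
  have h2 : (i.factorial : ℝ) * (4 / t₁) ^ i ≤
      Real.exp (4 / t₁ / r) * (r ^ i * ((2 * i).factorial : ℝ)) := by
    have h3 := Real.pow_div_factorial_le_exp (4 / t₁ / r) (by positivity) i
    rw [div_le_iff₀ (by positivity)] at h3
    have h4 : (4 / t₁) ^ i = (4 / t₁ / r) ^ i * r ^ i := by
      rw [← mul_pow]
      congr 1
      field_simp
    have h5 : (i.factorial : ℝ) * (i.factorial : ℝ) ≤ ((2 * i).factorial : ℝ) := by
      have h6 := Nat.factorial_mul_factorial_dvd_factorial_add i i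
      have h7 := Nat.le_of_dvd (Nat.factorial_pos _) h6
      rw [← two_mul] at h7
      exact_mod_cast h7
    rw [h4]
    calc (i.factorial : ℝ) * ((4 / t₁ / r) ^ i * r ^ i)
        ≤ (i.factorial : ℝ) * ((Real.exp (4 / t₁ / r) * (i.factorial : ℝ)) * r ^ i) := by gcongr
      _ = Real.exp (4 / t₁ / r) * (r ^ i * ((i.factorial : ℝ) * (i.factorial : ℝ))) := by ring
      _ ≤ _ := by gcongr
  calc |fr L a i t| ≤ M * (1 + 4 / t₁) * ((i.factorial : ℝ) * (4 / t₁) ^ i) * S := h1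
    _ ≤ M * (1 + 4 / t₁) *
          (Real.exp (4 / t₁ / r) * (r ^ i * ((2 * i).factorial : ℝ))) * S := by gcongr
    _ = _ := by ring

end

/-! ### the controlled jet -/

/-- The controlled jet: the free one times the cut-off. -/
noncomputable def cj (L T Y : ℝ) (a : ℤ → ℝ) : ℕ → ℝ → ℝ := mulJ (cutJ T (16 * Y ^ 2)) (fr L a)

section

variable {L T Y : ℝ} (hL : 0 < L) (hT : 0 < T) (hY : 0 < Y)

include hL hT hY

theorem cj_good {a : ℤ → ℝ} {M : ℝ} (hM : 0 ≤ M) (ha : ∀ k, |a k| ≤ M * (1 + lam L k)) :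
    Good Y (cj L T Y a) := by
  have hK : 0 < 16 * Y ^ 2 := by positivity
  refine ⟨IsJet.mul (cutJ_jet T _) (fr_jet hL hM ha), fun t₁ ht₁ => ?_⟩
  have h1 := Bd.mul (by positivity : 0 ≤ 4 * (16 * Y ^ 2)⁻¹) (cutJ_bd T _ hT hK)
    (fr_bd hL hM ha (by positivity : 0 < 4 * (16 * Y ^ 2)⁻¹))
  obtain ⟨C, hC, hb⟩ := h1 t₁ ht₁
  refine ⟨C, 2 * (4 * (16 * Y ^ 2)⁻¹), hC, by positivity, ?_, hb⟩
  have : 2 * (4 * (16 * Y ^ 2)⁻¹) * Y ^ 2 = 1 / 2 := by
    field_simp
    norm_num
  rw [this]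
  norm_num

omit hL hT in
theorem cj_left (a : ℤ → ℝ) (i : ℕ) {t : ℝ} (h0 : 0 < t) (ht : t ≤ T / 2) :
    cj L T Y a i t = fr L a i t := by
  have hK : 0 < 16 * Y ^ 2 := by positivity
  rw [cj, mulJ]
  rw [Finset.sum_eq_single (0, i)]
  · simp [cutJ_left T _ hK 0 h0 ht]
  · rintro ⟨p, q⟩ hp hne
    have hp' : p + q = i := Finset.HasAntidiagonal.mem_antidiagonal.1 hp
    have : p ≠ 0 := by
      rintro rfl
      apply hne
      simp only [zero_add] at hp'
      rw [hp']
    simp [cutJ_left T _ hK p h0 ht, this]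
  · intro h
    exact absurd (Finset.HasAntidiagonal.mem_antidiagonal.2 (by simp)) h

omit hL in
theorem cj_right (a : ℤ → ℝ) (i : ℕ) {t : ℝ} (ht : T ≤ t) : cj L T Y a i t = 0 := by
  have hK : 0 < 16 * Y ^ 2 := by positivity
  rw [cj, mulJ]
  refine Finset.sum_eq_zero fun p _ => ?_
  simp [cutJ_right T _ hT hK p.1 ht]

end

/-! ### the free flow as a trigonometric series -/

section

variable {L : ℝ} (hL : 0 < L)

include hL

/-- Summability of the double series. -/
theorem double_summable {a : ℤ → ℝ} {M : ℝ} (hM : 0 ≤ M) (ha : ∀ k, |a k| ≤ M * (1 + lam L k))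
    {t : ℝ} (ht : 0 < t) (y : ℝ) (g : ℝ → ℕ → ℝ)
    (hg : ∀ x : ℝ, 0 ≤ x → (∀ i, 0 ≤ g x i) ∧ Summable (g x) ∧ ∑' i, g x i ≤ Real.exp x) :
    Summable fun p : ℤ × ℕ =>
      |a p.1| * Real.exp (-(lam L p.1 * t)) * g (|om L p.1| * |y|) p.2 := by
  have hx : ∀ k : ℤ, 0 ≤ |om L k| * |y| := fun k => by positivity
  rw [summable_prod_of_nonneg]
  · refine ⟨fun k => (hg _ (hx k)).2.1.mul_left (|a k| * Real.exp (-(lam L k * t))), ?_⟩
    have h2 : Summable fun k : ℤ =>
        Real.exp (y ^ 2 / t) * |a k * (-lam L k) ^ 0 * Real.exp (-(lam L k * (t / 2)))| :=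
      ((fr_summable hL hM ha 0 (by positivity : 0 < t / 2)).abs).mul_left _
    refine Summable.of_nonneg_of_le (fun k => ?_) (fun k => ?_) h2
    · exact tsum_nonneg fun i => mul_nonneg (by positivity) ((hg _ (hx k)).1 i)
    · show ∑' i, |a k| * Real.exp (-(lam L k * t)) * g (|om L k| * |y|) i ≤ _
      rw [tsum_mul_left, pow_zero, mul_one, abs_mul, abs_of_pos (Real.exp_pos _)]
      have h3 : Real.exp (-(lam L k * t)) * Real.exp (|om L k| * |y|) ≤
          Real.exp (y ^ 2 / t) * Real.exp (-(lam L k * (t / 2))) := by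
        rw [← Real.exp_add, ← Real.exp_add]
        apply Real.exp_le_exp.2
        have h4 : lam L k = |om L k| ^ 2 := by rw [lam, sq_abs]
        rw [h4]
        have h5 : y ^ 2 = |y| ^ 2 := (sq_abs y).symm
        rw [h5]
        set o := |om L k|
        set z := |y|
        have h6 : 0 ≤ (o * t - z) ^ 2 / (2 * t) := by positivity
        have h7 : (o * t - z) ^ 2 / (2 * t) = o ^ 2 * t / 2 - o * z + z ^ 2 / (2 * t) := by
          field_simp
          ring
        have h8 : z ^ 2 / (2 * t) ≤ z ^ 2 / t := by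
          apply div_le_div_of_nonneg_left (by positivity) ht (by linarith)
        nlinarith
      calc |a k| * Real.exp (-(lam L k * t)) * ∑' i, g (|om L k| * |y|) i
          ≤ |a k| * Real.exp (-(lam L k * t)) * Real.exp (|om L k| * |y|) := by
            gcongr
            exact (hg _ (hx k)).2.2
        _ = |a k| * (Real.exp (-(lam L k * t)) * Real.exp (|om L k| * |y|)) := by ring
        _ ≤ |a k| * (Real.exp (y ^ 2 / t) * Real.exp (-(lam L k * (t / 2)))) := by gcongr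
        _ = _ := by ring
  · intro p
    exact mul_nonneg (by positivity) ((hg _ (hx p.1)).1 p.2)

theorem FE_fr {a : ℤ → ℝ} {M : ℝ} (hM : 0 ≤ M) (ha : ∀ k, |a k| ≤ M * (1 + lam L k))
    {t : ℝ} (ht : 0 < t) (y : ℝ) :
    FE (fr L a) t y = ∑' k : ℤ, a k * Real.exp (-(lam L k * t)) * Real.cos (om L k * y) := by
  have hs : Summable fun p : ℤ × ℕ => a p.1 * (-lam L p.1) ^ p.2 * Real.exp (-(lam L p.1 * t)) *
      (y ^ (2 * p.2) / ((2 * p.2).factorial : ℝ)) := by
    refine Summable.of_norm ((double_summable hL hM ha ht y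
      (fun x i => x ^ (2 * i) / ((2 * i).factorial : ℝ)) ?_).congr ?_)
    · intro x hx
      refine ⟨fun i => by positivity, (Real.hasSum_cosh x).summable, ?_⟩
      rw [(Real.hasSum_cosh x).tsum_eq, Real.cosh_eq]
      have : Real.exp (-x) ≤ Real.exp x := Real.exp_le_exp.2 (by linarith)
      linarith
    · rintro ⟨k, i⟩
      simp only [norm_mul, norm_div, norm_pow, Real.norm_eq_abs, abs_neg, Nat.abs_cast,
        abs_of_pos (Real.exp_pos _), abs_of_nonneg (lam_nonneg L k)]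
      rw [lam, mul_pow, pow_mul |om L k| 2 i, sq_abs]
      ring
  have h1 : FE (fr L a) t y = ∑' i : ℕ, ∑' k : ℤ, a k * (-lam L k) ^ i *
      Real.exp (-(lam L k * t)) * (y ^ (2 * i) / ((2 * i).factorial : ℝ)) := by
    unfold FE fr
    congr 1
    funext i
    rw [tsum_mul_right]
  rw [h1, ← Summable.tsum_comm (f := fun (i : ℕ) (k : ℤ) => a k * (-lam L k) ^ i *
      Real.exp (-(lam L k * t)) * (y ^ (2 * i) / ((2 * i).factorial : ℝ))) hs.prod_symm]
  congr 1
  funext k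
  have h2 := (Real.hasSum_cos (om L k * y)).mul_left (a k * Real.exp (-(lam L k * t)))
  rw [← h2.tsum_eq]
  congr 1
  funext i
  have e : (-lam L k) ^ i = (-1) ^ i * om L k ^ (2 * i) := by
    rw [lam, neg_pow, pow_mul]
  rw [e, mul_pow]
  ring

theorem FO_fr {b : ℤ → ℝ} {M : ℝ} (hM : 0 ≤ M)
    (ha : ∀ k, |b k * om L k| ≤ M * (1 + lam L k)) {t : ℝ} (ht : 0 < t) (y : ℝ) :
    FO (fr L fun k => b k * om L k) t y =
      ∑' k : ℤ, b k * Real.exp (-(lam L k * t)) * Real.sin (om L k * y) := by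
  have hs : Summable fun p : ℤ × ℕ => (b p.1 * om L p.1) * (-lam L p.1) ^ p.2 *
      Real.exp (-(lam L p.1 * t)) * (y ^ (2 * p.2 + 1) / ((2 * p.2 + 1).factorial : ℝ)) := by
    refine Summable.of_norm (((double_summable hL hM ha ht y
      (fun x i => x ^ (2 * i) / ((2 * i).factorial : ℝ)) ?_).mul_right |y|).of_nonneg_of_le ?_ ?_)
    · intro x hx
      refine ⟨fun i => by positivity, (Real.hasSum_cosh x).summable, ?_⟩
      rw [(Real.hasSum_cosh x).tsum_eq, Real.cosh_eq]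
      have : Real.exp (-x) ≤ Real.exp x := Real.exp_le_exp.2 (by linarith)
      linarith
    · intro p
      exact norm_nonneg _
    · rintro ⟨k, i⟩
      simp only [norm_mul, norm_div, norm_pow, Real.norm_eq_abs, abs_neg, Nat.abs_cast,
        abs_of_pos (Real.exp_pos _), abs_of_nonneg (lam_nonneg L k), abs_mul]
      have hff : ((2 * i).factorial : ℝ) ≤ ((2 * i + 1).factorial : ℝ) := by
        exact_mod_cast Nat.factorial_le (by omega)
      have e : |b k| * |om L k| * Real.exp (-(lam L k * t)) *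
          ((|om L k| * |y|) ^ (2 * i) / ((2 * i).factorial : ℝ)) * |y| =
          |b k| * |om L k| * lam L k ^ i * Real.exp (-(lam L k * t)) *
            (|y| ^ (2 * i + 1) / ((2 * i).factorial : ℝ)) := by
        rw [lam, mul_pow, pow_mul |om L k| 2 i, sq_abs]
        ring
      rw [e]
      have h0 := lam_nonneg L k
      gcongr
  have h1 : FO (fr L fun k => b k * om L k) t y =
      ∑' i : ℕ, ∑' k : ℤ, (b k * om L k) * (-lam L k) ^ i *
      Real.exp (-(lam L k * t)) * (y ^ (2 * i + 1) / ((2 * i + 1).factorial : ℝ)) := by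
    unfold FO fr
    congr 1
    funext i
    rw [tsum_mul_right]
  rw [h1, ← Summable.tsum_comm (f := fun (i : ℕ) (k : ℤ) => (b k * om L k) * (-lam L k) ^ i *
      Real.exp (-(lam L k * t)) * (y ^ (2 * i + 1) / ((2 * i + 1).factorial : ℝ))) hs.prod_symm]
  congr 1
  funext k
  have h2 := (Real.hasSum_sin (om L k * y)).mul_left (b k * Real.exp (-(lam L k * t)))
  rw [← h2.tsum_eq]
  congr 1
  funext i
  have e : (-lam L k) ^ i = (-1) ^ i * om L k ^ (2 * i) := by
    rw [lam, neg_pow, pow_mul]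
  rw [e, mul_pow]
  ring

end

end Pool.Agent.Q61.NC
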