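import Pool.Agent.Q61.NC.Defs

/-!
# Flows stopped in finite time, in a general region
-/

set_option autoImplicit false

open Set Filter Topology MeasureTheory
open scoped ENNReal ContDiff

namespace Pool.Agent.Q61.NC

/-- `(u, p)` is, for positive times, a smooth solution of the Navier-Stokes equations with unit
viscosity on (a neighbourhood of) the region `G`. It vanishes on the wall `W`, starts at `U₀`, has
finite energy on each bounded part of the region, and is at rest from time `T` on. -/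
structure StopsIn {d : ℕ} (G W : Set (Sp d)) (T : ℝ) (U₀ : Sp d → Sp d)
    (u : ℝ → Sp d → Sp d) (p : ℝ → Sp d → ℝ) : Prop where
  smooth : ∃ N : Set (Sp d), IsOpen N ∧ G ⊆ N ∧
    ContDiffOn ℝ ∞ (fun z : ℝ × Sp d => u z.1 z.2) (Ioi 0 ×ˢ N) ∧
    ContDiffOn ℝ ∞ (fun z : ℝ × Sp d => p z.1 z.2) (Ioi 0 ×ˢ N)
  momentum : ∀ t, 0 < t → ∀ x ∈ G, ∀ m,
    deriv (fun s => u s x m) t + ∑ i, u t x i * pd i (fun y => u t y m) x
      - ∑ i, pd i (pd i fun y => u t y m) x + pd m (p t) x = 0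
  divfree : ∀ t, 0 < t → ∀ x ∈ G, ∑ i, pd i (fun y => u t y i) x = 0
  wall : ∀ t, 0 < t → ∀ x ∈ W, u t x = 0
  rest : ∀ t, T ≤ t → ∀ x ∈ G, u t x = 0
  initial : ∀ Ω ⊆ G, MeasurableSet Ω → Bornology.IsBounded Ω →
    Tendsto (fun t => ∫⁻ x in Ω, ‖u t x - U₀ x‖ₑ ^ 2) (𝓝[>] 0) (𝓝 0)
  energy : ∀ Ω ⊆ G, MeasurableSet Ω → Bornology.IsBounded Ω →
    ∫⁻ t in Ioi (0 : ℝ), ∫⁻ x in Ω, ∑ i, ∑ m, ‖pd i (fun y => u t y m) x‖ₑ ^ 2 < ⊤

/-- The part of the slab `|x j| ≤ a` where `|x l| ≤ b`. -/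
def plates {d : ℕ} (j l : Fin d) (a b : ℝ) : Set (Sp d) := {x | |x j| ≤ a ∧ |x l| ≤ b}

/-- The two walls. -/
def twoWalls {d : ℕ} (j l : Fin d) (a b : ℝ) : Set (Sp d) := {x | |x j| = a ∧ |x l| ≤ b}

end Pool.Agent.Q61.NC
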