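import Mathlib

/-!
# Jets on the half line with bounds of Gevrey order two, and a cut-off function
-/

set_option autoImplicit false

open Set Filter Topology Finset

namespace Pool.Agent.Q61.NC

/-- `Z i` is the `i`-th derivative of `Z 0` on `(0, ∞)`. -/
def IsJet (Z : ℕ → ℝ → ℝ) : Prop := ∀ i t, 0 < t → HasDerivAt (Z i) (Z (i + 1) t) t

/-- Bounds of Gevrey order two, of size `r`, for `t ≥ t₁`. -/
def Bd (r : ℝ) (Z : ℕ → ℝ → ℝ) : Prop :=
  ∀ t₁ : ℝ, 0 < t₁ → ∃ C : ℝ, 0 ≤ C ∧ ∀ (i : ℕ) (t : ℝ), t₁ ≤ t →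
    |Z i t| ≤ C * r ^ i * ((2 * i).factorial : ℝ)

/-- Product of jets. -/
noncomputable def mulJ (A B : ℕ → ℝ → ℝ) : ℕ → ℝ → ℝ := fun i t =>
  ∑ p ∈ antidiagonal i, (i.choose p.1 : ℝ) * (A p.1 t * B p.2 t)

theorem IsJet.mul {A B : ℕ → ℝ → ℝ} (hA : IsJet A) (hB : IsJet B) : IsJet (mulJ A B) := by
  intro i t ht
  have h1 : HasDerivAt (mulJ A B i)
      (∑ p ∈ antidiagonal i, (i.choose p.1 : ℝ) *
        (A (p.1 + 1) t * B p.2 t + A p.1 t * B (p.2 + 1) t)) t := by
    have := HasDerivAt.fun_sum (u := antidiagonal i)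
      (A := fun (p : ℕ × ℕ) (t : ℝ) => (i.choose p.1 : ℝ) * (A p.1 t * B p.2 t))
      (A' := fun p => (i.choose p.1 : ℝ) * (A (p.1 + 1) t * B p.2 t + A p.1 t * B (p.2 + 1) t))
      (x := t) (fun p _ => ((hA p.1 t ht).mul (hB p.2 t ht)).const_mul _)
    exact this
  convert h1 using 1
  have h2 := Finset.sum_antidiagonal_choose_succ_mul (fun a b => A a t * B b t) i
  rw [mulJ, h2, ← Finset.sum_add_distrib]
  refine Finset.sum_congr rfl fun p hp => ?_
  have hp' : p.1 + p.2 = i := Finset.HasAntidiagonal.mem_antidiagonal.1 hp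
  have h3 : (i.choose p.2 : ℝ) = i.choose p.1 := by
    have : i.choose p.2 = i.choose p.1 := by
      rw [← hp']
      exact (Nat.choose_symm_add).symm
    exact_mod_cast this
  rw [h3]
  ring

theorem choose_mul_fact (i j k : ℕ) (h : j + k = i) :
    (i.choose j : ℝ) * (((2 * j).factorial : ℝ) * ((2 * k).factorial : ℝ)) ≤
      ((2 * i).factorial : ℝ) := by
  have h1 : i.choose j ≤ (2 * i).choose (2 * j) := by
    have h2 := Nat.add_choose_eq i i (j + j)
    have h3 : i.choose j * i.choose j ≤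
        ∑ ij ∈ antidiagonal (j + j), i.choose ij.1 * i.choose ij.2 :=
      Finset.single_le_sum (f := fun ij : ℕ × ℕ => i.choose ij.1 * i.choose ij.2)
        (fun _ _ => Nat.zero_le _) (Finset.HasAntidiagonal.mem_antidiagonal.2 rfl : (j, j) ∈ antidiagonal (j + j))
    have h4 : i.choose j ≤ i.choose j * i.choose j := Nat.le_mul_self _
    calc i.choose j ≤ i.choose j * i.choose j := h4
      _ ≤ (i + i).choose (j + j) := by rw [h2]; exact h3
      _ = (2 * i).choose (2 * j) := by rw [two_mul, two_mul]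
  have h5 : (2 * i).choose (2 * j) * (2 * j).factorial * (2 * k).factorial =
      (2 * i).factorial := by
    have h6 : 2 * j ≤ 2 * i := by omega
    have h7 := Nat.choose_mul_factorial_mul_factorial h6
    have h8 : 2 * i - 2 * j = 2 * k := by omega
    rw [h8] at h7
    exact h7
  have h9 : i.choose j * ((2 * j).factorial * (2 * k).factorial) ≤ (2 * i).factorial := by
    rw [← h5, mul_assoc]
    exact Nat.mul_le_mul_right _ h1
  exact_mod_cast h9

theorem Bd.mul {A B : ℕ → ℝ → ℝ} {r : ℝ} (hr : 0 ≤ r) (hA : Bd r A) (hB : Bd r B) :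
    Bd (2 * r) (mulJ A B) := by
  intro t₁ ht₁
  obtain ⟨C, hC, h1⟩ := hA t₁ ht₁
  obtain ⟨D, hD, h2⟩ := hB t₁ ht₁
  refine ⟨C * D, by positivity, fun i t ht => ?_⟩
  calc |mulJ A B i t| ≤ ∑ p ∈ antidiagonal i, |(i.choose p.1 : ℝ) * (A p.1 t * B p.2 t)| :=
        Finset.abs_sum_le_sum_abs _ _
    _ ≤ ∑ p ∈ antidiagonal i, C * D * r ^ i * ((2 * i).factorial : ℝ) := by
        refine Finset.sum_le_sum fun p hp => ?_
        have hp' : p.1 + p.2 = i := Finset.HasAntidiagonal.mem_antidiagonal.1 hp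
        rw [abs_mul, abs_mul, Nat.abs_cast]
        calc (i.choose p.1 : ℝ) * (|A p.1 t| * |B p.2 t|)
            ≤ (i.choose p.1 : ℝ) * ((C * r ^ p.1 * ((2 * p.1).factorial : ℝ)) *
                (D * r ^ p.2 * ((2 * p.2).factorial : ℝ))) := by
              gcongr
              · exact h1 _ _ ht
              · exact h2 _ _ ht
          _ = C * D * r ^ (p.1 + p.2) * ((i.choose p.1 : ℝ) *
                (((2 * p.1).factorial : ℝ) * ((2 * p.2).factorial : ℝ))) := by
              rw [pow_add]; ring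
          _ ≤ C * D * r ^ (p.1 + p.2) * ((2 * i).factorial : ℝ) := by
              gcongr
              exact choose_mul_fact i _ _ hp'
          _ = _ := by rw [hp']
    _ = (i + 1 : ℝ) * (C * D * r ^ i * ((2 * i).factorial : ℝ)) := by
        rw [Finset.sum_const, Finset.Nat.card_antidiagonal, nsmul_eq_mul]
        push_cast
        ring
    _ ≤ 2 ^ i * (C * D * r ^ i * ((2 * i).factorial : ℝ)) := by
        gcongr
        have : i + 1 ≤ 2 ^ i := Nat.lt_two_pow_self
        exact_mod_cast this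
    _ = C * D * (2 * r) ^ i * ((2 * i).factorial : ℝ) := by
        rw [mul_pow]; ring

/-! ### the function `exp (-1/x)` -/

/-- `x⁻ᵐ exp (-1/x)` for `x > 0`, and `0` for `x ≤ 0`. -/
noncomputable def hm (m : ℕ) (x : ℝ) : ℝ := (x⁻¹) ^ m * expNegInvGlue x

/-- The derivatives of `hm m`. -/
noncomputable def Hm : ℕ → ℕ → ℝ → ℝ
  | 0, m => hm m
  | i + 1, m => fun x => Hm i (m + 2) x - (m : ℝ) * Hm i (m + 1) x

theorem hm_deriv (m : ℕ) (x : ℝ) :
    HasDerivAt (hm m) (hm (m + 2) x - (m : ℝ) * hm (m + 1) x) x := by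
  have h := expNegInvGlue.hasDerivAt_polynomial_eval_inv_mul (Polynomial.X ^ m) x
  have h1 : (fun x : ℝ => Polynomial.eval x⁻¹ (Polynomial.X ^ m) * expNegInvGlue x) = hm m := by
    funext y
    simp [hm]
  rw [h1] at h
  convert h using 1
  rcases m with _ | m
  · simp [hm]
  · simp only [hm, Polynomial.derivative_X_pow, Polynomial.eval_mul, Polynomial.eval_sub,
      Polynomial.eval_pow, Polynomial.eval_X, Polynomial.eval_C]
    simp
    ring

theorem Hm_deriv (i : ℕ) : ∀ (m : ℕ) (x : ℝ), HasDerivAt (Hm i m) (Hm (i + 1) m x) x := by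
  induction i with
  | zero => intro m x; exact hm_deriv m x
  | succ i ih =>
    intro m x
    exact (ih (m + 2) x).sub ((ih (m + 1) x).const_mul (m : ℝ))

theorem hm_bound (m : ℕ) (x : ℝ) : |hm m x| ≤ (m.factorial : ℝ) := by
  rcases le_or_gt x 0 with hx | hx
  · rw [hm, expNegInvGlue.zero_of_nonpos hx]
    simp
  · have h1 : expNegInvGlue x = Real.exp (-x⁻¹) := by
      simp [expNegInvGlue, not_le.2 hx]
    have hx' : 0 < x⁻¹ := by positivity
    rw [hm, h1, abs_of_nonneg (by positivity), Real.exp_neg]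
    have h2 := Real.pow_div_factorial_le_exp x⁻¹ hx'.le m
    have h3 : 0 < Real.exp x⁻¹ := Real.exp_pos _
    rw [div_le_iff₀ (by positivity)] at h2
    rw [← div_eq_mul_inv, div_le_iff₀ h3]
    linarith

theorem Hm_bound (i : ℕ) : ∀ (m : ℕ) (x : ℝ),
    |Hm i m x| ≤ 2 ^ i * ((m + 2 * i).factorial : ℝ) := by
  induction i with
  | zero => intro m x; simpa [Hm] using hm_bound m x
  | succ i ih =>
    intro m x
    have h1 := ih (m + 2) x
    have h2 := ih (m + 1) x
    have e1 : m + 2 + 2 * i = m + 2 * (i + 1) := by ring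
    have e2 : m + 2 * (i + 1) = (m + 1 + 2 * i) + 1 := by ring
    rw [e1] at h1
    have h3 : (m : ℝ) * ((m + 1 + 2 * i).factorial : ℝ) ≤ ((m + 2 * (i + 1)).factorial : ℝ) := by
      rw [e2, Nat.factorial_succ]
      push_cast
      gcongr
      have : (0 : ℝ) ≤ 2 * i := by positivity
      linarith
    calc |Hm (i + 1) m x| = |Hm i (m + 2) x - (m : ℝ) * Hm i (m + 1) x| := rfl
      _ ≤ |Hm i (m + 2) x| + |(m : ℝ) * Hm i (m + 1) x| := abs_sub _ _
      _ = |Hm i (m + 2) x| + m * |Hm i (m + 1) x| := by rw [abs_mul, Nat.abs_cast]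
      _ ≤ 2 ^ i * ((m + 2 * (i + 1)).factorial : ℝ) +
          m * (2 ^ i * ((m + 1 + 2 * i).factorial : ℝ)) := by gcongr
      _ = 2 ^ i * ((m + 2 * (i + 1)).factorial : ℝ) +
          2 ^ i * (m * ((m + 1 + 2 * i).factorial : ℝ)) := by ring
      _ ≤ 2 ^ i * ((m + 2 * (i + 1)).factorial : ℝ) +
          2 ^ i * ((m + 2 * (i + 1)).factorial : ℝ) := by gcongr
      _ = _ := by ring

/-- The derivatives of `exp (-1/x)`. -/
noncomputable def eJ (i : ℕ) (x : ℝ) : ℝ := Hm i 0 x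

theorem eJ_deriv (i : ℕ) (x : ℝ) : HasDerivAt (eJ i) (eJ (i + 1) x) x := Hm_deriv i 0 x

theorem eJ_bound (i : ℕ) (x : ℝ) : |eJ i x| ≤ 2 ^ i * ((2 * i).factorial : ℝ) := by
  have h := Hm_bound i 0 x
  rw [zero_add] at h
  exact h

theorem Hm_zero (i : ℕ) : ∀ (m : ℕ) {x : ℝ}, x ≤ 0 → Hm i m x = 0 := by
  induction i with
  | zero => intro m x hx; simp [Hm, hm, expNegInvGlue.zero_of_nonpos hx]
  | succ i ih => intro m x hx; simp [Hm, ih (m + 2) hx, ih (m + 1) hx]

theorem eJ_zero (i : ℕ) {x : ℝ} (hx : x ≤ 0) : eJ i x = 0 := Hm_zero i 0 hx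

theorem eJ_nonneg (x : ℝ) : 0 ≤ eJ 0 x := by
  simp [eJ, Hm, hm, expNegInvGlue.nonneg]

theorem eJ_pos {x : ℝ} (hx : 0 < x) : 0 < eJ 0 x := by
  simpa [eJ, Hm, hm] using expNegInvGlue.pos_of_pos hx

/-! ### the bump and the cut-off -/

section Cut

variable (T K : ℝ)

/-- The jet of the bump supported in `[T/2, T]`. -/
noncomputable def w1 : ℕ → ℝ → ℝ := fun i t => (K⁻¹) ^ i * eJ i ((t - T / 2) / K)

/-- The jet of the second factor. -/
noncomputable def w2 : ℕ → ℝ → ℝ := fun i t => (-K⁻¹) ^ i * eJ i ((T - t) / K)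

/-- The jet of the bump. -/
noncomputable def wJ : ℕ → ℝ → ℝ := mulJ (w1 T K) (w2 T K)

theorem w1_deriv (i : ℕ) (t : ℝ) : HasDerivAt (w1 T K i) (w1 T K (i + 1) t) t := by
  have h1 : HasDerivAt (fun t : ℝ => (t - T / 2) / K) (K⁻¹) t := by
    simpa using ((hasDerivAt_id t).sub_const (T / 2)).div_const K
  have h2 := ((eJ_deriv i ((t - T / 2) / K)).comp t h1).const_mul ((K⁻¹) ^ i)
  have e : w1 T K (i + 1) t = K⁻¹ ^ i * (eJ (i + 1) ((t - T / 2) / K) * K⁻¹) := by
    rw [w1, pow_succ]; ring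
  rw [e]
  exact h2

theorem w2_deriv (i : ℕ) (t : ℝ) : HasDerivAt (w2 T K i) (w2 T K (i + 1) t) t := by
  have h1 : HasDerivAt (fun t : ℝ => (T - t) / K) (-K⁻¹) t := by
    simpa [neg_div] using ((hasDerivAt_id t).const_sub T).div_const K
  have h2 := ((eJ_deriv i ((T - t) / K)).comp t h1).const_mul ((-K⁻¹) ^ i)
  have e : w2 T K (i + 1) t = (-K⁻¹) ^ i * (eJ (i + 1) ((T - t) / K) * -K⁻¹) := by
    rw [w2, pow_succ]; ring
  rw [e]
  exact h2

theorem wJ_jet : IsJet (wJ T K) :=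
  IsJet.mul (fun i t _ => w1_deriv T K i t) (fun i t _ => w2_deriv T K i t)

theorem wJ_bd (hK : 0 < K) : Bd (4 * K⁻¹) (wJ T K) := by
  have hK' : (0 : ℝ) ≤ 2 * K⁻¹ := by positivity
  have h1 : Bd (2 * K⁻¹) (w1 T K) := by
    intro t₁ _
    refine ⟨1, zero_le_one, fun i t _ => ?_⟩
    rw [w1, abs_mul, abs_pow, abs_of_pos (by positivity : 0 < K⁻¹), mul_pow]
    calc (K⁻¹) ^ i * |eJ i ((t - T / 2) / K)| ≤ (K⁻¹) ^ i * (2 ^ i * ((2 * i).factorial : ℝ)) := by
          gcongr
          exact eJ_bound _ _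
      _ = _ := by ring
  have h2 : Bd (2 * K⁻¹) (w2 T K) := by
    intro t₁ _
    refine ⟨1, zero_le_one, fun i t _ => ?_⟩
    rw [w2, abs_mul, abs_pow, abs_neg, abs_of_pos (by positivity : 0 < K⁻¹), mul_pow]
    calc (K⁻¹) ^ i * |eJ i ((T - t) / K)| ≤ (K⁻¹) ^ i * (2 ^ i * ((2 * i).factorial : ℝ)) := by
          gcongr
          exact eJ_bound _ _
      _ = _ := by ring
  have h3 := h1.mul hK' h2
  have e : 2 * (2 * K⁻¹) = 4 * K⁻¹ := by ring
  rwa [e] at h3

theorem wJ_zero_left (hK : 0 < K) (i : ℕ) {t : ℝ} (ht : t ≤ T / 2) : wJ T K i t = 0 := by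
  rw [wJ, mulJ]
  refine Finset.sum_eq_zero fun p _ => ?_
  have : (t - T / 2) / K ≤ 0 := div_nonpos_of_nonpos_of_nonneg (by linarith) hK.le
  simp [w1, eJ_zero _ this]

theorem wJ_zero_right (hK : 0 < K) (i : ℕ) {t : ℝ} (ht : T ≤ t) : wJ T K i t = 0 := by
  rw [wJ, mulJ]
  refine Finset.sum_eq_zero fun p _ => ?_
  have : (T - t) / K ≤ 0 := div_nonpos_of_nonpos_of_nonneg (by linarith) hK.le
  simp [w2, eJ_zero _ this]

theorem wJ0 (t : ℝ) : wJ T K 0 t = eJ 0 ((t - T / 2) / K) * eJ 0 ((T - t) / K) := by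
  simp [wJ, mulJ, w1, w2]

theorem wJ0_nonneg (t : ℝ) : 0 ≤ wJ T K 0 t := by
  rw [wJ0]
  exact mul_nonneg (eJ_nonneg _) (eJ_nonneg _)

theorem wJ0_cont : Continuous (wJ T K 0) := by
  have h1 : Continuous (w1 T K 0) :=
    continuous_iff_continuousAt.2 fun t => (w1_deriv T K 0 t).continuousAt
  have h2 : Continuous (w2 T K 0) :=
    continuous_iff_continuousAt.2 fun t => (w2_deriv T K 0 t).continuousAt
  have : wJ T K 0 = fun t => w1 T K 0 t * w2 T K 0 t := by
    funext t
    simp [wJ, mulJ]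
  rw [this]
  exact h1.mul h2

/-- The mass of the bump. -/
noncomputable def mass : ℝ := ∫ s in (0 : ℝ)..T, wJ T K 0 s

theorem mass_pos (hT : 0 < T) (hK : 0 < K) : 0 < mass T K := by
  have hc := wJ0_cont T K
  refine intervalIntegral.integral_pos hT hc.continuousOn (fun x _ => wJ0_nonneg T K x)
    ⟨3 * T / 4, ⟨by linarith, by linarith⟩, ?_⟩
  rw [wJ0]
  exact mul_pos (eJ_pos (div_pos (by linarith) hK)) (eJ_pos (div_pos (by linarith) hK))

/-- The jet of the cut-off: `1` on `(0, T/2]`, `0` on `[T, ∞)`. -/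
noncomputable def cutJ : ℕ → ℝ → ℝ
  | 0 => fun t => 1 - (∫ s in (0 : ℝ)..t, wJ T K 0 s) / mass T K
  | i + 1 => fun t => - wJ T K i t / mass T K

theorem cutJ_jet : IsJet (cutJ T K) := by
  intro i t ht
  rcases i with _ | i
  · have h1 : HasDerivAt (fun t => ∫ s in (0 : ℝ)..t, wJ T K 0 s) (wJ T K 0 t) t :=
      intervalIntegral.integral_hasDerivAt_right
        ((wJ0_cont T K).intervalIntegrable _ _)
        ((wJ0_cont T K).stronglyMeasurableAtFilter _ _) (wJ0_cont T K).continuousAt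
    have h2 := (h1.div_const (mass T K)).const_sub 1
    have e : cutJ T K (0 + 1) t = -(wJ T K 0 t / mass T K) := by
      show -wJ T K 0 t / mass T K = _
      ring
    rw [e]
    exact h2
  · have h1 := (wJ_jet T K i t ht).neg.div_const (mass T K)
    exact h1

theorem cutJ_left (hK : 0 < K) (i : ℕ) {t : ℝ} (h0 : 0 < t) (ht : t ≤ T / 2) :
    cutJ T K i t = if i = 0 then 1 else 0 := by
  rcases i with _ | i
  · have h1 : ∫ s in (0 : ℝ)..t, wJ T K 0 s = 0 := by
      have : EqOn (wJ T K 0) (fun _ => 0) (uIcc 0 t) := by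
        intro s hs
        rw [uIcc_of_le h0.le] at hs
        exact wJ_zero_left T K hK 0 (hs.2.trans ht)
      rw [intervalIntegral.integral_congr this]
      simp
    simp [cutJ, h1]
  · simp [cutJ, wJ_zero_left T K hK i ht]

theorem cutJ_right (hT : 0 < T) (hK : 0 < K) (i : ℕ) {t : ℝ} (ht : T ≤ t) :
    cutJ T K i t = 0 := by
  rcases i with _ | i
  · have hc := wJ0_cont T K
    have h1 : ∫ s in (0 : ℝ)..t, wJ T K 0 s = mass T K := by
      rw [mass, ← intervalIntegral.integral_add_adjacent_intervals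
        (hc.intervalIntegrable 0 T) (hc.intervalIntegrable T t)]
      have : EqOn (wJ T K 0) (fun _ => 0) (uIcc T t) := by
        intro s hs
        rw [uIcc_of_le ht] at hs
        exact wJ_zero_right T K hK 0 hs.1
      rw [intervalIntegral.integral_congr this]
      simp
    have h2 := (mass_pos T K hT hK).ne'
    simp only [cutJ, h1]
    field_simp
    ring
  · simp [cutJ, wJ_zero_right T K hK i ht]

theorem cutJ_bd (hT : 0 < T) (hK : 0 < K) : Bd (4 * K⁻¹) (cutJ T K) := by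
  intro t₁ ht₁
  obtain ⟨C, hC, h⟩ := wJ_bd T K hK t₁ ht₁
  have hm := mass_pos T K hT hK
  have hr : 0 < 4 * K⁻¹ := by positivity
  refine ⟨max 1 (C / mass T K / (4 * K⁻¹)), le_max_of_le_left zero_le_one, fun i t ht => ?_⟩
  rcases i with _ | i
  · have h1 : |cutJ T K 0 t| ≤ 1 := by
      have hc := wJ0_cont T K
      have h0t : 0 ≤ t := (ht₁.le.trans ht)
      have h2 : 0 ≤ ∫ s in (0 : ℝ)..t, wJ T K 0 s :=
        intervalIntegral.integral_nonneg h0t fun s _ => wJ0_nonneg T K s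
      have h3 : ∫ s in (0 : ℝ)..t, wJ T K 0 s ≤ mass T K := by
        rcases le_or_gt t T with htT | htT
        · rw [mass]
          refine intervalIntegral.integral_mono_interval le_rfl h0t htT ?_
            (hc.intervalIntegrable _ _)
          exact Eventually.of_forall fun s => wJ0_nonneg T K s
        · have h4 := cutJ_right T K hT hK 0 htT.le
          simp only [cutJ] at h4
          have h5 : (∫ s in (0 : ℝ)..t, wJ T K 0 s) / mass T K = 1 := by linarith
          rw [div_eq_one_iff_eq hm.ne'] at h5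
          exact h5.le
      simp only [cutJ]
      have h6 : 0 ≤ (∫ s in (0 : ℝ)..t, wJ T K 0 s) / mass T K := by positivity
      have h7 : (∫ s in (0 : ℝ)..t, wJ T K 0 s) / mass T K ≤ 1 := by
        rw [div_le_one hm]; exact h3
      rw [abs_le]
      constructor <;> linarith
    simpa using h1.trans (le_max_left _ _)
  · have h1 := h i t ht
    have h2 : |cutJ T K (i + 1) t| = |wJ T K i t| / mass T K := by
      simp only [cutJ, abs_div, abs_neg, abs_of_pos hm]
    rw [h2]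
    calc |wJ T K i t| / mass T K ≤ C * (4 * K⁻¹) ^ i * ((2 * i).factorial : ℝ) / mass T K := by
          gcongr
      _ = (C / mass T K / (4 * K⁻¹)) * (4 * K⁻¹) ^ (i + 1) * ((2 * i).factorial : ℝ) := by
          rw [pow_succ]; field_simp
      _ ≤ (max 1 (C / mass T K / (4 * K⁻¹))) * (4 * K⁻¹) ^ (i + 1) *
            ((2 * (i + 1)).factorial : ℝ) := by
          have h5 : ((2 * i).factorial : ℝ) ≤ ((2 * (i + 1)).factorial : ℝ) := by
            exact_mod_cast Nat.factorial_le (by omega)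
          have h6 := le_max_right 1 (C / mass T K / (4 * K⁻¹))
          gcongr

end Cut

end Pool.Agent.Q61.NC
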