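import Pool.Agent.Q61.NC.Free

/-!
# Square integrable data: convergence at time zero and the energy bound on the circle
-/

set_option autoImplicit false

open Set Filter Topology MeasureTheory AddCircle
open scoped ENNReal

namespace Pool.Agent.Q61.NC

section

variable {L : ℝ} [hL : Fact (0 < L)]

theorem coeff_of_hasSum {d : ℤ → ℂ} {D : Lp ℂ 2 (@haarAddCircle L hL)}
    (h : HasSum (fun k => d k • fourierLp (T := L) 2 k) D) (k : ℤ) : fourierCoeff D k = d k := by
  rw [← fourierBasis_repr, HilbertBasis.repr_apply_apply, coe_fourierBasis]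
  have h1 := (innerSL ℂ (fourierLp (T := L) 2 k)).hasSum h
  have h2 : HasSum (fun j => (innerSL ℂ (fourierLp (T := L) 2 k)) (d j • fourierLp (T := L) 2 j))
      (d k) := by
    have h3 := hasSum_single (f := fun j => (innerSL ℂ (fourierLp (T := L) 2 k))
      (d j • fourierLp (T := L) 2 j)) k (fun j hj => by
        simp only [innerSL_apply_apply]
        rw [inner_smul_right, orthonormal_fourier.2 hj.symm, mul_zero])
    have e : (innerSL ℂ (fourierLp (T := L) 2 k)) (d k • fourierLp (T := L) 2 k) = d k := by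
      simp only [innerSL_apply_apply]
      rw [inner_smul_right, inner_self_eq_norm_sq_to_K, orthonormal_fourier.1 k]
      simp
    rw [e] at h3
    exact h3
  exact h1.unique h2

theorem lintegral_sq (D : Lp ℂ 2 (@haarAddCircle L hL)) :
    ∫⁻ x, ‖D x‖ₑ ^ 2 ∂(@haarAddCircle L hL) =
      ENNReal.ofReal (∫ x, ‖D x‖ ^ 2 ∂(@haarAddCircle L hL)) := by
  have hi : Integrable (fun x => ‖D x‖ ^ 2) (@haarAddCircle L hL) :=
    (memLp_two_iff_integrable_sq_norm (Lp.aestronglyMeasurable D)).1 (Lp.memLp D)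
  rw [ofReal_integral_eq_lintegral_ofReal hi (Eventually.of_forall fun x => by positivity)]
  congr 1
  funext x
  rw [ENNReal.ofReal_pow (norm_nonneg _), ofReal_norm]

theorem parseval {d : ℤ → ℂ} {D : Lp ℂ 2 (@haarAddCircle L hL)}
    (h : HasSum (fun k => d k • fourierLp (T := L) 2 k) D) :
    ∫⁻ x, ‖D x‖ₑ ^ 2 ∂(@haarAddCircle L hL) = ENNReal.ofReal (∑' k, ‖d k‖ ^ 2) := by
  rw [lintegral_sq, ← tsum_sq_fourierCoeff]
  simp_rw [coeff_of_hasSum h]

/-- The continuous function with summable Fourier coefficients `d`. -/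
noncomputable def SC (L : ℝ) (d : ℤ → ℂ) : C(AddCircle L, ℂ) := ∑' k, d k • fourier k

theorem SC_hasSum {d : ℤ → ℂ} (hd : Summable fun k => ‖d k‖) :
    HasSum (fun k => d k • (fourier k : C(AddCircle L, ℂ))) (SC L d) := by
  have : Summable fun k => d k • (fourier k : C(AddCircle L, ℂ)) := by
    refine Summable.of_norm (hd.congr fun k => ?_)
    rw [norm_smul, fourier_norm, mul_one]
  exact this.hasSum

theorem SC_hasSum_Lp {d : ℤ → ℂ} (hd : Summable fun k => ‖d k‖) :
    HasSum (fun k => d k • fourierLp (T := L) 2 k)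
      (ContinuousMap.toLp (E := ℂ) 2 haarAddCircle ℂ (SC L d)) := by
  have h := (ContinuousMap.toLp (E := ℂ) 2 (@haarAddCircle L hL) ℂ).hasSum (SC_hasSum (L := L) hd)
  refine h.congr_fun ?_
  intro k
  rw [map_smul]

theorem SC_re {d : ℤ → ℂ} (hd : Summable fun k => ‖d k‖) (y : ℝ) :
    HasSum (fun k => (d k).re * Real.cos (om L k * y) - (d k).im * Real.sin (om L k * y))
      (SC L d (y : AddCircle L)).re := by
  have h1 := (ContinuousMap.evalCLM ℂ (y : AddCircle L)).hasSum (SC_hasSum (L := L) hd)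
  have h2 := Complex.reCLM.hasSum h1
  refine h2.congr_fun ?_
  intro k
  simp only [Function.comp, ContinuousMap.evalCLM_apply, ContinuousMap.smul_apply,
    smul_eq_mul, Complex.reCLM_apply]
  rw [fourier_coe_apply]
  have e : (2 * Real.pi * Complex.I * k * y / L : ℂ) = ((om L k * y : ℝ) : ℂ) * Complex.I := by
    rw [om]; push_cast; ring
  rw [e, Complex.exp_mul_I, ← Complex.ofReal_cos, ← Complex.ofReal_sin, Complex.mul_re,
    Complex.add_re, Complex.add_im, Complex.mul_I_re, Complex.mul_I_im, Complex.ofReal_re,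
    Complex.ofReal_im, Complex.ofReal_re, Complex.ofReal_im]
  ring

/-- Transfer from the interval to the circle. -/
theorem transfer (G : AddCircle L → ℂ) :
    ∫⁻ y in Ioc (-(L / 2)) (-(L / 2) + L), ‖G (y : AddCircle L)‖ₑ ^ 2 =
      ENNReal.ofReal L * ∫⁻ x, ‖G x‖ₑ ^ 2 ∂(@haarAddCircle L hL) := by
  rw [AddCircle.lintegral_preimage L (-(L / 2)) (fun x => ‖G x‖ₑ ^ 2),
    volume_eq_smul_haarAddCircle, lintegral_smul_measure, smul_eq_mul]

variable {F : ℝ → ℝ}

/-- Fourier coefficients. -/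
noncomputable def cf (L : ℝ) [Fact (0 < L)] (F : ℝ → ℝ) (k : ℤ) : ℂ :=
  fourierCoeff (AddCircle.liftIoc L (-(L / 2)) fun y => (F y : ℂ)) k

/-- Coefficients at time `t`. -/
noncomputable def ct (L : ℝ) [Fact (0 < L)] (F : ℝ → ℝ) (t : ℝ) (k : ℤ) : ℂ :=
  cf L F k * (Real.exp (-(lam L k * t)) : ℝ)

/-- Coefficients of the derivative at time `t`. -/
noncomputable def ctd (L : ℝ) [Fact (0 < L)] (F : ℝ → ℝ) (t : ℝ) (k : ℤ) : ℂ :=
  Complex.I * (om L k : ℝ) * ct L F t k

variable (hF : MemLp F 2 (volume.restrict (Ioc (-(L / 2)) (-(L / 2) + L))))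

include hF

theorem lift_memLp :
    MemLp (AddCircle.liftIoc L (-(L / 2)) fun y => (F y : ℂ)) 2 (@haarAddCircle L hL) := by
  have h1 : MemLp (fun y => (F y : ℂ)) 2 (volume.restrict (Ioc (-(L / 2)) (-(L / 2) + L))) :=
    hF.ofReal
  exact h1.memLp_liftIoc.haarAddCircle

theorem cf_hasSum : HasSum (fun k => cf L F k • fourierLp (T := L) 2 k) ((lift_memLp hF).toLp _) := by
  have h := hasSum_fourier_series_L2 ((lift_memLp hF).toLp _)
  refine h.congr_fun fun k => ?_
  rw [fourierCoeff_congr_ae (lift_memLp hF).coeFn_toLp]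
  rfl

theorem cf_summable : Summable fun k => ‖cf L F k‖ ^ 2 := by
  have h := (hasSum_sq_fourierCoeff ((lift_memLp hF).toLp _)).summable
  refine h.congr fun k => ?_
  rw [fourierCoeff_congr_ae (lift_memLp hF).coeFn_toLp]
  rfl

theorem cf_bound : ∃ M : ℝ, 0 ≤ M ∧ ∀ k, ‖cf L F k‖ ≤ M := by
  have h := cf_summable hF
  refine ⟨1 + ∑' k, ‖cf L F k‖ ^ 2, by positivity, fun k => ?_⟩
  have h1 := h.le_tsum k fun j _ => by positivity
  nlinarith [norm_nonneg (cf L F k), sq_nonneg (‖cf L F k‖ - 1)]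

theorem ct_summable {t : ℝ} (ht : 0 < t) : Summable fun k => ‖ct L F t k‖ := by
  obtain ⟨M, hM, hb⟩ := cf_bound hF
  refine Summable.of_nonneg_of_le (fun k => norm_nonneg _) (fun k => ?_)
    ((summ_exp hL.out ht).mul_left M)
  rw [ct, norm_mul, Complex.norm_real, Real.norm_of_nonneg (Real.exp_pos _).le]
  have := hb k
  gcongr

theorem ctd_summable {t : ℝ} (ht : 0 < t) : Summable fun k => ‖ctd L F t k‖ := by
  obtain ⟨M, hM, hb⟩ := cf_bound hF
  have hs := (fr_summable hL.out (a := fun k => M * om L k) hM (fun k => ?_) 0 ht).abs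
  · refine Summable.of_nonneg_of_le (fun k => norm_nonneg _) (fun k => ?_) hs
    rw [ctd, ct, norm_mul, norm_mul, norm_mul, Complex.norm_I, Complex.norm_real,
      Complex.norm_real, Real.norm_of_nonneg (Real.exp_pos _).le, pow_zero, mul_one, abs_mul,
      abs_mul, abs_of_nonneg hM, abs_of_pos (Real.exp_pos _), one_mul, Real.norm_eq_abs]
    have := hb k
    calc |om L k| * (‖cf L F k‖ * Real.exp (-(lam L k * t)))
        ≤ |om L k| * (M * Real.exp (-(lam L k * t))) := by gcongr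
      _ = _ := by ring
  · rw [abs_mul, abs_of_nonneg hM, lam]
    have : |om L k| ≤ 1 + om L k ^ 2 := by
      rw [← sq_abs]
      nlinarith [sq_nonneg (|om L k| - 1), abs_nonneg (om L k)]
    gcongr

/-- Convergence to the initial data. -/
theorem tendsto_data :
    Tendsto (fun t : ℝ => ∫⁻ y in Ioc (-(L / 2)) (-(L / 2) + L),
      ‖F y - (SC L (ct L F t) (y : AddCircle L)).re‖ₑ ^ 2) (𝓝[>] 0) (𝓝 0) := by
  have key : ∀ t : ℝ, 0 < t → ∫⁻ y in Ioc (-(L / 2)) (-(L / 2) + L),
      ‖F y - (SC L (ct L F t) (y : AddCircle L)).re‖ₑ ^ 2 ≤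
      ENNReal.ofReal L * ENNReal.ofReal (∑' k, ‖cf L F k - ct L F t k‖ ^ 2) := by
    intro t ht
    set G : AddCircle L → ℂ := fun x =>
      (AddCircle.liftIoc L (-(L / 2)) fun y => (F y : ℂ)) x - SC L (ct L F t) x with hG
    have h1 : ∫⁻ y in Ioc (-(L / 2)) (-(L / 2) + L),
        ‖F y - (SC L (ct L F t) (y : AddCircle L)).re‖ₑ ^ 2 ≤
        ∫⁻ y in Ioc (-(L / 2)) (-(L / 2) + L), ‖G (y : AddCircle L)‖ₑ ^ 2 := by
      refine setLIntegral_mono_ae' measurableSet_Ioc (Eventually.of_forall fun y hy => ?_)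
      have h2 : G (y : AddCircle L) = (F y : ℂ) - SC L (ct L F t) (y : AddCircle L) := by
        rw [hG]
        simp only
        rw [liftIoc_coe_apply hy]
      have h3 : F y - (SC L (ct L F t) (y : AddCircle L)).re = (G (y : AddCircle L)).re := by
        rw [h2]; simp
      rw [h3]
      have h4 : ‖(G (y : AddCircle L)).re‖ₑ ≤ ‖G (y : AddCircle L)‖ₑ := by
        rw [enorm_le_iff_norm_le, Real.norm_eq_abs]
        exact Complex.abs_re_le_norm _
      gcongr
    refine h1.trans ?_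
    rw [transfer G]
    have h5 : ∫⁻ x, ‖G x‖ₑ ^ 2 ∂(@haarAddCircle L hL) =
        ENNReal.ofReal (∑' k, ‖cf L F k - ct L F t k‖ ^ 2) := by
      have h6 := (cf_hasSum hF).sub (SC_hasSum_Lp (L := L) (ct_summable hF ht))
      simp_rw [← sub_smul] at h6
      rw [← parseval h6]
      refine lintegral_congr_ae ?_
      have a1 := Lp.coeFn_sub ((lift_memLp hF).toLp _)
        (ContinuousMap.toLp (E := ℂ) 2 (@haarAddCircle L hL) ℂ (SC L (ct L F t)))
      have a2 := (lift_memLp hF).coeFn_toLp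
      have a3 := ContinuousMap.coeFn_toLp (E := ℂ) (p := 2) (𝕜 := ℂ) (@haarAddCircle L hL)
        (SC L (ct L F t))
      filter_upwards [a1, a2, a3] with x x1 x2 x3
      rw [x1, Pi.sub_apply, x2, x3]
    rw [h5]
  have h0 : Tendsto (fun t : ℝ => ENNReal.ofReal L *
      ENNReal.ofReal (∑' k, ‖cf L F k - ct L F t k‖ ^ 2)) (𝓝[>] 0) (𝓝 0) := by
    have h1 : Tendsto (fun t : ℝ => ∑' k, ‖cf L F k - ct L F t k‖ ^ 2) (𝓝[>] 0)
        (𝓝 (∑' k : ℤ, (0 : ℝ))) := by
      refine tendsto_tsum_of_dominated_convergence (cf_summable hF) (fun k => ?_) ?_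
      · have h2 : Tendsto (fun t : ℝ => ‖cf L F k - ct L F t k‖ ^ 2) (𝓝 0)
            (𝓝 (‖cf L F k - ct L F 0 k‖ ^ 2)) := by
          have hc : Continuous fun t : ℝ => ‖cf L F k - ct L F t k‖ ^ 2 := by
            unfold ct
            fun_prop
          exact hc.tendsto 0
        have h3 : ‖cf L F k - ct L F 0 k‖ ^ 2 = 0 := by simp [ct]
        rw [h3] at h2
        exact h2.mono_left nhdsWithin_le_nhds
      · filter_upwards [self_mem_nhdsWithin] with t ht k
        have ht' : 0 < t := ht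
        have h4 : cf L F k - ct L F t k = cf L F k * ((1 - Real.exp (-(lam L k * t)) : ℝ) : ℂ) := by
          rw [ct]; push_cast; ring
        have h5 : Real.exp (-(lam L k * t)) ≤ 1 := by
          rw [Real.exp_le_one_iff]
          have := lam_nonneg L k
          nlinarith
        have h6 := Real.exp_pos (-(lam L k * t))
        rw [h4, norm_mul, Complex.norm_real,
          Real.norm_of_nonneg (show 0 ≤ 1 - Real.exp (-(lam L k * t)) by linarith),
          Real.norm_eq_abs, abs_of_nonneg (sq_nonneg _)]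
        have h7 : ‖cf L F k‖ * (1 - Real.exp (-(lam L k * t))) ≤ ‖cf L F k‖ * 1 := by
          gcongr
          linarith
        rw [mul_one] at h7
        have h8 : 0 ≤ ‖cf L F k‖ * (1 - Real.exp (-(lam L k * t))) :=
          mul_nonneg (norm_nonneg _) (by linarith)
        gcongr
    rw [tsum_zero] at h1
    have h2 := (ENNReal.continuous_ofReal.tendsto 0).comp h1
    rw [ENNReal.ofReal_zero] at h2
    have h3 := ENNReal.Tendsto.const_mul (a := ENNReal.ofReal L) h2 (Or.inr ENNReal.ofReal_ne_top)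
    rw [mul_zero] at h3
    exact h3
  refine tendsto_of_tendsto_of_tendsto_of_le_of_le' tendsto_const_nhds h0
    (Eventually.of_forall fun _ => bot_le) ?_
  filter_upwards [self_mem_nhdsWithin] with t ht
  exact key t ht

/-- The energy bound. -/
theorem energy :
    ∫⁻ t in Ioi (0 : ℝ), ∫⁻ y in Ioc (-(L / 2)) (-(L / 2) + L),
      ‖(SC L (ctd L F t) (y : AddCircle L)).re‖ₑ ^ 2 < ⊤ := by
  have key : ∀ t : ℝ, t ∈ Ioi (0 : ℝ) → ∫⁻ y in Ioc (-(L / 2)) (-(L / 2) + L),
      ‖(SC L (ctd L F t) (y : AddCircle L)).re‖ₑ ^ 2 ≤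
      ENNReal.ofReal L * ∑' k, ENNReal.ofReal (‖ctd L F t k‖ ^ 2) := by
    intro t ht
    have ht' : 0 < t := ht
    have h1 : ∫⁻ y in Ioc (-(L / 2)) (-(L / 2) + L),
        ‖(SC L (ctd L F t) (y : AddCircle L)).re‖ₑ ^ 2 ≤
        ∫⁻ y in Ioc (-(L / 2)) (-(L / 2) + L), ‖SC L (ctd L F t) (y : AddCircle L)‖ₑ ^ 2 := by
      refine lintegral_mono fun y => ?_
      have h4 : ‖(SC L (ctd L F t) (y : AddCircle L)).re‖ₑ ≤
          ‖SC L (ctd L F t) (y : AddCircle L)‖ₑ := by
        rw [enorm_le_iff_norm_le, Real.norm_eq_abs]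
        exact Complex.abs_re_le_norm _
      gcongr
    refine h1.trans ?_
    rw [transfer (fun x => SC L (ctd L F t) x)]
    have hs := ctd_summable hF ht'
    have h6 := SC_hasSum_Lp (L := L) hs
    have h7 : ∫⁻ x, ‖SC L (ctd L F t) x‖ₑ ^ 2 ∂(@haarAddCircle L hL) =
        ENNReal.ofReal (∑' k, ‖ctd L F t k‖ ^ 2) := by
      rw [← parseval h6]
      refine lintegral_congr_ae ?_
      have a3 := ContinuousMap.coeFn_toLp (E := ℂ) (p := 2) (𝕜 := ℂ) (@haarAddCircle L hL)
        (SC L (ctd L F t))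
      filter_upwards [a3] with x x3
      rw [x3]
    rw [h7, ENNReal.ofReal_tsum_of_nonneg (fun k => by positivity)]
    have h8 := (hasSum_sq_fourierCoeff
      (ContinuousMap.toLp (E := ℂ) 2 (@haarAddCircle L hL) ℂ (SC L (ctd L F t)))).summable
    refine h8.congr fun k => ?_
    rw [coeff_of_hasSum h6]
  have h2 : ∫⁻ t in Ioi (0 : ℝ), ∫⁻ y in Ioc (-(L / 2)) (-(L / 2) + L),
      ‖(SC L (ctd L F t) (y : AddCircle L)).re‖ₑ ^ 2 ≤
      ∫⁻ t in Ioi (0 : ℝ), ENNReal.ofReal L * ∑' k, ENNReal.ofReal (‖ctd L F t k‖ ^ 2) :=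
    setLIntegral_mono' measurableSet_Ioi key
  refine h2.trans_lt ?_
  have hm : ∀ k : ℤ, Measurable fun t : ℝ => ENNReal.ofReal (‖ctd L F t k‖ ^ 2) := by
    intro k
    have hc : Continuous fun t : ℝ => ‖ctd L F t k‖ ^ 2 := by
      unfold ctd ct
      fun_prop
    exact (ENNReal.continuous_ofReal.comp hc).measurable
  rw [lintegral_const_mul _ (Measurable.tsum hm),
    lintegral_tsum fun k => (hm k).aemeasurable]
  have h3 : ∀ k : ℤ, ∫⁻ t in Ioi (0 : ℝ), ENNReal.ofReal (‖ctd L F t k‖ ^ 2) ≤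
      ENNReal.ofReal (‖cf L F k‖ ^ 2) := by
    intro k
    have e1 : ∀ t : ℝ, ‖ctd L F t k‖ ^ 2 =
        ‖cf L F k‖ ^ 2 * (lam L k * Real.exp (-(2 * lam L k) * t)) := by
      intro t
      rw [ctd, ct, norm_mul, norm_mul, norm_mul, Complex.norm_I, Complex.norm_real,
        Complex.norm_real, Real.norm_of_nonneg (Real.exp_pos _).le, one_mul, mul_pow, mul_pow,
        Real.norm_eq_abs, sq_abs, lam, ← Real.exp_nat_mul]
      push_cast
      have : (2 * -(om L k ^ 2 * t)) = -(2 * om L k ^ 2) * t := by ring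
      rw [this]
      ring
    simp_rw [e1]
    rcases (lam_nonneg L k).eq_or_lt with h0 | h0
    · simp [← h0]
    · have hneg : -(2 * lam L k) < 0 := by linarith
      have hi : IntegrableOn (fun t => Real.exp (-(2 * lam L k) * t)) (Ioi 0) :=
        integrableOn_exp_mul_Ioi hneg 0
      have hv := integral_exp_mul_Ioi hneg 0
      rw [← ofReal_integral_eq_lintegral_ofReal]
      · apply ENNReal.ofReal_le_ofReal
        rw [integral_const_mul, integral_const_mul, hv]
        have : lam L k * (-Real.exp (-(2 * lam L k) * 0) / -(2 * lam L k)) = 1 / 2 := by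
          rw [mul_zero, Real.exp_zero]
          field_simp
        rw [this]
        nlinarith [sq_nonneg ‖cf L F k‖]
      · exact (hi.const_mul _).const_mul _
      · exact Eventually.of_forall fun t => by positivity
  have h4 : ∑' k : ℤ, ∫⁻ t in Ioi (0 : ℝ), ENNReal.ofReal (‖ctd L F t k‖ ^ 2) ≤
      ∑' k : ℤ, ENNReal.ofReal (‖cf L F k‖ ^ 2) := ENNReal.tsum_le_tsum h3
  have h5 : ∑' k : ℤ, ENNReal.ofReal (‖cf L F k‖ ^ 2) < ⊤ := by
    rw [← ENNReal.ofReal_tsum_of_nonneg (fun k => by positivity) (cf_summable hF)]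
    exact ENNReal.ofReal_lt_top
  exact ENNReal.mul_lt_top ENNReal.ofReal_lt_top (h4.trans_lt h5)

end

end Pool.Agent.Q61.NC
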