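import Pool.Agent.Q61.NC.Par

/-!
# The modes on which the pressure cannot act
-/

set_option autoImplicit false

open Set Filter Topology MeasureTheory AddCircle
open scoped ENNReal

namespace Pool.Agent.Q61.NC

theorem om_sin {a : ℝ} (ha : 0 < a) (n : ℤ) : Real.sin (om (2 * a) n * a) = 0 := by
  have : om (2 * a) n * a = n * Real.pi := by
    rw [om]
    field_simp
  rw [this]
  exact Real.sin_int_mul_pi n

theorem int_sin (a w : ℝ) : ∫ y in (-a)..a, Real.sin (w * y) = 0 := by
  have h := intervalIntegral.integral_comp_neg (a := -a) (b := a) fun y : ℝ => Real.sin (w * y)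
  rw [neg_neg] at h
  have h2 : ∫ y in (-a)..a, Real.sin (w * -y) = -∫ y in (-a)..a, Real.sin (w * y) := by
    rw [← intervalIntegral.integral_neg]
    refine intervalIntegral.integral_congr fun y _ => ?_
    rw [mul_neg, Real.sin_neg]
  rw [h2] at h
  linarith

theorem mode_zero {a T : ℝ} (ha : 0 < a) (hT : 0 < T) {U Ut Uy Uyy : ℝ → ℝ → ℝ} {P : ℝ → ℝ}
    (hdt : ∀ t, 0 < t → ∀ y ∈ Icc (-a) a, HasDerivAt (fun s => U s y) (Ut t y) t)
    (hdy : ∀ t, 0 < t → ∀ y ∈ Icc (-a) a, HasDerivAt (fun v => U t v) (Uy t y) y)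
    (hdyy : ∀ t, 0 < t → ∀ y ∈ Icc (-a) a, HasDerivAt (fun v => Uy t v) (Uyy t y) y)
    (hct : ContinuousOn (fun q : ℝ × ℝ => Ut q.1 q.2) (Ioi 0 ×ˢ Icc (-a) a))
    (hcyy : ∀ t, 0 < t → ContinuousOn (fun y => Uyy t y) (Icc (-a) a))
    (heq : ∀ t, 0 < t → ∀ y ∈ Ioo (-a) a, Uyy t y = Ut t y + P t)
    (hw : ∀ t, 0 < t → U t a = 0 ∧ U t (-a) = 0)
    (hr : ∀ y ∈ Icc (-a) a, U T y = 0) (n : ℤ) {t : ℝ} (ht : 0 < t) :
    ∫ y in (-a)..a, U t y * Real.sin (om (2 * a) n * y) = 0 := by
  set w : ℝ := om (2 * a) n with hw0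
  have haa : -a ≤ a := by linarith
  have hu : uIcc (-a) a = Icc (-a) a := uIcc_of_le haa
  have huo : uIoc (-a) a = Ioc (-a) a := uIoc_of_le haa
  have hS : Continuous fun y : ℝ => Real.sin (w * y) := by fun_prop
  have hC : Continuous fun y : ℝ => Real.cos (w * y) := by fun_prop
  have hs1 : Real.sin (w * a) = 0 := om_sin ha n
  have hs2 : Real.sin (w * -a) = 0 := by rw [mul_neg, Real.sin_neg, hs1, neg_zero]
  have hcU : ∀ t, 0 < t → ContinuousOn (fun y => U t y) (Icc (-a) a) := fun t ht y hy =>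
    (hdy t ht y hy).continuousAt.continuousWithinAt
  have hcUy : ∀ t, 0 < t → ContinuousOn (fun y => Uy t y) (Icc (-a) a) := fun t ht y hy =>
    (hdyy t ht y hy).continuousAt.continuousWithinAt
  have hcUt : ∀ t, 0 < t → ContinuousOn (fun y => Ut t y) (Icc (-a) a) := fun t ht =>
    hct.comp (by fun_prop : Continuous fun y : ℝ => ((t, y) : ℝ × ℝ)).continuousOn
      fun y hy => ⟨ht, hy⟩
  -- time derivative
  have hder : ∀ t, 0 < t → HasDerivAt (fun s => ∫ y in (-a)..a, U s y * Real.sin (w * y))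
      (∫ y in (-a)..a, Ut t y * Real.sin (w * y)) t := by
    intro t ht
    have hK : IsCompact (Icc (t / 2) (2 * t) ×ˢ Icc (-a) a) := isCompact_Icc.prod isCompact_Icc
    have hsub : Icc (t / 2) (2 * t) ×ˢ Icc (-a) a ⊆ Ioi 0 ×ˢ Icc (-a) a := by
      rintro ⟨s, y⟩ ⟨h1, h2⟩
      exact ⟨lt_of_lt_of_le (by linarith : 0 < t / 2) h1.1, h2⟩
    obtain ⟨C, hCb⟩ := hK.exists_bound_of_continuousOn (hct.mono hsub)
    have hnhds : Ioo (t / 2) (2 * t) ∈ 𝓝 t := Ioo_mem_nhds (by linarith) (by linarith)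
    refine (intervalIntegral.hasDerivAt_integral_of_dominated_loc_of_deriv_le
      (F := fun s y => U s y * Real.sin (w * y)) (F' := fun s y => Ut s y * Real.sin (w * y))
      (bound := fun _ => C) hnhds ?_ ?_ ?_ ?_ ?_ ?_).2
    · filter_upwards [hnhds] with s hs
      have hs0 : 0 < s := by linarith [hs.1]
      rw [huo]
      exact (((hcU s hs0).mul hS.continuousOn).mono Ioc_subset_Icc_self).aestronglyMeasurable
        measurableSet_Ioc
    · refine ContinuousOn.intervalIntegrable ?_
      rw [hu]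
      exact (hcU t ht).mul hS.continuousOn
    · rw [huo]
      exact (((hcUt t ht).mul hS.continuousOn).mono Ioc_subset_Icc_self).aestronglyMeasurable
        measurableSet_Ioc
    · refine Eventually.of_forall fun y hy s hs => ?_
      rw [huo] at hy
      have h1 := hCb (s, y) ⟨⟨hs.1.le, hs.2.le⟩, Ioc_subset_Icc_self hy⟩
      rw [norm_mul]
      have h2 : ‖Real.sin (w * y)‖ ≤ 1 := Real.abs_sin_le_one _
      calc ‖Ut s y‖ * ‖Real.sin (w * y)‖ ≤ C * 1 := by
            refine mul_le_mul h1 h2 (norm_nonneg _) ((norm_nonneg _).trans h1)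
        _ = C := mul_one C
    · exact intervalIntegrable_const
    · refine Eventually.of_forall fun y hy s hs => ?_
      rw [huo] at hy
      have hs0 : 0 < s := by linarith [hs.1]
      exact (hdt s hs0 y (Ioc_subset_Icc_self hy)).mul_const _
  -- integration by parts
  have hparts : ∀ t, 0 < t → ∫ y in (-a)..a, Ut t y * Real.sin (w * y) =
      -(w ^ 2) * ∫ y in (-a)..a, U t y * Real.sin (w * y) := by
    intro t ht
    have h1 : ∫ y in (-a)..a, Ut t y * Real.sin (w * y) =
        ∫ y in (-a)..a, (Uyy t y * Real.sin (w * y) - P t * Real.sin (w * y)) := by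
      refine intervalIntegral.integral_congr_uIoo fun y hy => ?_
      rw [uIoo_of_le haa] at hy
      have h2 := heq t ht y hy
      show Ut t y * Real.sin (w * y) = Uyy t y * Real.sin (w * y) - P t * Real.sin (w * y)
      rw [h2]
      ring
    have i1 : IntervalIntegrable (fun y => Uyy t y * Real.sin (w * y)) volume (-a) a := by
      refine ContinuousOn.intervalIntegrable ?_
      rw [hu]
      exact (hcyy t ht).mul hS.continuousOn
    have i2 : IntervalIntegrable (fun y => P t * Real.sin (w * y)) volume (-a) a :=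
      (continuous_const.mul hS).intervalIntegrable _ _
    rw [h1, intervalIntegral.integral_sub i1 i2, intervalIntegral.integral_const_mul, int_sin,
      mul_zero, sub_zero]
    have hsd : ∀ y ∈ uIcc (-a) a, HasDerivAt (fun y : ℝ => Real.sin (w * y))
        (Real.cos (w * y) * w) y := fun y _ => by
      have h := ((hasDerivAt_id y).const_mul w).sin
      simpa using h
    have hcd : ∀ y ∈ uIcc (-a) a, HasDerivAt (fun y : ℝ => Real.cos (w * y))
        (-Real.sin (w * y) * w) y := fun y _ => by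
      have h := ((hasDerivAt_id y).const_mul w).cos
      simpa using h
    have p1 := intervalIntegral.integral_mul_deriv_eq_deriv_mul (a := -a) (b := a)
      (u := fun y => Real.sin (w * y)) (u' := fun y => Real.cos (w * y) * w)
      (v := fun y => Uy t y) (v' := fun y => Uyy t y) hsd
      (fun y hy => hdyy t ht y (hu ▸ hy))
      ((hC.mul continuous_const).intervalIntegrable _ _)
      (ContinuousOn.intervalIntegrable (by rw [hu]; exact hcyy t ht))
    have p2 := intervalIntegral.integral_mul_deriv_eq_deriv_mul (a := -a) (b := a)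
      (u := fun y => Real.cos (w * y)) (u' := fun y => -Real.sin (w * y) * w)
      (v := fun y => U t y) (v' := fun y => Uy t y) hcd
      (fun y hy => hdy t ht y (hu ▸ hy))
      ((hS.neg.mul continuous_const).intervalIntegrable _ _)
      (ContinuousOn.intervalIntegrable (by rw [hu]; exact hcUy t ht))
    rw [hs1, hs2, zero_mul, zero_mul, sub_zero, zero_sub] at p1
    rw [(hw t ht).1, (hw t ht).2, mul_zero, mul_zero, sub_zero, zero_sub] at p2
    have e1 : ∫ y in (-a)..a, Uyy t y * Real.sin (w * y) =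
        ∫ y in (-a)..a, Real.sin (w * y) * Uyy t y :=
      intervalIntegral.integral_congr fun y _ => mul_comm _ _
    have e2 : ∫ y in (-a)..a, Real.cos (w * y) * w * Uy t y =
        w * ∫ y in (-a)..a, Real.cos (w * y) * Uy t y := by
      rw [← intervalIntegral.integral_const_mul]
      refine intervalIntegral.integral_congr fun y _ => ?_
      ring
    have e3 : ∫ y in (-a)..a, -Real.sin (w * y) * w * U t y =
        -w * ∫ y in (-a)..a, U t y * Real.sin (w * y) := by
      rw [← intervalIntegral.integral_const_mul]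
      refine intervalIntegral.integral_congr fun y _ => ?_
      ring
    rw [e1, p1, e2, p2, e3]
    ring
  -- the differential equation
  set b : ℝ → ℝ := fun s => ∫ y in (-a)..a, U s y * Real.sin (w * y) with hb
  have hE : ∀ s, 0 < s → HasDerivAt (fun s => b s * Real.exp (w ^ 2 * s)) 0 s := by
    intro s hs
    have h1 := hder s hs
    rw [hparts s hs] at h1
    have h2 : HasDerivAt (fun s : ℝ => Real.exp (w ^ 2 * s)) (Real.exp (w ^ 2 * s) * w ^ 2) s := by
      have h := ((hasDerivAt_id s).const_mul (w ^ 2)).exp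
      simpa using h
    have h3 := h1.mul h2
    have e : -(w ^ 2) * (∫ y in (-a)..a, U s y * Real.sin (w * y)) * Real.exp (w ^ 2 * s) +
        (∫ y in (-a)..a, U s y * Real.sin (w * y)) * (Real.exp (w ^ 2 * s) * w ^ 2) = 0 := by ring
    rw [e] at h3
    exact h3
  have hconst := isOpen_Ioi.is_const_of_deriv_eq_zero (𝕜 := ℝ) isPreconnected_Ioi
    (f := fun s => b s * Real.exp (w ^ 2 * s)) (s := Ioi 0)
    (fun s hs => (hE s hs).differentiableAt.differentiableWithinAt)
    (fun s hs => (hE s hs).deriv) (x := t) (y := T) ht hT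
  have hbT : b T = 0 := by
    rw [hb]
    simp only
    have : ∫ y in (-a)..a, U T y * Real.sin (w * y) = ∫ _y in (-a)..a, (0 : ℝ) := by
      refine intervalIntegral.integral_congr fun y hy => ?_
      rw [hu] at hy
      show U T y * Real.sin (w * y) = 0
      rw [hr y hy, zero_mul]
    rw [this]
    simp
  simp only [hbT, zero_mul] at hconst
  exact (mul_eq_zero.1 hconst).resolve_right (Real.exp_pos _).ne'

theorem eq_zero_of_cf {L : ℝ} [hL : Fact (0 < L)] {F : ℝ → ℝ}
    (hF : MemLp F 2 (volume.restrict (Ioc (-(L / 2)) (-(L / 2) + L))))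
    (h : ∀ k, cf L F k = 0) : ∀ᵐ y ∂(volume.restrict (Ioc (-(L / 2)) (-(L / 2) + L))), F y = 0 := by
  have h1 := transfer (L := L) (AddCircle.liftIoc L (-(L / 2)) fun y => (F y : ℂ))
  have h2 : ∫⁻ x, ‖(AddCircle.liftIoc L (-(L / 2)) fun y => (F y : ℂ)) x‖ₑ ^ 2
      ∂(@haarAddCircle L hL) = 0 := by
    have h3 := parseval (cf_hasSum hF)
    simp_rw [h] at h3
    simp only [norm_zero, ne_eq, OfNat.ofNat_ne_zero, not_false_eq_true, zero_pow, tsum_zero,
      ENNReal.ofReal_zero] at h3
    rw [← h3]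
    refine lintegral_congr_ae ?_
    filter_upwards [(lift_memLp hF).coeFn_toLp] with x hx
    rw [hx]
  rw [h2, mul_zero] at h1
  have h3 : ∫⁻ y in Ioc (-(L / 2)) (-(L / 2) + L), ‖F y‖ₑ ^ 2 = 0 := by
    rw [← h1]
    refine setLIntegral_congr_fun measurableSet_Ioc fun y hy => ?_
    show ‖F y‖ₑ ^ 2 = ‖(AddCircle.liftIoc L (-(L / 2)) fun y => (F y : ℂ)) (y : AddCircle L)‖ₑ ^ 2
    rw [liftIoc_coe_apply hy]
    congr 1
    rw [← ofReal_norm, ← ofReal_norm, Complex.norm_real]
  have hm : AEMeasurable (fun y => ‖F y‖ₑ ^ 2)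
      (volume.restrict (Ioc (-(L / 2)) (-(L / 2) + L))) :=
    (hF.aestronglyMeasurable.enorm).pow_const 2
  rw [lintegral_eq_zero_iff' hm] at h3
  filter_upwards [h3] with y hy
  simpa using hy

theorem even_of_modes {a : ℝ} (ha : 0 < a) {f : ℝ → ℝ}
    (hf : MemLp f 2 (volume.restrict (Icc (-a) a)))
    (h : ∀ n : ℤ, ∫ y in (-a)..a, f y * Real.sin (om (2 * a) n * y) = 0) :
    ∀ᵐ y ∂(volume.restrict (Icc (-a) a)), f (-y) = f y := by
  have hL : Fact (0 < 2 * a) := ⟨by positivity⟩
  have haa : -a ≤ a := by linarith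
  set G : ℝ → ℝ := indicator (Icc (-a) a) f with hG
  have hGm : MemLp G 2 volume := by
    rw [hG, memLp_indicator_iff_restrict measurableSet_Icc]
    exact hf
  set F : ℝ → ℝ := fun y => G y - G (-y) with hFd
  have hF0 : MemLp F 2 volume := by
    refine hGm.sub ?_
    exact hGm.comp_measurePreserving (Measure.measurePreserving_neg volume)
  have hF : MemLp F 2 (volume.restrict (Ioc (-(2 * a / 2)) (-(2 * a / 2) + 2 * a))) :=
    hF0.mono_measure Measure.restrict_le_self
  have hodd : ∀ y, F (-y) = -F y := by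
    intro y
    rw [hFd]
    simp only [neg_neg]
    ring
  have hIoc : Ioc (-(2 * a / 2)) (-(2 * a / 2) + 2 * a) = Ioc (-a) a := by
    congr 1 <;> ring
  have hGe : ∀ y ∈ Icc (-a) a, G y = f y := fun y hy => indicator_of_mem hy _
  have hGi0 : ∀ H : ℝ → ℝ, MemLp H 2 volume → ∀ n : ℤ,
      IntervalIntegrable (fun y => H y * Real.sin (om (2 * a) n * y)) volume (-a) a := by
    intro H hH n
    rw [intervalIntegrable_iff_integrableOn_Ioc_of_le haa]
    have h1 : MemLp H 2 (volume.restrict (Ioc (-a) a)) := hH.mono_measure Measure.restrict_le_self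
    refine Integrable.mul_bdd (c := 1) (h1.integrable one_le_two) ?_ ?_
    · exact (by fun_prop : Continuous fun y : ℝ => Real.sin (om (2 * a) n * y)).aestronglyMeasurable
    · exact Eventually.of_forall fun y => Real.abs_sin_le_one _
  have hGi := hGi0 G hGm
  have hGz : ∀ n : ℤ, ∫ y in (-a)..a, G y * Real.sin (om (2 * a) n * y) = 0 := by
    intro n
    rw [← h n]
    refine intervalIntegral.integral_congr fun y hy => ?_
    rw [uIcc_of_le haa] at hy
    show G y * _ = f y * _
    rw [hGe y hy]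
  have hGz' : ∀ n : ℤ, ∫ y in (-a)..a, G (-y) * Real.sin (om (2 * a) n * y) = 0 := by
    intro n
    have h1 := intervalIntegral.integral_comp_neg (a := -a) (b := a)
      fun y : ℝ => G y * Real.sin (om (2 * a) n * y)
    rw [neg_neg, hGz n] at h1
    have h2 : ∫ y in (-a)..a, G (-y) * Real.sin (om (2 * a) n * -y) =
        -∫ y in (-a)..a, G (-y) * Real.sin (om (2 * a) n * y) := by
      rw [← intervalIntegral.integral_neg]
      refine intervalIntegral.integral_congr fun y _ => ?_
      show _ = -(G (-y) * Real.sin (om (2 * a) n * y))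
      rw [mul_neg, Real.sin_neg]
      ring
    rw [h2] at h1
    linarith
  have hGi' := hGi0 (fun y => G (-y))
    (hGm.comp_measurePreserving (Measure.measurePreserving_neg volume))
  have hcf : ∀ k, cf (2 * a) F k = 0 := by
    intro k
    apply Complex.ext
    · rw [cf_odd hodd k, Complex.zero_re]
    · rw [Complex.zero_im, cf_eq, Complex.im_ofReal_mul]
      have hi : IntervalIntegrable (fun y : ℝ =>
          Complex.exp (-((om (2 * a) k * y : ℝ) : ℂ) * Complex.I) * (F y : ℂ)) volume
          (-(2 * a / 2)) (2 * a / 2) := by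
        rw [intervalIntegrable_iff_integrableOn_Ioc_of_le (by linarith)]
        have h1 := integrand_int hF k
        have e : -(2 * a / 2) + 2 * a = 2 * a / 2 := by ring
        rw [e] at h1
        exact h1
      have h1 := Complex.imCLM.intervalIntegral_comp_comm hi
      simp only [Complex.imCLM_apply] at h1
      rw [← h1]
      have h2 : ∫ y in (-(2 * a / 2))..(2 * a / 2),
          (Complex.exp (-((om (2 * a) k * y : ℝ) : ℂ) * Complex.I) * (F y : ℂ)).im =
          ∫ y in (-a)..a, (G (-y) * Real.sin (om (2 * a) k * y) -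
            G y * Real.sin (om (2 * a) k * y)) := by
        have e : 2 * a / 2 = a := by ring
        rw [e]
        refine intervalIntegral.integral_congr fun y _ => ?_
        show (Complex.exp (-((om (2 * a) k * y : ℝ) : ℂ) * Complex.I) * (F y : ℂ)).im = _
        rw [← Complex.ofReal_neg, Complex.im_mul_ofReal, Complex.exp_ofReal_mul_I_im,
          Real.sin_neg]
        show -Real.sin (om (2 * a) k * y) * (G y - G (-y)) = _
        ring
      rw [h2, intervalIntegral.integral_sub (hGi' k) (hGi k), hGz k, hGz' k]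
      simp
  have hzero := eq_zero_of_cf hF hcf
  rw [hIoc] at hzero
  have hIcc : volume.restrict (Icc (-a) a) = volume.restrict (Ioc (-a) a) :=
    Measure.restrict_congr_set Ioc_ae_eq_Icc.symm
  rw [hIcc]
  filter_upwards [hzero, ae_restrict_mem measurableSet_Ioc] with y hy hmem
  have h1 : F y = f y - f (-y) := by
    rw [hFd]
    simp only
    rw [hGe y (Ioc_subset_Icc_self hmem), hGe (-y) ⟨by linarith [hmem.2], by linarith [hmem.1]⟩]
  rw [h1] at hy
  linarith

/-- Passage to the limit in the modes. -/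
theorem mode_limit {D : Set ℝ} (hD : volume D < ⊤) {f : ℝ → ℝ} {U : ℝ → ℝ → ℝ} {s : ℝ → ℝ}
    (hs : ∀ y, |s y| ≤ 1) (hi : IntegrableOn (fun y => f y * s y) D)
    (hU : ∀ t, 0 < t → IntegrableOn (fun y => U t y * s y) D)
    (hz : ∀ t, 0 < t → ∫ y in D, U t y * s y = 0)
    (hlim : Tendsto (fun t : ℝ => ∫⁻ y in D, ‖U t y - f y‖ₑ ^ 2) (𝓝[>] 0) (𝓝 0)) :
    ∫ y in D, f y * s y = 0 := by
  by_contra hne
  have hpos : 0 < ‖∫ y in D, f y * s y‖ₑ := by
    rw [enorm_pos]
    exact hne
  have key : ∀ e : ℝ≥0∞, e ≠ 0 → e ≠ ⊤ → ‖∫ y in D, f y * s y‖ₑ ≤ e * volume D + e := by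
    intro e he0 het
    have h1 : Tendsto (fun t : ℝ => e⁻¹ * ∫⁻ y in D, ‖U t y - f y‖ₑ ^ 2) (𝓝[>] 0) (𝓝 0) := by
      have h2 := ENNReal.Tendsto.const_mul (a := e⁻¹) hlim
        (Or.inr (ENNReal.inv_ne_top.2 he0))
      rwa [mul_zero] at h2
    have h3 : ∀ᶠ t in 𝓝[>] (0 : ℝ), e⁻¹ * ∫⁻ y in D, ‖U t y - f y‖ₑ ^ 2 ≤ e := by
      have := (tendsto_order.1 h1).2 e (pos_iff_ne_zero.2 he0)
      filter_upwards [this] with t ht
      exact ht.le
    obtain ⟨t, ht1, ht2⟩ := (h3.and self_mem_nhdsWithin).exists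
    have ht0 : 0 < t := ht2
    have h4 : ∫ y in D, f y * s y = ∫ y in D, (f y * s y - U t y * s y) := by
      rw [integral_sub hi (hU t ht0), hz t ht0, sub_zero]
    rw [h4]
    calc ‖∫ y in D, (f y * s y - U t y * s y)‖ₑ
        ≤ ∫⁻ y in D, ‖f y * s y - U t y * s y‖ₑ := enorm_integral_le_lintegral_enorm _
      _ ≤ ∫⁻ y in D, (e + e⁻¹ * ‖U t y - f y‖ₑ ^ 2) := by
          refine lintegral_mono fun y => ?_
          have h5 : ‖f y * s y - U t y * s y‖ₑ ≤ ‖U t y - f y‖ₑ := by
            rw [← sub_mul, enorm_mul, enorm_sub_rev]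
            have h6 : ‖s y‖ₑ ≤ 1 := by
              rw [← ofReal_norm, Real.norm_eq_abs]
              exact ENNReal.ofReal_le_one.2 (hs y)
            calc ‖U t y - f y‖ₑ * ‖s y‖ₑ ≤ ‖U t y - f y‖ₑ * 1 := by gcongr
              _ = _ := mul_one _
          refine h5.trans ?_
          set z := ‖U t y - f y‖ₑ
          rcases le_total z e with h | h
          · exact h.trans le_self_add
          · have h7 : z ≤ e⁻¹ * z ^ 2 := by
              calc z = e⁻¹ * e * z := by rw [ENNReal.inv_mul_cancel he0 het, one_mul]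
                _ ≤ e⁻¹ * z * z := by gcongr
                _ = e⁻¹ * z ^ 2 := by rw [pow_two, mul_assoc]
            exact h7.trans le_add_self
      _ = e * volume D + e⁻¹ * ∫⁻ y in D, ‖U t y - f y‖ₑ ^ 2 := by
          rw [lintegral_add_left measurable_const, setLIntegral_const,
            lintegral_const_mul' _ _ (ENNReal.inv_ne_top.2 he0)]
      _ ≤ e * volume D + e := by gcongr
  have hlim2 : Tendsto (fun e : ℝ≥0∞ => e * volume D + e) (𝓝[>] 0) (𝓝 0) := by
    have h1 : Tendsto (fun e : ℝ≥0∞ => e * volume D) (𝓝[>] 0) (𝓝 0) := by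
      have h2 := ENNReal.Tendsto.mul_const (b := volume D)
        (tendsto_id.mono_left (nhdsWithin_le_nhds : 𝓝[>] (0 : ℝ≥0∞) ≤ 𝓝 0)) (Or.inr hD.ne)
      rwa [zero_mul] at h2
    have h3 : Tendsto (fun e : ℝ≥0∞ => e) (𝓝[>] 0) (𝓝 0) :=
      tendsto_id.mono_left nhdsWithin_le_nhds
    have h4 := h1.add h3
    rwa [add_zero] at h4
  have hev : ∀ᶠ e in 𝓝[>] (0 : ℝ≥0∞), ‖∫ y in D, f y * s y‖ₑ ≤ e * volume D + e := by
    have h1 : ∀ᶠ e in 𝓝[>] (0 : ℝ≥0∞), e < 1 :=
      mem_nhdsWithin_of_mem_nhds (Iio_mem_nhds one_pos)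
    filter_upwards [h1, self_mem_nhdsWithin] with e he he'
    exact key e (pos_iff_ne_zero.1 he') (he.trans ENNReal.one_lt_top).ne
  have hle := ge_of_tendsto hlim2 hev
  exact absurd hle (not_le.2 hpos)

end Pool.Agent.Q61.NC
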