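import Pool.Agent.Q61.NC.Scal
import Pool.Agent.Q61.NC.Defs

/-!
# From scalar profiles to shear flows
-/

set_option autoImplicit false

open Set Filter Topology MeasureTheory
open scoped ENNReal ContDiff

namespace Pool.Agent.Q61.NC

section

variable {d : ℕ}

theorem hasFDerivAt_comp_coord {h : ℝ → ℝ} {c : ℝ} {x : Sp d} (j : Fin d)
    (hh : HasDerivAt h c (x j)) :
    HasFDerivAt (fun y : Sp d => h (y j)) (c • (EuclideanSpace.proj j : Sp d →L[ℝ] ℝ)) x := by
  have h1 : HasFDerivAt (fun y : Sp d => y j) (EuclideanSpace.proj j : Sp d →L[ℝ] ℝ) x :=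
    (EuclideanSpace.proj j : Sp d →L[ℝ] ℝ).hasFDerivAt
  exact hh.comp_hasFDerivAt x h1

theorem pd_of {f : Sp d → ℝ} {h : ℝ → ℝ} {c : ℝ} {x : Sp d} {j : Fin d}
    (hf : f =ᶠ[𝓝 x] fun y => h (y j)) (hh : HasDerivAt h c (x j)) (i : Fin d) :
    pd i f x = if i = j then c else 0 := by
  have h1 := (hasFDerivAt_comp_coord j hh).fderiv
  rw [pd, hf.fderiv_eq, h1]
  by_cases hij : i = j
  · subst hij
    simp
  · have : j ≠ i := fun h => hij h.symm
    simp [hij, this]

theorem isOpen_slab (j : Fin d) {O : Set ℝ} (hO : IsOpen O) : IsOpen (slab j O) := by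
  have : Continuous fun x : Sp d => x j := (EuclideanSpace.proj j : Sp d →L[ℝ] ℝ).continuous
  exact hO.preimage this

theorem measurable_coord (j : Fin d) : Measurable fun x : Sp d => x j :=
  (EuclideanSpace.proj j : Sp d →L[ℝ] ℝ).continuous.measurable

/-- The integral of a function of one coordinate over a box. -/
theorem box_lintegral (j : Fin d) (D : Set ℝ) (hD : MeasurableSet D) (R : ℝ) :
    ∃ c : ℝ≥0∞, c ≠ ⊤ ∧ (0 < R → c ≠ 0) ∧ ∀ G : ℝ → ℝ≥0∞, AEMeasurable G (volume.restrict D) →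
      ∫⁻ x in {x : Sp d | x j ∈ D ∧ ∀ i, i ≠ j → x i ∈ Icc (-R) R}, G (x j) =
        c * ∫⁻ y in D, G y := by
  classical
  set s : Fin d → Set ℝ := fun i => if i = j then D else Icc (-R) R with hs
  have hsm : ∀ i, MeasurableSet (s i) := by
    intro i
    rw [hs]
    by_cases h : i = j
    · simpa [h] using hD
    · simp [h]
  refine ⟨∏ i ∈ Finset.univ.erase j, (volume.restrict (s i)) univ, ?_, ?_, ?_⟩
  · refine ENNReal.prod_ne_top fun i hi => ?_
    have : i ≠ j := Finset.ne_of_mem_erase hi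
    simp [hs, this]
  · intro hR
    refine Finset.prod_ne_zero_iff.2 fun i hi => ?_
    have : i ≠ j := Finset.ne_of_mem_erase hi
    simp [hs, this]
    linarith
  · intro G hG
    have e1 : {x : Sp d | x j ∈ D ∧ ∀ i, i ≠ j → x i ∈ Icc (-R) R} =
        (MeasurableEquiv.toLp 2 (Fin d → ℝ)).symm ⁻¹' (univ.pi s) := by
      ext x
      rw [mem_preimage, Set.mem_pi]
      constructor
      · rintro ⟨h1, h2⟩ i _
        by_cases h : i = j
        · subst h
          simpa [hs] using h1
        · simpa [hs, h] using h2 i h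
      · intro h
        refine ⟨by simpa [hs] using h j (mem_univ _), fun i hi => ?_⟩
        simpa [hs, hi] using h i (mem_univ _)
    have e2 : ∫⁻ x in {x : Sp d | x j ∈ D ∧ ∀ i, i ≠ j → x i ∈ Icc (-R) R}, G (x j) =
        ∫⁻ z in univ.pi s, G (z j) := by
      rw [e1]
      exact (EuclideanSpace.volume_preserving_symm_measurableEquiv_toLp
        (Fin d)).setLIntegral_comp_preimage_emb (MeasurableEquiv.measurableEmbedding _)
        (fun z => G (z j)) (univ.pi s)
    rw [e2, volume_pi, Measure.restrict_pi_pi]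
    have h3 := Measure.pi_map_eval (μ := fun i => (volume : Measure ℝ).restrict (s i)) j
    have hsj : s j = D := by simp [hs]
    have hG' : AEMeasurable G ((Measure.pi fun i => (volume : Measure ℝ).restrict (s i)).map
        (Function.eval j)) := by
      rw [h3, hsj]
      exact hG.smul_measure _
    have h4 := lintegral_map' hG' (measurable_pi_apply j).aemeasurable
    rw [h3, lintegral_smul_measure, hsj, smul_eq_mul] at h4
    rw [← h4]

theorem enorm_sq_eq (v : Sp d) : ‖v‖ₑ ^ 2 = ∑ k, ‖v k‖ₑ ^ 2 := by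
  have h := EuclideanSpace.norm_sq_eq v
  have h1 : ‖v‖ₑ ^ 2 = ENNReal.ofReal (‖v‖ ^ 2) := by
    rw [ENNReal.ofReal_pow (norm_nonneg _), ofReal_norm]
  rw [h1, h, ENNReal.ofReal_sum_of_nonneg fun i _ => by positivity]
  refine Finset.sum_congr rfl fun k _ => ?_
  rw [ENNReal.ofReal_pow (norm_nonneg _), ofReal_norm]

/-- Every bounded part of the slab lies in a box. -/
theorem subset_box {j : Fin d} {D : Set ℝ} {Ω : Set (Sp d)} (h : Ω ⊆ slab j D)
    (hb : Bornology.IsBounded Ω) :
    ∃ R : ℝ, 0 < R ∧ Ω ⊆ {x : Sp d | x j ∈ D ∧ ∀ i, i ≠ j → x i ∈ Icc (-R) R} := by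
  obtain ⟨R, hR0, hR⟩ := hb.exists_pos_norm_le
  refine ⟨R, hR0, fun x hx => ⟨h hx, fun i _ => ?_⟩⟩
  have h1 : ‖x i‖ ≤ ‖x‖ := PiLp.norm_apply_le x i
  have h2 := h1.trans (hR x hx)
  rw [Real.norm_eq_abs] at h2
  exact abs_le.1 h2

end

/-- The scalar profiles give a shear flow. -/
theorem stops_of {d : ℕ} (j : Fin d) {D W : Set ℝ} {Y T : ℝ} (hDm : MeasurableSet D)
    (hD : ∀ y ∈ D, |y| < Y) {U₀ : ℝ → Sp d}
    (hU : MemLp U₀ 2 (volume.restrict D)) {f : Fin d → ℝ → ℝ}
    (hf : ∀ k, ∀ᵐ y ∂(volume.restrict D), f k y = U₀ y k)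
    {V Vt Vy Vyy : Fin d → ℝ → ℝ → ℝ} {g : Fin d → ℝ → ℝ}
    (hV : ∀ k, Flow D Y T (f k) (V k) (Vt k) (Vy k) (Vyy k) (g k))
    (hW : ∀ k, ∀ t, ∀ y ∈ W, V k t y = 0) (hj : ∀ t y, V j t y = 0) :
    ∃ (u : ℝ → Sp d → Sp d) (p : ℝ → Sp d → ℝ), Stops j D W T U₀ u p ∧ Shear j D u := by
  have hO : IsOpen (Ioo (-Y) Y) := isOpen_Ioo
  have hmem : ∀ y, y ∈ Ioo (-Y) Y ↔ |y| < Y := fun y => by rw [abs_lt]; rfl
  set u : ℝ → Sp d → Sp d := fun t x => WithLp.toLp 2 fun k => V k t (x j) with hu
  set p : ℝ → Sp d → ℝ := fun t x => ∑ k, g k t * x k with hp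
  have huk : ∀ t x k, u t x k = V k t (x j) := fun t x k => rfl
  have hpd : ∀ t, 0 < t → ∀ x : Sp d, |x j| < Y → ∀ i k,
      pd i (fun y => u t y k) x = if i = j then Vy k t (x j) else 0 := fun t ht x hx i k =>
    pd_of (h := fun v => V k t v) (Eventually.of_forall fun y => rfl)
      ((hV k).dy t (x j) ht hx) i
  have hnear : ∀ x : Sp d, |x j| < Y → ∀ᶠ y : Sp d in 𝓝 x, |y j| < Y := by
    intro x hx
    have := (isOpen_slab j hO).mem_nhds (show x ∈ slab j (Ioo (-Y) Y) from (hmem _).2 hx)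
    filter_upwards [this] with y hy
    exact (hmem _).1 hy
  have hpd2 : ∀ t, 0 < t → ∀ x : Sp d, |x j| < Y → ∀ i k,
      pd i (pd i fun y => u t y k) x = if i = j then Vyy k t (x j) else 0 := by
    intro t ht x hx i k
    by_cases hij : i = j
    · rw [if_pos hij]
      have h1 : (pd i fun y => u t y k) =ᶠ[𝓝 x] fun y => Vy k t (y j) := by
        filter_upwards [hnear x hx] with y hy
        rw [hpd t ht y hy, if_pos hij]
      rw [pd_of h1 ((hV k).dyy t (x j) ht hx) i, if_pos hij]
    · rw [if_neg hij]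
      have h1 : (pd i fun y => u t y k) =ᶠ[𝓝 x] fun _ => 0 := by
        filter_upwards [hnear x hx] with y hy
        rw [hpd t ht y hy, if_neg hij]
      rw [pd, h1.fderiv_eq]
      simp
  have hVyj : ∀ t, 0 < t → ∀ y, |y| < Y → Vy j t y = 0 := by
    intro t ht y hy
    have h1 := (hV j).dy t y ht hy
    have h2 : (fun v => V j t v) = fun _ => 0 := funext fun v => hj t v
    rw [h2] at h1
    exact h1.unique (hasDerivAt_const y (0 : ℝ))
  have hpp : ∀ t (x : Sp d) k, pd k (p t) x = g k t := by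
    intro t x k
    have h1 : HasFDerivAt (p t)
        (∑ i, g i t • (EuclideanSpace.proj i : Sp d →L[ℝ] ℝ)) x := by
      have h2 : HasFDerivAt (fun y : Sp d => ∑ i, g i t * y i)
          (∑ i, g i t • (EuclideanSpace.proj i : Sp d →L[ℝ] ℝ)) x := by
        refine HasFDerivAt.fun_sum fun i _ => ?_
        exact ((EuclideanSpace.proj i : Sp d →L[ℝ] ℝ).hasFDerivAt).const_mul (g i t)
      exact h2
    rw [pd, h1.fderiv]
    simp [sum_apply]
  have hboxle : ∀ Ω ⊆ slab j D, Bornology.IsBounded Ω → ∃ c : ℝ≥0∞, c ≠ ⊤ ∧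
      ∀ G : ℝ → ℝ≥0∞, AEMeasurable G (volume.restrict D) →
        ∫⁻ x in Ω, G (x j) ≤ c * ∫⁻ y in D, G y := by
    intro Ω hΩ hb
    obtain ⟨R, hR, hsub⟩ := subset_box hΩ hb
    obtain ⟨c, hc, -, hG⟩ := box_lintegral j D hDm R
    refine ⟨c, hc, fun G hGm => ?_⟩
    rw [← hG G hGm]
    exact lintegral_mono_set hsub
  have hcont : ∀ k t, 0 < t → ContinuousOn (fun y => V k t y) D := fun k t ht y hy =>
    ((hV k).dy t y ht (hD y hy)).continuousAt.continuousWithinAt
  have hconty : ∀ k t, 0 < t → ContinuousOn (fun y => Vy k t y) D := fun k t ht y hy =>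
    ((hV k).dyy t y ht (hD y hy)).continuousAt.continuousWithinAt
  have hUk : ∀ k, AEMeasurable (fun y => U₀ y k) (volume.restrict D) := fun k =>
    (measurable_coord k).comp_aemeasurable hU.aestronglyMeasurable.aemeasurable
  refine ⟨u, p, ?_, ?_⟩
  · exact
    { smooth := by
        refine ⟨Ioo (-Y) Y, hO, fun y hy => (hmem y).2 (hD y hy), ?_, ?_⟩
        · rw [contDiffOn_euclidean]
          intro k
          have h1 : ContDiff ℝ ∞ fun z : ℝ × Sp d => ((z.1, z.2 j) : ℝ × ℝ) :=
            contDiff_fst.prodMk ((EuclideanSpace.proj j : Sp d →L[ℝ] ℝ).contDiff.comp contDiff_snd)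
          exact (hV k).smooth.comp h1.contDiffOn fun z hz => ⟨hz.1, (hmem _).1 hz.2⟩
        · refine ContDiffOn.sum fun k _ => ?_
          refine ContDiffOn.mul ?_ ?_
          · exact (hV k).gsmooth.comp contDiff_fst.contDiffOn fun z hz => hz.1
          · exact ((EuclideanSpace.proj k : Sp d →L[ℝ] ℝ).contDiff.comp contDiff_snd).contDiffOn
      momentum := by
        intro t ht x hx k
        have hx' : |x j| < Y := hD _ hx
        have h1 : deriv (fun s => u s x k) t = Vt k t (x j) := ((hV k).dt t (x j) ht hx').deriv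
        have h2 : ∑ i, u t x i * pd i (fun y => u t y k) x = 0 := by
          refine Finset.sum_eq_zero fun i _ => ?_
          rw [hpd t ht x hx']
          by_cases hij : i = j
          · rw [if_pos hij, huk, hij, hj, zero_mul]
          · rw [if_neg hij, mul_zero]
        have h3 : ∑ i, pd i (pd i fun y => u t y k) x = Vyy k t (x j) := by
          simp_rw [hpd2 t ht x hx']
          simp
        rw [h1, h2, h3, hpp, (hV k).heat]
        ring
      divfree := by
        intro t ht x hx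
        have hx' : |x j| < Y := hD _ hx
        refine Finset.sum_eq_zero fun i _ => ?_
        rw [hpd t ht x hx']
        by_cases hij : i = j
        · rw [if_pos hij, hij, hVyj t ht _ hx']
        · rw [if_neg hij]
      wall := by
        intro t ht x hx
        ext k
        rw [huk, hW k t _ hx]
        rfl
      rest := by
        intro t ht x hx
        ext k
        rw [huk, (hV k).zero t _ ht]
        rfl
      initial := by
        intro Ω hΩ _ hb
        obtain ⟨c, hc, hG⟩ := hboxle Ω hΩ hb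
        have hlim : Tendsto (fun t : ℝ => c * ∑ k, ∫⁻ y in D, ‖V k t y - f k y‖ₑ ^ 2)
            (𝓝[>] 0) (𝓝 0) := by
          have h1 : Tendsto (fun t : ℝ => ∑ k, ∫⁻ y in D, ‖V k t y - f k y‖ₑ ^ 2)
              (𝓝[>] 0) (𝓝 (∑ _k : Fin d, 0)) := tendsto_finsetSum _ fun k _ => (hV k).lim
          rw [Finset.sum_const_zero] at h1
          have h2 := ENNReal.Tendsto.const_mul (a := c) h1 (Or.inr hc)
          rwa [mul_zero] at h2
        refine tendsto_of_tendsto_of_tendsto_of_le_of_le' tendsto_const_nhds hlim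
          (Eventually.of_forall fun _ => bot_le) ?_
        filter_upwards [self_mem_nhdsWithin] with t ht
        have ht' : 0 < t := ht
        have hm : ∀ k, AEMeasurable (fun y => ‖V k t y - U₀ y k‖ₑ ^ 2) (volume.restrict D) :=
          fun k => ((((hcont k t ht').aemeasurable hDm).sub (hUk k)).enorm).pow_const 2
        calc ∫⁻ x in Ω, ‖u t x - U₀ (x j)‖ₑ ^ 2
            = ∫⁻ x in Ω, (fun y => ∑ k, ‖V k t y - U₀ y k‖ₑ ^ 2) (x j) := by
              refine lintegral_congr fun x => ?_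
              rw [enorm_sq_eq]
              rfl
          _ ≤ c * ∫⁻ y in D, ∑ k, ‖V k t y - U₀ y k‖ₑ ^ 2 := by
              refine hG _ ?_
              exact Finset.aemeasurable_fun_sum _ fun k _ => hm k
          _ = c * ∑ k, ∫⁻ y in D, ‖V k t y - U₀ y k‖ₑ ^ 2 := by
              rw [lintegral_finsetSum' _ fun k _ => hm k]
          _ = c * ∑ k, ∫⁻ y in D, ‖V k t y - f k y‖ₑ ^ 2 := by
              congr 1
              refine Finset.sum_congr rfl fun k _ => ?_
              refine lintegral_congr_ae ?_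
              filter_upwards [hf k] with y hy
              rw [hy]
      energy := by
        intro Ω hΩ _ hb
        obtain ⟨c, hc, hG⟩ := hboxle Ω hΩ hb
        have hm : ∀ t, 0 < t → ∀ k, AEMeasurable (fun y => ‖Vy k t y‖ₑ ^ 2) (volume.restrict D) :=
          fun t ht k => (((hconty k t ht).aemeasurable hDm).enorm).pow_const 2
        have h1 : ∀ t ∈ Ioi (0 : ℝ), ∫⁻ x in Ω, ∑ i, ∑ k, ‖pd i (fun y => u t y k) x‖ₑ ^ 2 ≤
            c * ∑ k, ∫⁻ y in D, ‖Vy k t y‖ₑ ^ 2 := by
          intro t ht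
          have ht' : 0 < t := ht
          calc ∫⁻ x in Ω, ∑ i, ∑ k, ‖pd i (fun y => u t y k) x‖ₑ ^ 2
              ≤ ∫⁻ x in Ω, (fun y => ∑ k, ‖Vy k t y‖ₑ ^ 2) (x j) := by
                refine setLIntegral_mono_ae' ‹MeasurableSet Ω› (Eventually.of_forall fun x hx => ?_)
                have hx' : |x j| < Y := hD _ (hΩ hx)
                have h2 : ∑ i, ∑ k, ‖pd i (fun y => u t y k) x‖ₑ ^ 2 =
                    ∑ k, ‖Vy k t (x j)‖ₑ ^ 2 := by
                  rw [Finset.sum_eq_single j]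
                  · refine Finset.sum_congr rfl fun k _ => ?_
                    rw [hpd t ht' x hx', if_pos rfl]
                  · intro i _ hij
                    refine Finset.sum_eq_zero fun k _ => ?_
                    rw [hpd t ht' x hx', if_neg hij]
                    simp
                  · intro h
                    exact absurd (Finset.mem_univ j) h
                exact h2.le
            _ ≤ c * ∫⁻ y in D, ∑ k, ‖Vy k t y‖ₑ ^ 2 := by
                refine hG _ ?_
                exact Finset.aemeasurable_fun_sum _ fun k _ => hm t ht' k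
            _ = _ := by rw [lintegral_finsetSum' _ fun k _ => hm t ht' k]
        have h2 : ∀ k, AEMeasurable (fun t : ℝ => ∫⁻ y in D, ‖Vy k t y‖ₑ ^ 2)
            (volume.restrict (Ioi 0)) := by
          intro k
          have h3 : AEMeasurable (fun q : ℝ × ℝ => ‖Vy k q.1 q.2‖ₑ ^ 2)
              ((volume.restrict (Ioi (0 : ℝ))).prod (volume.restrict D)) := by
            rw [Measure.prod_restrict]
            have h4 : ContinuousOn (fun q : ℝ × ℝ => Vy k q.1 q.2) (Ioi 0 ×ˢ D) :=
              (hV k).ycont.mono fun q hq => ⟨hq.1, hD _ hq.2⟩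
            exact ((h4.aemeasurable (measurableSet_Ioi.prod hDm)).enorm).pow_const 2
          exact h3.lintegral_prod_right'
        calc ∫⁻ t in Ioi (0 : ℝ), ∫⁻ x in Ω, ∑ i, ∑ k, ‖pd i (fun y => u t y k) x‖ₑ ^ 2
            ≤ ∫⁻ t in Ioi (0 : ℝ), c * ∑ k, ∫⁻ y in D, ‖Vy k t y‖ₑ ^ 2 :=
              setLIntegral_mono' measurableSet_Ioi h1
          _ = c * ∑ k, ∫⁻ t in Ioi (0 : ℝ), ∫⁻ y in D, ‖Vy k t y‖ₑ ^ 2 := by
              rw [lintegral_const_mul' _ _ hc, lintegral_finsetSum' _ fun k _ => h2 k]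
          _ < ⊤ := ENNReal.mul_lt_top (lt_top_iff_ne_top.2 hc)
              (ENNReal.sum_lt_top.2 fun k _ => (hV k).en) }
  · intro t _ x _ x' _ hxx
    ext k
    rw [huk, huk, hxx]

end Pool.Agent.Q61.NC
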