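import Pool.Agent.Q61.NC.Mode
import Pool.Agent.Q61.NC.Pos

/-!
# Between two walls only even profiles are stopped by shear flows
-/

set_option autoImplicit false

open Set Filter Topology MeasureTheory
open scoped ENNReal ContDiff

namespace Pool.Agent.Q61.NC

section

variable {d : ℕ}

theorem mem_slab {j : Fin d} {D : Set ℝ} {x : Sp d} : x ∈ slab j D ↔ x j ∈ D := Iff.rfl

/-- the derivative along a line -/
theorem hasDerivAt_line {f : Sp d → ℝ} {x : Sp d} (hf : DifferentiableAt ℝ f x) (i : Fin d) :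
    HasDerivAt (fun r : ℝ => f (x + r • EuclideanSpace.single i (1 : ℝ))) (pd i f x) 0 := by
  have h1 : HasDerivAt (fun r : ℝ => x + r • EuclideanSpace.single i (1 : ℝ))
      (EuclideanSpace.single i (1 : ℝ)) 0 := by
    have h := ((hasDerivAt_id (0 : ℝ)).smul_const (EuclideanSpace.single i (1 : ℝ))).const_add x
    simpa using h
  have h2 : HasFDerivAt f (fderiv ℝ f x)
      (x + (0 : ℝ) • EuclideanSpace.single i (1 : ℝ)) := by
    rw [zero_smul, add_zero]
    exact hf.hasFDerivAt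
  exact h2.comp_hasDerivAt (0 : ℝ) h1

theorem hasDerivAt_line' {f : Sp d → ℝ} {x : Sp d} {s : ℝ} (i : Fin d)
    (hf : DifferentiableAt ℝ f (x + s • EuclideanSpace.single i (1 : ℝ))) :
    HasDerivAt (fun r : ℝ => f (x + r • EuclideanSpace.single i (1 : ℝ)))
      (pd i f (x + s • EuclideanSpace.single i (1 : ℝ))) s := by
  have h1 : HasDerivAt (fun r : ℝ => x + r • EuclideanSpace.single i (1 : ℝ))
      (EuclideanSpace.single i (1 : ℝ)) s := by
    have h := ((hasDerivAt_id s).smul_const (EuclideanSpace.single i (1 : ℝ))).const_add x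
    simpa using h
  exact hf.hasFDerivAt.comp_hasDerivAt s h1

/-- If `p` does not depend on the coordinate `j` inside the slab then its other derivatives on the
axis do not depend on it either. -/
theorem pd_const {p : Sp d → ℝ} {j k : Fin d} (hkj : k ≠ j) {a : ℝ}
    (hd : ∀ x ∈ slab j (Ioo (-a) a), DifferentiableAt ℝ p x)
    (h0 : ∀ x ∈ slab j (Ioo (-a) a), pd j p x = 0) {y : ℝ} (hy : y ∈ Ioo (-a) a) :
    pd k p (y • EuclideanSpace.single j (1 : ℝ)) = pd k p 0 := by
  have ha : (0 : ℝ) ∈ Ioo (-a) a := by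
    have := hy.1.trans hy.2
    constructor <;> linarith
  set e : Sp d := EuclideanSpace.single j (1 : ℝ) with he
  set e' : Sp d := EuclideanSpace.single k (1 : ℝ) with he'
  have hej : e j = 1 := by simp [he]
  have hej' : e' j = 0 := by simp [he', hkj.symm]
  have hmem : ∀ (r s : ℝ), s ∈ Ioo (-a) a → (r • e' + s • e : Sp d) ∈ slab j (Ioo (-a) a) := by
    intro r s hs
    show (r • e' + s • e : Sp d) j ∈ Ioo (-a) a
    have : (r • e' + s • e : Sp d) j = s := by
      simp [hej, hej']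
    rw [this]
    exact hs
  have hc : ∀ r : ℝ, p (r • e' + y • e) = p (r • e' + (0 : ℝ) • e) := by
    intro r
    refine isOpen_Ioo.is_const_of_deriv_eq_zero (𝕜 := ℝ) isPreconnected_Ioo
      (f := fun s : ℝ => p (r • e' + s • e)) (s := Ioo (-a) a) ?_ ?_ hy ha
    · intro s hs
      exact (hasDerivAt_line' j (hd _ (hmem r s hs))).differentiableAt.differentiableWithinAt
    · intro s hs
      show deriv (fun s : ℝ => p (r • e' + s • e)) s = 0
      rw [(hasDerivAt_line' j (hd _ (hmem r s hs))).deriv]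
      exact h0 _ (hmem r s hs)
  have hy' : y • e ∈ slab j (Ioo (-a) a) := by
    have := hmem 0 y hy
    rwa [zero_smul, zero_add] at this
  have h0' : (0 : Sp d) ∈ slab j (Ioo (-a) a) := by
    have := hmem 0 0 ha
    rwa [zero_smul, zero_smul, zero_add] at this
  have h1 := hasDerivAt_line (hd _ hy') k
  have h2 := hasDerivAt_line (hd _ h0') k
  have h3 : (fun r : ℝ => p (y • e + r • e')) = fun r : ℝ => p (0 + r • e') := by
    funext r
    have := hc r
    rw [zero_smul, add_zero] at this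
    rw [add_comm, this, zero_add]
  rw [← he'] at h1 h2
  rw [h3] at h1
  exact h1.unique h2

theorem evens_of_stops {j : Fin d} {a T : ℝ} (ha : 0 < a) (hT : 0 < T) {U₀ : ℝ → Sp d}
    (h0 : ∀ y, U₀ y j = 0) (hU : MemLp U₀ 2 (volume.restrict (Icc (-a) a)))
    {u : ℝ → Sp d → Sp d} {p : ℝ → Sp d → ℝ}
    (S : Stops j (Icc (-a) a) {-a, a} T U₀ u p) (hS : Shear j (Icc (-a) a) u) :
    ∀ᵐ y ∂(volume.restrict (Icc (-a) a)), U₀ (-y) = U₀ y := by
  obtain ⟨O, hO, hDO, hus, hps⟩ := S.smooth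
  set e : Sp d := EuclideanSpace.single j (1 : ℝ) with he
  have hej : ∀ y : ℝ, (y • e) j = y := fun y => by simp [he]
  have hIcc : ∀ y ∈ Ioo (-a) a, y ∈ Icc (-a) a := fun y hy => Ioo_subset_Icc_self hy
  have hopen : IsOpen (Ioi (0 : ℝ) ×ˢ slab j O) := isOpen_Ioi.prod (isOpen_slab j hO)
  have hopen2 : IsOpen (Ioi (0 : ℝ) ×ˢ O) := isOpen_Ioi.prod hO
  have hIoo : IsOpen (slab j (Ioo (-a) a)) := isOpen_slab j isOpen_Ioo
  have haxis : ∀ y ∈ Icc (-a) a, y • e ∈ slab j (Icc (-a) a) := fun y hy => by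
    rw [mem_slab, hej]
    exact hy
  -- the profiles
  set Wf : Fin d → ℝ × ℝ → ℝ := fun k q => u q.1 (q.2 • e) k with hWf
  have hWs : ∀ k, ContDiffOn ℝ ∞ (Wf k) (Ioi 0 ×ˢ O) := by
    intro k
    have h1 : ContDiff ℝ ∞ fun q : ℝ × ℝ => ((q.1, q.2 • e) : ℝ × Sp d) :=
      contDiff_fst.prodMk (contDiff_snd.smul contDiff_const)
    have h2 : ContDiffOn ℝ ∞ (fun z : ℝ × Sp d => u z.1 z.2 k) (Ioi 0 ×ˢ slab j O) :=
      (contDiffOn_euclidean.1 hus) k
    refine h2.comp h1.contDiffOn fun q hq => ⟨hq.1, ?_⟩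
    show (q.2 • e) j ∈ O
    rw [hej]
    exact hq.2
  have hprof : ∀ t, 0 < t → ∀ x ∈ slab j (Icc (-a) a), ∀ k, u t x k = Wf k (t, x j) := by
    intro t ht x hx k
    have h1 := hS t ht x hx (x j • e) (haxis _ hx) (by rw [hej])
    rw [h1]
  have hWd : ∀ k, ∀ q ∈ Ioi (0 : ℝ) ×ˢ O, DifferentiableAt ℝ (Wf k) q := fun k q hq =>
    ((hWs k).differentiableOn (by simp)).differentiableAt (hopen2.mem_nhds hq)
  have hW1s : ∀ k, ContDiffOn ℝ ∞ (fderiv ℝ (Wf k)) (Ioi 0 ×ˢ O) := fun k =>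
    (hWs k).fderiv_of_isOpen hopen2 (by simp)
  have hW2s : ∀ k, ContDiffOn ℝ ∞ (fun q => fderiv ℝ (Wf k) q (0, 1)) (Ioi 0 ×ˢ O) := fun k =>
    (hW1s k).clm_apply contDiffOn_const
  have hW2d : ∀ k, ∀ q ∈ Ioi (0 : ℝ) ×ˢ O,
      DifferentiableAt ℝ (fun q => fderiv ℝ (Wf k) q (0, 1)) q := fun k q hq =>
    ((hW2s k).differentiableOn (by simp)).differentiableAt (hopen2.mem_nhds hq)
  have hW3s : ∀ k, ContDiffOn ℝ ∞ (fderiv ℝ fun q => fderiv ℝ (Wf k) q (0, 1)) (Ioi 0 ×ˢ O) :=
    fun k => (hW2s k).fderiv_of_isOpen hopen2 (by simp)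
  set Ut : Fin d → ℝ → ℝ → ℝ := fun k t y => fderiv ℝ (Wf k) (t, y) (1, 0) with hUt
  set Uy : Fin d → ℝ → ℝ → ℝ := fun k t y => fderiv ℝ (Wf k) (t, y) (0, 1) with hUy
  set Uyy : Fin d → ℝ → ℝ → ℝ := fun k t y =>
    fderiv ℝ (fun q => fderiv ℝ (Wf k) q (0, 1)) (t, y) (0, 1) with hUyy
  have hlt : ∀ (t y : ℝ), HasDerivAt (fun s : ℝ => ((s, y) : ℝ × ℝ)) ((1, 0) : ℝ × ℝ) t :=
    fun t y => (hasDerivAt_id t).prodMk (hasDerivAt_const t y)
  have hly : ∀ (t y : ℝ), HasDerivAt (fun v : ℝ => ((t, v) : ℝ × ℝ)) ((0, 1) : ℝ × ℝ) y :=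
    fun t y => (hasDerivAt_const y t).prodMk (hasDerivAt_id y)
  have hdt : ∀ k t, 0 < t → ∀ y ∈ O, HasDerivAt (fun s => Wf k (s, y)) (Ut k t y) t :=
    fun k t ht y hy => HasFDerivAt.comp_hasDerivAt (f := fun s : ℝ => ((s, y) : ℝ × ℝ)) t
      (hWd k (t, y) ⟨ht, hy⟩).hasFDerivAt (hlt t y)
  have hdy : ∀ k t, 0 < t → ∀ y ∈ O, HasDerivAt (fun v => Wf k (t, v)) (Uy k t y) y :=
    fun k t ht y hy => HasFDerivAt.comp_hasDerivAt (f := fun v : ℝ => ((t, v) : ℝ × ℝ)) y
      (hWd k (t, y) ⟨ht, hy⟩).hasFDerivAt (hly t y)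
  have hdyy : ∀ k t, 0 < t → ∀ y ∈ O, HasDerivAt (fun v => Uy k t v) (Uyy k t y) y :=
    fun k t ht y hy => HasFDerivAt.comp_hasDerivAt (f := fun v : ℝ => ((t, v) : ℝ × ℝ)) y
      (hW2d k (t, y) ⟨ht, hy⟩).hasFDerivAt (hly t y)
  have hOi : ∀ y ∈ Ioo (-a) a, y ∈ O := fun y hy => hDO (hIcc y hy)
  -- partial derivatives of the velocity inside the slab
  have hpd : ∀ k t, 0 < t → ∀ x ∈ slab j (Ioo (-a) a), ∀ i,
      pd i (fun y => u t y k) x = if i = j then Uy k t (x j) else 0 := by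
    intro k t ht x hx i
    refine pd_of (h := fun v => Wf k (t, v)) ?_ (hdy k t ht _ (hOi _ hx)) i
    filter_upwards [hIoo.mem_nhds hx] with z hz
    exact hprof t ht z (hIcc _ hz) k
  have hpd2 : ∀ k t, 0 < t → ∀ x ∈ slab j (Ioo (-a) a), ∀ i,
      pd i (pd i fun y => u t y k) x = if i = j then Uyy k t (x j) else 0 := by
    intro k t ht x hx i
    by_cases hij : i = j
    · rw [if_pos hij]
      have h1 : (pd i fun y => u t y k) =ᶠ[𝓝 x] fun y => Uy k t (y j) := by
        filter_upwards [hIoo.mem_nhds hx] with y hy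
        rw [hpd k t ht y hy, if_pos hij]
      rw [pd_of h1 (hdyy k t ht _ (hOi _ hx)) i, if_pos hij]
    · rw [if_neg hij]
      have h1 : (pd i fun y => u t y k) =ᶠ[𝓝 x] fun _ => 0 := by
        filter_upwards [hIoo.mem_nhds hx] with y hy
        rw [hpd k t ht y hy, if_neg hij]
      rw [pd, h1.fderiv_eq]
      simp
  have hdtu : ∀ k t, 0 < t → ∀ x ∈ slab j (Ioo (-a) a),
      deriv (fun s => u s x k) t = Ut k t (x j) := by
    intro k t ht x hx
    have h1 : (fun s => u s x k) =ᶠ[𝓝 t] fun s => Wf k (s, x j) := by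
      filter_upwards [Ioi_mem_nhds ht] with s hs
      exact hprof s hs x (hIcc _ hx) k
    rw [h1.deriv_eq]
    exact (hdt k t ht _ (hOi _ hx)).deriv
  have hwallW : ∀ k t, 0 < t → Wf k (t, a) = 0 ∧ Wf k (t, -a) = 0 := by
    intro k t ht
    have h1 : ∀ y ∈ ({-a, a} : Set ℝ), u t (y • e) = 0 := fun y hy =>
      S.wall t ht _ (by rw [mem_slab, hej]; exact hy)
    constructor
    · show u t (a • e) k = 0
      rw [h1 a (by simp)]
      rfl
    · show u t ((-a) • e) k = 0
      rw [h1 (-a) (by simp)]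
      rfl
  -- the normal component vanishes
  have hUyj : ∀ t, 0 < t → ∀ y ∈ Ioo (-a) a, Uy j t y = 0 := by
    intro t ht y hy
    have hx : y • e ∈ slab j (Ioo (-a) a) := by
      rw [mem_slab, hej]
      exact hy
    have h1 := S.divfree t ht (y • e) (haxis y (hIcc y hy))
    rw [Finset.sum_eq_single j] at h1
    · rw [hpd j t ht _ hx, if_pos rfl, hej] at h1
      exact h1
    · intro i _ hij
      rw [hpd i t ht _ hx, if_neg hij]
    · intro h
      exact absurd (Finset.mem_univ j) h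
  have hWj : ∀ t, 0 < t → ∀ y ∈ Icc (-a) a, Wf j (t, y) = 0 := by
    intro t ht y hy
    rcases eq_or_lt_of_le hy.2 with h | h
    · rw [h]
      exact (hwallW j t ht).1
    · obtain ⟨c, hc, hce⟩ := exists_hasDerivAt_eq_slope (fun v => Wf j (t, v)) (fun v => Uy j t v) h
        (fun v hv => (hdy j t ht v (hDO ⟨hy.1.trans hv.1, hv.2⟩)).continuousAt.continuousWithinAt)
        (fun v hv => hdy j t ht v (hDO ⟨hy.1.trans hv.1.le, hv.2.le⟩))
      rw [hUyj t ht c ⟨lt_of_le_of_lt hy.1 hc.1, hc.2⟩, (hwallW j t ht).1, eq_comm,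
        div_eq_zero_iff] at hce
      rcases hce with h2 | h2
      · linarith
      · linarith
  have hUtj : ∀ t, 0 < t → ∀ y ∈ Ioo (-a) a, Ut j t y = 0 := by
    intro t ht y hy
    have h1 := hdt j t ht y (hOi y hy)
    have h2 : (fun s => Wf j (s, y)) =ᶠ[𝓝 t] fun _ => 0 := by
      filter_upwards [Ioi_mem_nhds ht] with s hs
      exact hWj s hs y (hIcc y hy)
    rw [← h1.deriv, h2.deriv_eq]
    simp
  have hUyyj : ∀ t, 0 < t → ∀ y ∈ Ioo (-a) a, Uyy j t y = 0 := by
    intro t ht y hy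
    have h1 := hdyy j t ht y (hOi y hy)
    have h2 : (fun v => Uy j t v) =ᶠ[𝓝 y] fun _ => 0 := by
      filter_upwards [isOpen_Ioo.mem_nhds hy] with v hv
      exact hUyj t ht v hv
    rw [← h1.deriv, h2.deriv_eq]
    simp
  have hconv : ∀ k t, 0 < t → ∀ x ∈ slab j (Ioo (-a) a),
      ∑ i, u t x i * pd i (fun y => u t y k) x = 0 := by
    intro k t ht x hx
    refine Finset.sum_eq_zero fun i _ => ?_
    rw [hpd k t ht x hx]
    by_cases hij : i = j
    · rw [hij, hprof t ht x (hIcc _ hx) j, hWj t ht _ (hIcc _ hx), zero_mul]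
    · rw [if_neg hij, mul_zero]
  have hlap : ∀ k t, 0 < t → ∀ x ∈ slab j (Ioo (-a) a),
      ∑ i, pd i (pd i fun y => u t y k) x = Uyy k t (x j) := by
    intro k t ht x hx
    rw [Finset.sum_eq_single j]
    · rw [hpd2 k t ht x hx, if_pos rfl]
    · intro i _ hij
      rw [hpd2 k t ht x hx, if_neg hij]
    · intro h
      exact absurd (Finset.mem_univ j) h
  have hmom : ∀ k t, 0 < t → ∀ x ∈ slab j (Ioo (-a) a),
      Ut k t (x j) - Uyy k t (x j) + pd k (p t) x = 0 := by
    intro k t ht x hx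
    have h1 := S.momentum t ht x (hIcc _ hx) k
    rw [hdtu k t ht x hx, hconv k t ht x hx, hlap k t ht x hx] at h1
    linarith
  have hpdiff : ∀ t, 0 < t → ∀ x ∈ slab j (Ioo (-a) a), DifferentiableAt ℝ (p t) x := by
    intro t ht x hx
    have h1 : DifferentiableAt ℝ (fun z : ℝ × Sp d => p z.1 z.2) (t, x) :=
      (hps.differentiableOn (by simp)).differentiableAt (hopen.mem_nhds ⟨ht, hOi _ hx⟩)
    exact h1.comp x ((differentiableAt_const t).prodMk differentiableAt_id)
  have hpj : ∀ t, 0 < t → ∀ x ∈ slab j (Ioo (-a) a), pd j (p t) x = 0 := by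
    intro t ht x hx
    have h1 := hmom j t ht x hx
    rw [hUtj t ht _ hx, hUyyj t ht _ hx] at h1
    linarith
  -- the equation for the profiles
  have heq : ∀ k, k ≠ j → ∀ t, 0 < t → ∀ y ∈ Ioo (-a) a,
      Uyy k t y = Ut k t y + pd k (p t) 0 := by
    intro k hkj t ht y hy
    have hx : y • e ∈ slab j (Ioo (-a) a) := by
      rw [mem_slab, hej]
      exact hy
    have h1 := hmom k t ht _ hx
    rw [hej, pd_const hkj (hpdiff t ht) (hpj t ht) hy] at h1
    linarith
  -- the limit at time zero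
  have hDm : MeasurableSet (Icc (-a) a) := measurableSet_Icc
  obtain ⟨c, hc, hc0, hG⟩ := box_lintegral j (Icc (-a) a) hDm 1
  have hc0' := hc0 one_pos
  set B : Set (Sp d) := {x : Sp d | x j ∈ Icc (-a) a ∧ ∀ i, i ≠ j → x i ∈ Icc (-(1 : ℝ)) 1} with hB
  have hBm : MeasurableSet B := by
    have : B = (fun x : Sp d => x j) ⁻¹' Icc (-a) a ∩
        ⋂ i : Fin d, {x : Sp d | i ≠ j → x i ∈ Icc (-(1 : ℝ)) 1} := by
      ext x
      simp [hB]
    rw [this]
    refine ((measurable_coord j) hDm).inter (MeasurableSet.iInter fun i => ?_)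
    by_cases hij : i = j
    · have : {x : Sp d | i ≠ j → x i ∈ Icc (-(1 : ℝ)) 1} = univ := by
        ext x
        simp [hij]
      rw [this]
      exact MeasurableSet.univ
    · have : {x : Sp d | i ≠ j → x i ∈ Icc (-(1 : ℝ)) 1} =
          (fun x : Sp d => x i) ⁻¹' Icc (-(1 : ℝ)) 1 := by
        ext x
        simp [hij]
      rw [this]
      exact (measurable_coord i) measurableSet_Icc
  have hBb : Bornology.IsBounded B := by
    rw [isBounded_iff_forall_norm_le]
    refine ⟨√(∑ _i : Fin d, (a + 1) ^ 2), fun x hx => ?_⟩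
    rw [EuclideanSpace.norm_eq]
    refine Real.sqrt_le_sqrt (Finset.sum_le_sum fun i _ => ?_)
    have h1 : ‖x i‖ ≤ a + 1 := by
      rw [Real.norm_eq_abs]
      by_cases hij : i = j
      · rw [hij]
        have := abs_le.2 hx.1
        linarith
      · have := abs_le.2 (hx.2 i hij)
        linarith
    have h2 := norm_nonneg (x i)
    gcongr
  have hinit := S.initial B (fun x hx => hx.1) hBm hBb
  have hUk : ∀ k, AEMeasurable (fun y => U₀ y k) (volume.restrict (Icc (-a) a)) := fun k =>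
    (measurable_coord k).comp_aemeasurable hU.aestronglyMeasurable.aemeasurable
  have hcontW : ∀ k t, 0 < t → ContinuousOn (fun y => Wf k (t, y)) (Icc (-a) a) :=
    fun k t ht y hy => (hdy k t ht y (hDO hy)).continuousAt.continuousWithinAt
  have hlim : ∀ k, Tendsto (fun t : ℝ => ∫⁻ y in Icc (-a) a, ‖Wf k (t, y) - U₀ y k‖ₑ ^ 2)
      (𝓝[>] 0) (𝓝 0) := by
    intro k
    have h1 : Tendsto (fun t : ℝ => c⁻¹ * ∫⁻ x in B, ‖u t x - U₀ (x j)‖ₑ ^ 2) (𝓝[>] 0)
        (𝓝 0) := by
      have h2 := ENNReal.Tendsto.const_mul (a := c⁻¹) hinit (Or.inr (ENNReal.inv_ne_top.2 hc0'))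
      rwa [mul_zero] at h2
    refine tendsto_of_tendsto_of_tendsto_of_le_of_le' tendsto_const_nhds h1
      (Eventually.of_forall fun _ => bot_le) ?_
    filter_upwards [self_mem_nhdsWithin] with t ht
    have ht' : 0 < t := ht
    have hm : ∀ k, AEMeasurable (fun y => ‖Wf k (t, y) - U₀ y k‖ₑ ^ 2)
        (volume.restrict (Icc (-a) a)) := fun k =>
      ((((hcontW k t ht').aemeasurable hDm).sub (hUk k)).enorm).pow_const 2
    have h3 : ∫⁻ x in B, ‖u t x - U₀ (x j)‖ₑ ^ 2 =
        c * ∫⁻ y in Icc (-a) a, ∑ k, ‖Wf k (t, y) - U₀ y k‖ₑ ^ 2 := by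
      rw [← hG _ (Finset.aemeasurable_fun_sum _ fun k _ => hm k)]
      refine setLIntegral_congr_fun hBm fun x hx => ?_
      show ‖u t x - U₀ (x j)‖ₑ ^ 2 = ∑ k, ‖Wf k (t, x j) - U₀ (x j) k‖ₑ ^ 2
      rw [enorm_sq_eq]
      refine Finset.sum_congr rfl fun k _ => ?_
      rw [← hprof t ht' x hx.1 k]
      rfl
    rw [h3, ← mul_assoc, ENNReal.inv_mul_cancel hc0' hc, one_mul]
    refine lintegral_mono fun y => ?_
    exact Finset.single_le_sum (f := fun k => ‖Wf k (t, y) - U₀ y k‖ₑ ^ 2)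
      (fun i _ => bot_le) (Finset.mem_univ k)
  -- evenness of each component
  have hcomp : ∀ k, ∀ᵐ y ∂(volume.restrict (Icc (-a) a)), U₀ (-y) k = U₀ y k := by
    intro k
    by_cases hkj : k = j
    · exact Eventually.of_forall fun y => by rw [hkj, h0, h0]
    · have hfk : MemLp (fun y => U₀ y k) 2 (volume.restrict (Icc (-a) a)) :=
        (EuclideanSpace.proj k : Sp d →L[ℝ] ℝ).comp_memLp' hU
      refine even_of_modes ha hfk fun n => ?_
      have haa : -a ≤ a := by linarith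
      have hvol : volume (Icc (-a) a) < ⊤ := by simp
      have hsin : Continuous fun y : ℝ => Real.sin (om (2 * a) n * y) := by fun_prop
      have hml := mode_limit (D := Icc (-a) a) hvol (f := fun y => U₀ y k)
        (U := fun t y => Wf k (t, y)) (s := fun y => Real.sin (om (2 * a) n * y))
        (fun y => Real.abs_sin_le_one _) ?_ ?_ ?_ (hlim k)
      · rw [intervalIntegral.integral_of_le haa, ← integral_Icc_eq_integral_Ioc]
        exact hml
      · refine Integrable.mul_bdd (c := 1) (hfk.integrable one_le_two)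
          hsin.aestronglyMeasurable (Eventually.of_forall fun y => Real.abs_sin_le_one _)
      · intro t ht
        exact ((hcontW k t ht).mul hsin.continuousOn).integrableOn_compact isCompact_Icc
      · intro t ht
        have h1 := mode_zero ha hT (U := fun t y => Wf k (t, y)) (Ut := Ut k) (Uy := Uy k)
          (Uyy := Uyy k) (P := fun t => pd k (p t) 0)
          (fun t ht y hy => hdt k t ht y (hDO hy)) (fun t ht y hy => hdy k t ht y (hDO hy))
          (fun t ht y hy => hdyy k t ht y (hDO hy))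
          ?_ ?_ (heq k hkj) (hwallW k) ?_ n ht
        · rw [intervalIntegral.integral_of_le haa, ← integral_Icc_eq_integral_Ioc] at h1
          exact h1
        · have h2 := ((hW1s k).continuousOn).mono
            (prod_mono_right hDO : Ioi (0 : ℝ) ×ˢ Icc (-a) a ⊆ Ioi 0 ×ˢ O)
          exact h2.clm_apply continuousOn_const
        · intro t ht
          have h2 := ((hW3s k).continuousOn).comp
            (by fun_prop : Continuous fun y : ℝ => ((t, y) : ℝ × ℝ)).continuousOn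
            (fun y (hy : y ∈ Icc (-a) a) => (⟨ht, hDO hy⟩ : (t, y) ∈ Ioi (0 : ℝ) ×ˢ O))
          exact h2.clm_apply continuousOn_const
        · intro y hy
          show u T (y • e) k = 0
          rw [S.rest T le_rfl _ (haxis y hy)]
          rfl
  have hall : ∀ᵐ y ∂(volume.restrict (Icc (-a) a)), ∀ k, U₀ (-y) k = U₀ y k :=
    ae_all_iff.2 hcomp
  filter_upwards [hall] with y hy
  ext k
  exact hy k

end

end Pool.Agent.Q61.NC
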