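import Pool.Agent.Q61.NC.Defs

/-!
# Parallel flows in round pipes stopped in finite time
-/

set_option autoImplicit false

open Set Filter Topology
open scoped ContDiff

namespace Pool.Agent.Q61.NC

/-- The closed round pipe of radius `R` around the axis of the coordinate `2`. -/
def pipe (R : ℝ) : Set (Sp 3) := {x | x 0 ^ 2 + x 1 ^ 2 ≤ R ^ 2}

/-- `(u, p)` is, for positive times, a smooth solution of the Navier-Stokes equations with unit
viscosity on (a neighbourhood of) the closed pipe of radius `R`. It is parallel to the axis,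
vanishes on the whole wall of the pipe, converges uniformly to `U₀` as the time tends to zero, has
bounded first derivatives in space, and is at rest from time `T` on. -/
structure PipeStops (R T : ℝ) (U₀ : Sp 3 → Sp 3) (u : ℝ → Sp 3 → Sp 3) (p : ℝ → Sp 3 → ℝ) :
    Prop where
  smooth : ∃ R' : ℝ, R < R' ∧
    ContDiffOn ℝ ∞ (fun z : ℝ × Sp 3 => u z.1 z.2) (Ioi 0 ×ˢ pipe R') ∧
    ContDiffOn ℝ ∞ (fun z : ℝ × Sp 3 => p z.1 z.2) (Ioi 0 ×ˢ pipe R')
  momentum : ∀ t, 0 < t → ∀ x ∈ pipe R, ∀ k,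
    deriv (fun s => u s x k) t + ∑ i, u t x i * pd i (fun y => u t y k) x
      - ∑ i, pd i (pd i fun y => u t y k) x + pd k (p t) x = 0
  divfree : ∀ t, 0 < t → ∀ x ∈ pipe R, ∑ i, pd i (fun y => u t y i) x = 0
  parallel : ∀ t, 0 < t → ∀ x ∈ pipe R, u t x 0 = 0 ∧ u t x 1 = 0
  wall : ∀ t, 0 < t → ∀ x : Sp 3, x 0 ^ 2 + x 1 ^ 2 = R ^ 2 → u t x = 0
  rest : ∀ t, T ≤ t → ∀ x ∈ pipe R, u t x = 0
  initial : ∀ ε : ℝ, 0 < ε → ∃ δ : ℝ, 0 < δ ∧ ∀ t, 0 < t → t < δ → ∀ x ∈ pipe R,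
    ‖u t x - U₀ x‖ ≤ ε
  gradient : ∃ K : ℝ, ∀ t, 0 < t → ∀ x ∈ pipe R, ∀ i k, |pd i (fun y => u t y k) x| ≤ K

end Pool.Agent.Q61.NC
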