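import Pool.Agent.Q61.NC.Four
import Pool.Agent.Q61.NC.Pos
import Pool.Agent.Q61.NC.PDefs

/-!
# Stopping the flow in a round pipe
-/

set_option autoImplicit false

open Set Filter Topology
open scoped ContDiff

namespace Pool.Agent.Q61.NC

/-- The controlled profile as a function of the square of the radius. -/
structure RFlow (R T : ℝ) (h : ℝ → ℝ) (Φ Φt Φr Φrr : ℝ → ℝ → ℝ) : Prop where
  smooth : ContDiffOn ℝ ∞ (fun q : ℝ × ℝ => Φ q.1 q.2) (Dom ((2 * R) ^ 2))
  tsmooth : ContDiffOn ℝ ∞ (fun q : ℝ × ℝ => Φt q.1 q.2) (Dom ((2 * R) ^ 2))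
  dt : ∀ t ρ, 0 < t → |ρ| < (2 * R) ^ 2 → HasDerivAt (fun s => Φ s ρ) (Φt t ρ) t
  dr : ∀ t ρ, 0 < t → |ρ| < (2 * R) ^ 2 → HasDerivAt (fun v => Φ t v) (Φr t ρ) ρ
  drr : ∀ t ρ, 0 < t → |ρ| < (2 * R) ^ 2 → HasDerivAt (fun v => Φr t v) (Φrr t ρ) ρ
  heat : ∀ t ρ, 0 < t → |ρ| < (2 * R) ^ 2 → 4 * ρ * Φrr t ρ + 4 * Φr t ρ = Φt t ρ
  zero : ∀ t ρ, T ≤ t → Φ t ρ = 0
  conv : ∀ ε : ℝ, 0 < ε → ∃ δ : ℝ, 0 < δ ∧ ∀ t, 0 < t → t < δ → ∀ r : ℝ, |r| ≤ R →
    |Φ t (r ^ 2) - h (r ^ 2)| ≤ ε
  grad : ∃ K : ℝ, 0 ≤ K ∧ ∀ t, 0 < t → ∀ r : ℝ, |r| ≤ R → |2 * r * Φr t (r ^ 2)| ≤ K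

theorem rflow {R T : ℝ} (hR : 0 < R) (hT : 0 < T) {h : ℝ → ℝ} (hh : ContDiff ℝ 4 h) :
    ∃ Φ Φt Φr Φrr : ℝ → ℝ → ℝ, RFlow R T h Φ Φt Φr Φrr := by
  have hL : 0 < 4 * R := by positivity
  have hY : 0 < 2 * R := by positivity
  obtain ⟨α, hα, hser⟩ := bessel_series hR hh
  have hα1 : Summable fun k => |α k| := by
    refine Summable.of_nonneg_of_le (fun k => abs_nonneg _) (fun k => ?_) hα
    have := abs_nonneg (α k)
    have := abs_nonneg (om (4 * R) k)
    nlinarith
  have hα2 : Summable fun k => |α k| * |om (4 * R) k| := by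
    refine Summable.of_nonneg_of_le (fun k => by positivity) (fun k => ?_) hα
    have := abs_nonneg (α k)
    have := abs_nonneg (om (4 * R) k)
    nlinarith
  set M : ℝ := ∑' k, |α k| with hM
  have hM0 : 0 ≤ M := tsum_nonneg fun k => abs_nonneg _
  have hb' : ∀ k, |α k| ≤ M * (1 + lam (4 * R) k) := by
    intro k
    have h1 : |α k| ≤ M := hα1.le_tsum k fun j _ => abs_nonneg _
    have h2 := lam_nonneg (4 * R) k
    nlinarith
  set Z := cj (4 * R) T (2 * R) α with hZ
  have hg : Good (2 * R) Z := cj_good hL hT hY hM0 hb'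
  have hleft : ∀ i t, 0 < t → t ≤ T / 2 → Z i t = fr (4 * R) α i t := fun i t h0 h1 =>
    cj_left hY α i h0 h1
  have hright : ∀ i t, T ≤ t → Z i t = 0 := fun i t h => cj_right hT hY α i h
  have hfree : ∀ t, 0 < t → t ≤ T / 2 → ∀ r : ℝ, SB 0 Z t (r ^ 2) =
      ∑' k : ℤ, α k * Real.exp (-(lam (4 * R) k * t)) * Jb (om (4 * R) k * r) := by
    intro t h0 h1 r
    rw [SB_congr 0 (fun i => hleft i t h0 h1), SB_fr hL hM0 hb' h0]
  have hexp : ∀ t, 0 < t → ∀ k : ℤ, 0 < Real.exp (-(lam (4 * R) k * t)) ∧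
      Real.exp (-(lam (4 * R) k * t)) ≤ 1 := by
    intro t ht k
    refine ⟨Real.exp_pos _, ?_⟩
    rw [Real.exp_le_one_iff]
    have := lam_nonneg (4 * R) k
    nlinarith
  have hsumf : ∀ t, 0 < t → ∀ r : ℝ, Summable fun k : ℤ =>
      α k * Real.exp (-(lam (4 * R) k * t)) * Jb (om (4 * R) k * r) := by
    intro t ht r
    refine Summable.of_norm_bounded hα1 fun k => ?_
    rw [norm_mul, norm_mul, Real.norm_eq_abs, Real.norm_eq_abs, Real.norm_eq_abs,
      abs_of_pos (hexp t ht k).1]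
    have h1 := (hexp t ht k).2
    have h2 := Jb_abs (om (4 * R) k * r)
    have h3 := (hexp t ht k).1
    calc |α k| * Real.exp (-(lam (4 * R) k * t)) * |Jb (om (4 * R) k * r)|
        ≤ |α k| * 1 * 1 := by gcongr
      _ = |α k| := by ring
  refine ⟨SB 0 Z, SB 0 (sh Z), fun t ρ => 1 / 4 * SB 1 (sh Z) t ρ,
    fun t ρ => 1 / 4 * (1 / 4 * SB 2 (sh (sh Z)) t ρ), ?_⟩
  exact
    { smooth := smooth_SB hY 0 hg
      tsmooth := smooth_SB hY 0 (hg.shift hY)
      dt := fun t ρ ht hρ => SB_dt hY 0 hg ht hρ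
      dr := fun t ρ ht hρ => SB_dr hY 0 hg ht hρ
      drr := fun t ρ ht hρ => (SB_dr hY 1 (hg.shift hY) ht hρ).const_mul (1 / 4)
      heat := fun t ρ ht hρ => SB_heat hY hg ht hρ
      zero := fun t ρ ht => SB_of_zero 0 (fun i => hright i t ht) ρ
      conv := by
        have hE : Tendsto (fun t : ℝ => ∑' k : ℤ, |α k| *
            (1 - Real.exp (-(lam (4 * R) k * t)))) (𝓝[>] 0) (𝓝 (∑' _k : ℤ, (0 : ℝ))) := by
          refine tendsto_tsum_of_dominated_convergence hα1 (fun k => ?_) ?_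
          · have hc : Continuous fun t : ℝ => |α k| * (1 - Real.exp (-(lam (4 * R) k * t))) := by
              fun_prop
            have h1 := hc.tendsto 0
            simp only [mul_zero, neg_zero, Real.exp_zero, sub_self] at h1
            exact h1.mono_left nhdsWithin_le_nhds
          · filter_upwards [self_mem_nhdsWithin] with t ht k
            have h1 := hexp t ht k
            rw [norm_mul, Real.norm_eq_abs, Real.norm_eq_abs, abs_abs,
              abs_of_nonneg (by linarith [h1.2] : 0 ≤ 1 - Real.exp (-(lam (4 * R) k * t)))]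
            have h2 := abs_nonneg (α k)
            nlinarith [h1.1]
        rw [tsum_zero] at hE
        intro ε hε
        have h1 : ∀ᶠ t in 𝓝[>] (0 : ℝ), ∑' k : ℤ, |α k| *
            (1 - Real.exp (-(lam (4 * R) k * t))) < ε := (tendsto_order.1 hE).2 ε hε
        obtain ⟨δ, hδ, hsub⟩ := mem_nhdsGT_iff_exists_Ioo_subset.1 h1
        have hδ' : 0 < δ := hδ
        refine ⟨min δ (T / 2), lt_min hδ' (by linarith), fun t h0 h2 r hr => ?_⟩
        have h3 : ∑' k : ℤ, |α k| * (1 - Real.exp (-(lam (4 * R) k * t))) < ε :=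
          hsub ⟨h0, h2.trans_le (min_le_left _ _)⟩
        refine le_trans ?_ h3.le
        rw [hfree t h0 (h2.trans_le (min_le_right _ _)).le r, ← (hser r hr).tsum_eq,
          ← (hsumf t h0 r).tsum_sub (hser r hr).summable]
        have hs : Summable fun k : ℤ => |α k| * (1 - Real.exp (-(lam (4 * R) k * t))) := by
          refine Summable.of_nonneg_of_le (fun k => ?_) (fun k => ?_) hα1
          · have := (hexp t h0 k).2
            exact mul_nonneg (abs_nonneg _) (by linarith)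
          · have := (hexp t h0 k).1
            have h4 := abs_nonneg (α k)
            nlinarith
        rw [← Real.norm_eq_abs]
        refine tsum_of_norm_bounded hs.hasSum fun k => ?_
        have e : α k * Real.exp (-(lam (4 * R) k * t)) * Jb (om (4 * R) k * r) -
            α k * Jb (om (4 * R) k * r) =
            -(α k * (1 - Real.exp (-(lam (4 * R) k * t))) * Jb (om (4 * R) k * r)) := by ring
        have h5 : 0 ≤ 1 - Real.exp (-(lam (4 * R) k * t)) := by linarith [(hexp t h0 k).2]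
        rw [e, norm_neg, norm_mul, norm_mul, Real.norm_eq_abs, Real.norm_eq_abs, Real.norm_eq_abs,
          abs_of_nonneg h5]
        have h6 := Jb_abs (om (4 * R) k * r)
        calc |α k| * (1 - Real.exp (-(lam (4 * R) k * t))) * |Jb (om (4 * R) k * r)|
            ≤ |α k| * (1 - Real.exp (-(lam (4 * R) k * t))) * 1 := by gcongr
          _ = _ := mul_one _
      grad := by
        -- small times
        set K : ℝ := ∑' k, |α k| * |om (4 * R) k| with hK
        have hK0 : 0 ≤ K := tsum_nonneg fun k => by positivity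
        have hlip : ∀ t, 0 < t → t ≤ T / 2 → ∀ r r' : ℝ,
            |SB 0 Z t (r ^ 2) - SB 0 Z t (r' ^ 2)| ≤ K * |r - r'| := by
          intro t h0 h1 r r'
          rw [hfree t h0 h1, hfree t h0 h1, ← (hsumf t h0 r).tsum_sub (hsumf t h0 r'), hK,
            ← tsum_mul_right, ← Real.norm_eq_abs]
          refine tsum_of_norm_bounded (hα2.mul_right _).hasSum fun k => ?_
          rw [← mul_sub, norm_mul, norm_mul, Real.norm_eq_abs, Real.norm_eq_abs, Real.norm_eq_abs,
            abs_of_pos (hexp t h0 k).1]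
          have h2 := Jb_lip (om (4 * R) k * r) (om (4 * R) k * r')
          rw [← mul_sub, abs_mul] at h2
          have h3 := (hexp t h0 k).2
          have h4 := (hexp t h0 k).1
          calc |α k| * Real.exp (-(lam (4 * R) k * t)) *
                |Jb (om (4 * R) k * r) - Jb (om (4 * R) k * r')|
              ≤ |α k| * 1 * (|om (4 * R) k| * |r - r'|) := by gcongr
            _ = _ := by ring
        have hdom : ∀ r : ℝ, |r| ≤ R → |r ^ 2| < (2 * R) ^ 2 := by
          intro r hr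
          rw [abs_pow]
          have h1 : |r| ^ 2 ≤ R ^ 2 := pow_le_pow_left₀ (abs_nonneg r) hr 2
          nlinarith
        have hsq : ∀ r : ℝ, HasDerivAt (fun r : ℝ => r ^ 2) (2 * r) r := by
          intro r
          simpa using hasDerivAt_pow 2 r
        have hsmall : ∀ t, 0 < t → t ≤ T / 2 → ∀ r : ℝ, |r| ≤ R →
            |2 * r * (1 / 4 * SB 1 (sh Z) t (r ^ 2))| ≤ K := by
          intro t h0 h1 r hr
          have h2 : HasDerivAt (fun r : ℝ => SB 0 Z t (r ^ 2))
              (1 / 4 * SB 1 (sh Z) t (r ^ 2) * (2 * r)) r :=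
            HasDerivAt.comp (h₂ := fun v => SB 0 Z t v) (h := fun r : ℝ => r ^ 2) r
              (SB_dr hY 0 hg h0 (hdom r hr)) (hsq r)
          have h3 := h2.le_of_lip' hK0 (Eventually.of_forall fun x => by
            rw [Real.norm_eq_abs, Real.norm_eq_abs]
            exact hlip t h0 h1 x r)
          rw [Real.norm_eq_abs] at h3
          rw [mul_comm]
          exact h3
        -- large times
        have hcomp : IsCompact (Icc (T / 2) T ×ˢ Icc 0 (R ^ 2)) := isCompact_Icc.prod isCompact_Icc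
        have hsub : Icc (T / 2) T ×ˢ Icc 0 (R ^ 2) ⊆ Dom ((2 * R) ^ 2) := by
          rintro ⟨t, ρ⟩ ⟨h1, h2⟩
          refine ⟨lt_of_lt_of_le (by linarith) h1.1, ?_⟩
          show |ρ| < (2 * R) ^ 2
          rw [abs_of_nonneg h2.1]
          have := h2.2
          nlinarith
        have hcont := (smooth_SB hY 1 (hg.shift hY)).continuousOn
        obtain ⟨C, hC⟩ := hcomp.exists_bound_of_continuousOn (hcont.mono hsub)
        refine ⟨max K (2 * R * (1 / 4 * C)), le_max_of_le_left hK0, fun t ht r hr => ?_⟩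
        rcases le_or_gt t (T / 2) with h1 | h1
        · exact (hsmall t ht h1 r hr).trans (le_max_left _ _)
        · rcases le_or_gt t T with h2 | h2
          · refine le_trans ?_ (le_max_right _ _)
            have h3 : r ^ 2 ∈ Icc 0 (R ^ 2) := by
              refine ⟨sq_nonneg r, ?_⟩
              rw [← sq_abs]
              exact pow_le_pow_left₀ (abs_nonneg r) hr 2
            have h4 := hC (t, r ^ 2) ⟨⟨h1.le, h2⟩, h3⟩
            rw [Real.norm_eq_abs] at h4
            rw [abs_mul, abs_mul, abs_mul, abs_of_pos (by norm_num : (0 : ℝ) < 2),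
              abs_of_pos (by norm_num : (0 : ℝ) < 1 / 4)]
            gcongr
          · have h3 : SB 1 (sh Z) t (r ^ 2) = 0 :=
              SB_of_zero 1 (fun i => hright (i + 1) t h2.le) _
            simp only [h3, mul_zero, abs_zero]
            exact le_max_of_le_left hK0 }

/-! ### from the profile to the flow -/

/-- The square of the distance from the axis. -/
def rho (x : Sp 3) : ℝ := x 0 ^ 2 + x 1 ^ 2

theorem rho_nonneg (x : Sp 3) : 0 ≤ rho x := by
  unfold rho
  positivity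

theorem hasFDerivAt_coord (i : Fin 3) (x : Sp 3) :
    HasFDerivAt (fun y : Sp 3 => y i) (EuclideanSpace.proj i : Sp 3 →L[ℝ] ℝ) x :=
  (EuclideanSpace.proj i : Sp 3 →L[ℝ] ℝ).hasFDerivAt

theorem hasFDerivAt_rho (x : Sp 3) :
    HasFDerivAt rho ((2 * x 0) • (EuclideanSpace.proj 0 : Sp 3 →L[ℝ] ℝ) +
      (2 * x 1) • (EuclideanSpace.proj 1 : Sp 3 →L[ℝ] ℝ)) x := by
  have h : ∀ i : Fin 3, HasFDerivAt (fun y : Sp 3 => y i ^ 2)
      ((2 * x i) • (EuclideanSpace.proj i : Sp 3 →L[ℝ] ℝ)) x := by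
    intro i
    have h0 : HasDerivAt (fun r : ℝ => r ^ 2) (2 * x i) (x i) := by
      simpa using hasDerivAt_pow 2 (x i)
    exact h0.comp_hasFDerivAt x (hasFDerivAt_coord i x)
  exact (h 0).add (h 1)

/-- first derivatives of a function of `rho` -/
theorem pd_rho {f : Sp 3 → ℝ} {φ : ℝ → ℝ} {c : ℝ} {x : Sp 3}
    (hf : f =ᶠ[𝓝 x] fun y => φ (rho y)) (hφ : HasDerivAt φ c (rho x)) :
    pd 0 f x = 2 * x 0 * c ∧ pd 1 f x = 2 * x 1 * c ∧ pd 2 f x = 0 := by
  have h1 := (hφ.comp_hasFDerivAt x (hasFDerivAt_rho x)).fderiv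
  have h2 : fderiv ℝ f x = c • ((2 * x 0) • (EuclideanSpace.proj 0 : Sp 3 →L[ℝ] ℝ) +
      (2 * x 1) • (EuclideanSpace.proj 1 : Sp 3 →L[ℝ] ℝ)) := by
    rw [hf.fderiv_eq]
    exact h1
  refine ⟨?_, ?_, ?_⟩
  · rw [pd, h2]
    simp
    ring
  · rw [pd, h2]
    simp
    ring
  · rw [pd, h2]
    simp

/-- second derivatives of a function of `rho` -/
theorem pd_pd_rho {g : Sp 3 → ℝ} {ψ : ℝ → ℝ} {c : ℝ} {x : Sp 3} (i : Fin 3)
    (hg : g =ᶠ[𝓝 x] fun y => 2 * y i * ψ (rho y)) (hψ : HasDerivAt ψ c (rho x)) :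
    pd i g x = 2 * ψ (rho x) + 2 * x i * (c *
      ((2 * x 0) * (EuclideanSpace.single i (1 : ℝ) : Sp 3) 0 +
        (2 * x 1) * (EuclideanSpace.single i (1 : ℝ) : Sp 3) 1)) := by
  have h1 : HasFDerivAt (fun y : Sp 3 => 2 * y i)
      ((2 : ℝ) • (EuclideanSpace.proj i : Sp 3 →L[ℝ] ℝ)) x :=
    (hasFDerivAt_coord i x).const_mul 2
  have h2 := hψ.comp_hasFDerivAt x (hasFDerivAt_rho x)
  have h3 := (h1.mul h2).fderiv
  have h4 : fderiv ℝ g x = fderiv ℝ (fun y : Sp 3 => 2 * y i * ψ (rho y)) x := hg.fderiv_eq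
  rw [pd, h4]
  have h5 : fderiv ℝ (fun y : Sp 3 => 2 * y i * ψ (rho y)) x =
      (2 * x i) • c • ((2 * x 0) • (EuclideanSpace.proj 0 : Sp 3 →L[ℝ] ℝ) +
        (2 * x 1) • (EuclideanSpace.proj 1 : Sp 3 →L[ℝ] ℝ)) +
      ψ (rho x) • ((2 : ℝ) • (EuclideanSpace.proj i : Sp 3 →L[ℝ] ℝ)) := h3
  rw [h5]
  simp
  split_ifs <;> ring

theorem pipe_stops {R T : ℝ} (hR : 0 < R) (hT : 0 < T) {h : ℝ → ℝ} (hh : ContDiff ℝ 4 h)
    (hw : h (R ^ 2) = 0) :
    ∃ (u : ℝ → Sp 3 → Sp 3) (p : ℝ → Sp 3 → ℝ),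
      PipeStops R T (fun x => EuclideanSpace.single 2 (h (x 0 ^ 2 + x 1 ^ 2))) u p := by
  obtain ⟨Φ, Φt, Φr, Φrr, F⟩ := rflow hR hT hh
  set u : ℝ → Sp 3 → Sp 3 := fun t x =>
    WithLp.toLp 2 fun k => if k = 2 then Φ t (rho x) - Φ t (R ^ 2) else 0 with hu
  set p : ℝ → Sp 3 → ℝ := fun t x => Φt t (R ^ 2) * x 2 with hp
  have hu2 : ∀ t x, u t x 2 = Φ t (rho x) - Φ t (R ^ 2) := fun t x => by simp [hu]
  have huk : ∀ t x k, k ≠ 2 → u t x k = 0 := fun t x k hk => by simp [hu, hk]
  have hR2 : |R ^ 2| < (2 * R) ^ 2 := by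
    rw [abs_of_nonneg (sq_nonneg R)]
    nlinarith
  have hdom : ∀ x : Sp 3, rho x < (2 * R) ^ 2 → |rho x| < (2 * R) ^ 2 := fun x hx => by
    rw [abs_of_nonneg (rho_nonneg x)]
    exact hx
  have hpipe : ∀ x ∈ pipe R, rho x < (2 * R) ^ 2 := by
    intro x hx
    have h1 : rho x ≤ R ^ 2 := hx
    nlinarith
  have hcrho : Continuous rho := by
    have : rho = fun x : Sp 3 => (EuclideanSpace.proj 0 : Sp 3 →L[ℝ] ℝ) x ^ 2 +
        (EuclideanSpace.proj 1 : Sp 3 →L[ℝ] ℝ) x ^ 2 := rfl
    rw [this]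
    fun_prop
  have hsrho : ContDiff ℝ ∞ rho := by
    have : rho = fun x : Sp 3 => (EuclideanSpace.proj 0 : Sp 3 →L[ℝ] ℝ) x ^ 2 +
        (EuclideanSpace.proj 1 : Sp 3 →L[ℝ] ℝ) x ^ 2 := rfl
    rw [this]
    exact ((EuclideanSpace.proj 0 : Sp 3 →L[ℝ] ℝ).contDiff.pow 2).add
      ((EuclideanSpace.proj 1 : Sp 3 →L[ℝ] ℝ).contDiff.pow 2)
  have hnear : ∀ x : Sp 3, rho x < (2 * R) ^ 2 → ∀ᶠ y : Sp 3 in 𝓝 x, rho y < (2 * R) ^ 2 :=
    fun x hx => (isOpen_Iio.preimage hcrho).mem_nhds hx
  -- derivatives of the velocity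
  have hpdk : ∀ t (x : Sp 3) i k, k ≠ 2 → pd i (fun y => u t y k) x = 0 := by
    intro t x i k hk
    have : (fun y => u t y k) = fun _ => 0 := funext fun y => huk t y k hk
    rw [this, pd]
    simp
  have hpd2 : ∀ t, 0 < t → ∀ x : Sp 3, rho x < (2 * R) ^ 2 →
      pd 0 (fun y => u t y 2) x = 2 * x 0 * Φr t (rho x) ∧
      pd 1 (fun y => u t y 2) x = 2 * x 1 * Φr t (rho x) ∧ pd 2 (fun y => u t y 2) x = 0 := by
    intro t ht x hx
    refine pd_rho (φ := fun v => Φ t v - Φ t (R ^ 2)) ?_ ((F.dr t _ ht (hdom x hx)).sub_const _)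
    exact Eventually.of_forall fun y => hu2 t y
  have hlap : ∀ t, 0 < t → ∀ x : Sp 3, rho x < (2 * R) ^ 2 →
      ∑ i, pd i (pd i fun y => u t y 2) x = Φt t (rho x) := by
    intro t ht x hx
    have e0 := pd_pd_rho (g := pd 0 fun y => u t y 2) (ψ := fun v => Φr t v) (x := x) 0
      (by filter_upwards [hnear x hx] with y hy; exact (hpd2 t ht y hy).1)
      (F.drr t _ ht (hdom x hx))
    have e1 := pd_pd_rho (g := pd 1 fun y => u t y 2) (ψ := fun v => Φr t v) (x := x) 1
      (by filter_upwards [hnear x hx] with y hy; exact (hpd2 t ht y hy).2.1)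
      (F.drr t _ ht (hdom x hx))
    have e2 : pd 2 (pd 2 fun y => u t y 2) x = 0 := by
      have h1 : (pd 2 fun y => u t y 2) =ᶠ[𝓝 x] fun _ => 0 := by
        filter_upwards [hnear x hx] with y hy
        exact (hpd2 t ht y hy).2.2
      rw [pd, h1.fderiv_eq]
      simp
    rw [Fin.sum_univ_three, e0, e1, e2, ← F.heat t _ ht (hdom x hx)]
    simp
    unfold rho
    ring
  have hpp : ∀ t (x : Sp 3) k, pd k (p t) x = if k = 2 then Φt t (R ^ 2) else 0 := by
    intro t x k
    have h1 : HasFDerivAt (p t) (Φt t (R ^ 2) • (EuclideanSpace.proj 2 : Sp 3 →L[ℝ] ℝ)) x :=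
      (hasFDerivAt_coord 2 x).const_mul _
    rw [pd, h1.fderiv]
    by_cases hk : k = 2
    · subst hk
      simp
    · have hk' : (2 : Fin 3) ≠ k := fun h => hk h.symm
      simp [hk, hk']
  have hur : ∀ t, ∀ x : Sp 3, rho x = R ^ 2 → u t x = 0 := by
    intro t x hx
    ext k
    by_cases hk : k = 2
    · subst hk
      rw [hu2, hx, sub_self]
      rfl
    · rw [huk t x k hk]
      rfl
  have hrx : ∀ x ∈ pipe R, |√(rho x)| ≤ R ∧ √(rho x) ^ 2 = rho x := by
    intro x hx
    have h1 : rho x ≤ R ^ 2 := hx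
    refine ⟨?_, Real.sq_sqrt (rho_nonneg x)⟩
    rw [abs_of_nonneg (Real.sqrt_nonneg _)]
    exact Real.sqrt_le_iff.2 ⟨hR.le, h1⟩
  obtain ⟨K, hK0, hK⟩ := F.grad
  refine ⟨u, p, ?_⟩
  exact
    { smooth := by
        have hmaps : ∀ z ∈ (Ioi (0 : ℝ) ×ˢ pipe (3 / 2 * R)), rho z.2 < (2 * R) ^ 2 := by
          rintro ⟨t, x⟩ ⟨-, hx⟩
          have h1 : rho x ≤ (3 / 2 * R) ^ 2 := hx
          show rho x < (2 * R) ^ 2
          nlinarith
        refine ⟨3 / 2 * R, by linarith, ?_, ?_⟩
        · rw [contDiffOn_euclidean]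
          intro k
          by_cases hk : k = 2
          · subst hk
            have h1 : ContDiffOn ℝ ∞ (fun z : ℝ × Sp 3 => Φ z.1 (rho z.2) - Φ z.1 (R ^ 2))
                (Ioi 0 ×ˢ pipe (3 / 2 * R)) := by
              refine ContDiffOn.sub ?_ ?_
              · have h2 : ContDiff ℝ ∞ fun z : ℝ × Sp 3 => ((z.1, rho z.2) : ℝ × ℝ) :=
                  contDiff_fst.prodMk (hsrho.comp contDiff_snd)
                exact F.smooth.comp h2.contDiffOn fun z hz => ⟨hz.1, hdom _ (hmaps z hz)⟩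
              · have h2 : ContDiff ℝ ∞ fun z : ℝ × Sp 3 => ((z.1, R ^ 2) : ℝ × ℝ) :=
                  contDiff_fst.prodMk contDiff_const
                exact F.smooth.comp h2.contDiffOn fun z hz => ⟨hz.1, hR2⟩
            exact h1.congr fun z _ => hu2 z.1 z.2
          · exact (contDiffOn_const (c := (0 : ℝ))).congr fun z _ => huk z.1 z.2 k hk
        · refine ContDiffOn.mul ?_ ?_
          · have h2 : ContDiff ℝ ∞ fun z : ℝ × Sp 3 => ((z.1, R ^ 2) : ℝ × ℝ) :=
              contDiff_fst.prodMk contDiff_const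
            exact F.tsmooth.comp h2.contDiffOn fun z hz => ⟨hz.1, hR2⟩
          · exact ((EuclideanSpace.proj 2 : Sp 3 →L[ℝ] ℝ).contDiff.comp contDiff_snd).contDiffOn
      momentum := by
        intro t ht x hx k
        have hx' := hpipe x hx
        have hconv : ∑ i, u t x i * pd i (fun y => u t y k) x = 0 := by
          refine Finset.sum_eq_zero fun i _ => ?_
          by_cases hi : i = 2
          · subst hi
            by_cases hk : k = 2
            · subst hk
              rw [(hpd2 t ht x hx').2.2, mul_zero]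
            · rw [hpdk t x 2 k hk, mul_zero]
          · rw [huk t x i hi, zero_mul]
        rw [hconv, hpp]
        by_cases hk : k = 2
        · subst hk
          have h1 : HasDerivAt (fun s => u s x 2) (Φt t (rho x) - Φt t (R ^ 2)) t := by
            have h2 := (F.dt t _ ht (hdom x hx')).sub (F.dt t _ ht hR2)
            exact h2.congr_of_eventuallyEq (Eventually.of_forall fun s => hu2 s x)
          rw [h1.deriv, hlap t ht x hx', if_pos rfl]
          ring
        · have h1 : (fun s => u s x k) = fun _ => 0 := funext fun s => huk s x k hk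
          have h2 : ∑ i, pd i (pd i fun y => u t y k) x = 0 := by
            refine Finset.sum_eq_zero fun i _ => ?_
            have h3 : (pd i fun y => u t y k) = fun _ => 0 := funext fun y => hpdk t y i k hk
            rw [h3, pd]
            simp
          rw [h1, h2, if_neg hk]
          simp
      divfree := by
        intro t ht x hx
        refine Finset.sum_eq_zero fun i _ => ?_
        by_cases hi : i = 2
        · subst hi
          exact (hpd2 t ht x (hpipe x hx)).2.2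
        · exact hpdk t x i i hi
      parallel := fun t _ x _ => ⟨huk t x 0 (by decide), huk t x 1 (by decide)⟩
      wall := fun t _ x hx => hur t x hx
      rest := by
        intro t ht x _
        ext k
        by_cases hk : k = 2
        · subst hk
          rw [hu2, F.zero t _ ht, F.zero t _ ht, sub_zero]
          rfl
        · rw [huk t x k hk]
          rfl
      initial := by
        intro ε hε
        obtain ⟨δ, hδ, hδ'⟩ := F.conv (ε / 2) (by positivity)
        refine ⟨δ, hδ, fun t h0 h1 x hx => ?_⟩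
        have e : u t x - EuclideanSpace.single 2 (h (x 0 ^ 2 + x 1 ^ 2)) =
            EuclideanSpace.single 2 ((Φ t (rho x) - Φ t (R ^ 2)) - h (rho x)) := by
          ext k
          by_cases hk : k = 2
          · subst hk
            simp [hu2, rho]
          · simp [huk t x k hk, hk]
        show ‖u t x - EuclideanSpace.single 2 (h (x 0 ^ 2 + x 1 ^ 2))‖ ≤ ε
        rw [e, PiLp.norm_single, Real.norm_eq_abs]
        have h2 := hδ' t h0 h1 (√(rho x)) (hrx x hx).1
        rw [(hrx x hx).2] at h2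
        have h3 := hδ' t h0 h1 R (by rw [abs_of_pos hR])
        rw [hw, sub_zero] at h3
        calc |Φ t (rho x) - Φ t (R ^ 2) - h (rho x)|
            = |(Φ t (rho x) - h (rho x)) - Φ t (R ^ 2)| := by congr 1; ring
          _ ≤ |Φ t (rho x) - h (rho x)| + |Φ t (R ^ 2)| := abs_sub _ _
          _ ≤ ε / 2 + ε / 2 := add_le_add h2 h3
          _ = ε := by ring
      gradient := by
        refine ⟨K, fun t ht x hx i k => ?_⟩
        by_cases hk : k = 2
        · subst hk
          have h1 := hpd2 t ht x (hpipe x hx)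
          have h2 := hK t ht (√(rho x)) (hrx x hx).1
          rw [(hrx x hx).2] at h2
          have hle : ∀ c : ℝ, c ^ 2 ≤ rho x → |2 * c * Φr t (rho x)| ≤ K := by
            intro c hc
            refine le_trans ?_ h2
            rw [abs_mul, abs_mul, abs_mul, abs_mul]
            have h3 : |c| ≤ |√(rho x)| := by
              rw [abs_of_nonneg (Real.sqrt_nonneg _)]
              exact Real.abs_le_sqrt hc
            gcongr
          fin_cases i
          · show |pd 0 (fun y => u t y 2) x| ≤ K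
            rw [h1.1]
            refine hle _ ?_
            unfold rho
            nlinarith [sq_nonneg (x 1)]
          · show |pd 1 (fun y => u t y 2) x| ≤ K
            rw [h1.2.1]
            refine hle _ ?_
            unfold rho
            nlinarith [sq_nonneg (x 0)]
          · show |pd 2 (fun y => u t y 2) x| ≤ K
            rw [h1.2.2, abs_zero]
            exact hK0
        · rw [hpdk t x i k hk, abs_zero]
          exact hK0 }

end Pool.Agent.Q61.NC
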