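import Pool.Agent.Q61.NC.Aff
import Pool.Agent.Q61.NC.GDefs

/-!
# Stopping flows between two plates with the help of a third direction
-/

set_option autoImplicit false

open Set Filter Topology MeasureTheory AddCircle
open scoped ENNReal ContDiff

namespace Pool.Agent.Q61.NC

/-- The free odd flow between the walls. -/
structure OddFlow (a : ℝ) (f : ℝ → ℝ) (V Vt Vy : ℝ → ℝ → ℝ) : Prop where
  smooth : ContDiffOn ℝ ∞ (fun q : ℝ × ℝ => V q.1 q.2) (Dom (2 * a))
  ycont : ContinuousOn (fun q : ℝ × ℝ => Vy q.1 q.2) (Dom (2 * a))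
  dt : ∀ t y, 0 < t → |y| < 2 * a → HasDerivAt (fun s => V s y) (Vt t y) t
  dy : ∀ t y, 0 < t → |y| < 2 * a → HasDerivAt (fun v => V t v) (Vy t y) y
  dyy : ∀ t y, 0 < t → |y| < 2 * a → HasDerivAt (fun v => Vy t v) (Vt t y) y
  wall : ∀ t, 0 < t → V t a = 0 ∧ V t (-a) = 0
  lim : Tendsto (fun t : ℝ => ∫⁻ y in Icc (-a) a, ‖V t y - (f y - f (-y)) / 2‖ₑ ^ 2) (𝓝[>] 0) (𝓝 0)
  en : ∫⁻ t in Ioi (0 : ℝ), ∫⁻ y in Icc (-a) a, ‖Vy t y‖ₑ ^ 2 < ⊤

theorem flowO {a : ℝ} (ha : 0 < a) {f : ℝ → ℝ} (hf : MemLp f 2 (volume.restrict (Icc (-a) a))) :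
    ∃ V Vt Vy : ℝ → ℝ → ℝ, OddFlow a f V Vt Vy := by
  have hL : Fact (0 < 2 * a) := ⟨by positivity⟩
  have hY : 0 < 2 * a := by positivity
  set G : ℝ → ℝ := indicator (Icc (-a) a) f with hG
  have hGm : MemLp G 2 volume := by
    rw [hG, memLp_indicator_iff_restrict measurableSet_Icc]
    exact hf
  set F : ℝ → ℝ := fun y => 1 / 2 * (G y - G (-y)) with hFd
  have hF0 : MemLp F 2 volume := by
    have h1 : MemLp (fun y => G y - G (-y)) 2 volume :=
      hGm.sub (hGm.comp_measurePreserving (Measure.measurePreserving_neg volume))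
    exact h1.const_mul (1 / 2)
  have hF : MemLp F 2 (volume.restrict (Ioc (-(2 * a / 2)) (-(2 * a / 2) + 2 * a))) :=
    hF0.mono_measure Measure.restrict_le_self
  have hodd : ∀ y, F (-y) = -F y := by
    intro y
    rw [hFd]
    simp only [neg_neg]
    ring
  obtain ⟨M, hM, hb⟩ := cf_bound hF
  have hb' : ∀ k, |-(cf (2 * a) F k).im * om (2 * a) k| ≤ M * (1 + lam (2 * a) k) := by
    intro k
    rw [abs_mul, abs_neg]
    have h1 := (Complex.abs_im_le_norm _).trans (hb k)
    have h2 := abs_om_le (L := 2 * a) k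
    have h3 := abs_nonneg (om (2 * a) k)
    gcongr
  set β : ℤ → ℝ := fun k => (-(cf (2 * a) F k).im) * om (2 * a) k with hβ
  set Z := fr (2 * a) β with hZ
  have hg : Good (2 * a) Z := by
    refine ⟨fr_jet hL.out hM hb', fun t₁ ht₁ => ?_⟩
    have hr : 0 < 1 / (2 * (2 * a) ^ 2) := by positivity
    obtain ⟨C, hC, hbd⟩ := fr_bd hL.out hM hb' hr t₁ ht₁
    refine ⟨C, 1 / (2 * (2 * a) ^ 2), hC, hr, ?_, hbd⟩
    have : 1 / (2 * (2 * a) ^ 2) * (2 * a) ^ 2 = 1 / 2 := by field_simp
    rw [this]
    norm_num
  have hIcc : volume.restrict (Icc (-a) a) = volume.restrict (Ioc (-a) a) :=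
    Measure.restrict_congr_set Ioc_ae_eq_Icc.symm
  have hIoc : Ioc (-(2 * a / 2)) (-(2 * a / 2) + 2 * a) = Ioc (-a) a := by
    congr 1 <;> ring
  refine ⟨FO Z, FO (sh Z), FE Z, ?_⟩
  exact
    { smooth := smooth_FO hY hg
      ycont := (smooth_FE hY hg).continuousOn
      dt := fun t y ht hy => FO_dt hY hg ht hy
      dy := fun t y ht hy => FO_dy hY hg ht hy
      dyy := fun t y ht hy => FE_dy hY hg ht hy
      wall := by
        intro t ht
        have hs : ∀ n : ℤ, Real.sin (om (2 * a) n * a) = 0 := fun n => om_sin ha n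
        constructor
        · rw [hZ, hβ, FO_fr hL.out hM hb' ht]
          simp [hs]
        · rw [hZ, hβ, FO_fr hL.out hM hb' ht]
          simp [hs]
      lim := by
        rw [hIcc]
        refine lim_of (L := 2 * a) (F := F) (T := 2) (by norm_num) hF (by rw [hIoc]) ?_ ?_
        · filter_upwards [ae_restrict_mem measurableSet_Ioc] with y hy
          have h1 : y ∈ Icc (-a) a := Ioc_subset_Icc_self hy
          have h2 : -y ∈ Icc (-a) a := ⟨by linarith [h1.2], by linarith [h1.1]⟩
          rw [hFd]
          simp only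
          rw [hG, indicator_of_mem h1, indicator_of_mem h2]
          ring
        · intro t y h0 _
          exact (odd_series hF hodd h0 y).1
      en := by
        rw [hIcc]
        refine lt_of_le_of_lt ?_ (energy hF)
        refine setLIntegral_mono' measurableSet_Ioi fun t ht => ?_
        rw [hIoc]
        refine le_of_eq ?_
        refine lintegral_congr fun y => ?_
        rw [(odd_series hF hodd ht y).2] }

/-- The switch: a solution of the heat equation on `|z| < Y` which is `1` for `t ≤ T / 2` and `0`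
for `t ≥ T`. -/
structure Switch (Y T : ℝ) (v vt vz : ℝ → ℝ → ℝ) : Prop where
  smooth : ContDiffOn ℝ ∞ (fun q : ℝ × ℝ => v q.1 q.2) (Dom Y)
  zcont : ContinuousOn (fun q : ℝ × ℝ => vz q.1 q.2) (Dom Y)
  dt : ∀ t z, 0 < t → |z| < Y → HasDerivAt (fun s => v s z) (vt t z) t
  dz : ∀ t z, 0 < t → |z| < Y → HasDerivAt (fun s => v t s) (vz t z) z
  dzz : ∀ t z, 0 < t → |z| < Y → HasDerivAt (fun s => vz t s) (vt t z) z
  one : ∀ t z, 0 < t → t ≤ T / 2 → v t z = 1
  onez : ∀ t z, 0 < t → t ≤ T / 2 → vz t z = 0
  zero : ∀ t z, T ≤ t → v t z = 0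

theorem switch {Y T : ℝ} (hY : 0 < Y) (hT : 0 < T) : ∃ v vt vz, Switch Y T v vt vz := by
  have hK : 0 < 8 * Y ^ 2 := by positivity
  set Z := cutJ T (8 * Y ^ 2) with hZ
  have hg : Good Y Z := by
    refine ⟨cutJ_jet T _, fun t₁ ht₁ => ?_⟩
    obtain ⟨C, hC, hb⟩ := cutJ_bd T _ hT hK t₁ ht₁
    refine ⟨C, 4 * (8 * Y ^ 2)⁻¹, hC, by positivity, ?_, hb⟩
    have : 4 * (8 * Y ^ 2)⁻¹ * Y ^ 2 = 1 / 2 := by
      field_simp
      norm_num
    rw [this]
    norm_num
  refine ⟨FE Z, FE (sh Z), FO (sh Z), ?_⟩
  exact
    { smooth := smooth_FE hY hg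
      zcont := (smooth_FO hY (hg.shift hY)).continuousOn
      dt := fun t z ht hz => FE_dt hY hg ht hz
      dz := fun t z ht hz => FE_dy hY hg ht hz
      dzz := fun t z ht hz => FO_dy hY (hg.shift hY) ht hz
      one := fun t z h0 h1 => by
        have h2 : ∀ i, Z i t = if i = 0 then 1 else 0 := fun i => cutJ_left T _ hK i h0 h1
        unfold FE
        rw [tsum_eq_single 0]
        · simp [h2]
        · intro i hi
          simp [h2, hi]
      onez := fun t z h0 h1 => by
        refine FO_of_zero (fun i => ?_) z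
        have h2 := cutJ_left T _ hK (i + 1) h0 h1
        rw [if_neg (Nat.succ_ne_zero i)] at h2
        exact h2
      zero := fun t z ht => FE_of_zero (fun i => cutJ_right T _ hT hK i ht) z }

section

variable {d : ℕ}

theorem pd_three {f : Sp d → ℝ} {C A B : ℝ → ℝ} {c' a' b' : ℝ} {x : Sp d} {j l : Fin d}
    (hf : f =ᶠ[𝓝 x] fun y => C (y j) + A (y j) * B (y l)) (hC : HasDerivAt C c' (x j))
    (hA : HasDerivAt A a' (x j)) (hB : HasDerivAt B b' (x l)) (i : Fin d) :
    pd i f x = (if i = j then c' + a' * B (x l) else 0) + (if i = l then A (x j) * b' else 0) := by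
  have h1 := hasFDerivAt_comp_coord j hC
  have h2 := hasFDerivAt_comp_coord j hA
  have h3 := hasFDerivAt_comp_coord l hB
  have h4 : HasFDerivAt (fun y : Sp d => C (y j) + A (y j) * B (y l))
      (c' • (EuclideanSpace.proj j : Sp d →L[ℝ] ℝ) +
        (A (x j) • (b' • (EuclideanSpace.proj l : Sp d →L[ℝ] ℝ)) +
          B (x l) • (a' • (EuclideanSpace.proj j : Sp d →L[ℝ] ℝ)))) x := h1.add (h2.mul h3)
  rw [pd, hf.fderiv_eq, h4.fderiv]
  by_cases hij : i = j
  · by_cases hil : i = l
    · subst hij
      subst hil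
      simp
      ring
    · subst hij
      have hl : l ≠ i := fun h => hil h.symm
      simp [hil, hl]
      ring
  · have hj : j ≠ i := fun h => hij h.symm
    by_cases hil : i = l
    · subst hil
      simp [hij, hj]
    · have hl : l ≠ i := fun h => hil h.symm
      simp [hij, hj, hil, hl]

end

theorem plates_stop {d : ℕ} {j k l : Fin d} (hjk : j ≠ k) (hjl : j ≠ l) (hkl : k ≠ l)
    {a b T : ℝ} (ha : 0 < a) (hb : 0 < b) (hT : 0 < T) {U₀ : ℝ → Sp d} (h0 : ∀ y, U₀ y j = 0)
    (hU : MemLp U₀ 2 (volume.restrict (Icc (-a) a)))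
    (heven : ∀ m, m ≠ k → ∀ᵐ y ∂(volume.restrict (Icc (-a) a)), U₀ (-y) m = U₀ y m) :
    ∃ u p, StopsIn (plates j l a b) (twoWalls j l a b) T (fun x => U₀ (x j)) u p := by
  have hT2 : 0 < T / 2 := by linarith
  -- the components
  have hUk : ∀ m, MemLp (fun y => U₀ y m) 2 (volume.restrict (Icc (-a) a)) := fun m =>
    (EuclideanSpace.proj m : Sp d →L[ℝ] ℝ).comp_memLp' hU
  set f : Fin d → ℝ → ℝ := fun m y => (U₀ y m + U₀ (-y) m) / 2 with hf
  have hneg : MeasurePreserving (fun y : ℝ => -y) (volume.restrict (Icc (-a) a))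
      (volume.restrict (Icc (-a) a)) := by
    have h1 := (Measure.measurePreserving_neg (volume : Measure ℝ)).restrict_preimage
      (s := Icc (-a) a) measurableSet_Icc
    have h2 : (Neg.neg : ℝ → ℝ) ⁻¹' Icc (-a) a = Icc (-a) a := by
      ext y
      simp only [mem_preimage, mem_Icc]
      constructor
      · rintro ⟨h3, h4⟩
        constructor <;> linarith
      · rintro ⟨h3, h4⟩
        constructor <;> linarith
    rw [h2] at h1
    exact h1
  have hfm : ∀ m, MemLp (f m) 2 (volume.restrict (Icc (-a) a)) := by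
    intro m
    have h1 := ((hUk m).add ((hUk m).comp_measurePreserving hneg)).const_mul (1 / 2)
    refine (memLp_congr_ae (Eventually.of_forall fun y => ?_)).1 h1
    show 1 / 2 * (U₀ y m + U₀ (-y) m) = (U₀ y m + U₀ (-y) m) / 2
    ring
  have hk : ∀ m : Fin d, ∃ (V Vt Vy Vyy : ℝ → ℝ → ℝ) (g : ℝ → ℝ),
      Flow (Icc (-a) a) (2 * a) (T / 2) (f m) V Vt Vy Vyy g ∧
      (∀ t, V t a = 0) ∧ (∀ t, V t (-a) = 0) ∧ (m = j → ∀ t y, V t y = 0) := by
    intro m
    by_cases hmj : m = j
    · refine ⟨fun _ _ => 0, fun _ _ => 0, fun _ _ => 0, fun _ _ => 0, fun _ => 0, ?_,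
        fun _ => rfl, fun _ => rfl, fun _ _ _ => rfl⟩
      have : f m = fun _ => 0 := funext fun y => by
        rw [hf]
        simp only
        rw [hmj, h0, h0]
        norm_num
      rw [this]
      exact flow_zero _ _ _
    · obtain ⟨V, Vt, Vy, Vyy, g, h1, h2, h3, -⟩ := flowA ha hT2 (hfm m) fun y _ => by
        rw [hf]
        simp only [neg_neg]
        ring
      exact ⟨V, Vt, Vy, Vyy, g, h1, h2, h3, fun h => absurd h hmj⟩
  choose V Vt Vy Vyy g hV hVa hVa' hVj using hk
  obtain ⟨Od, Ot, Oy, hO⟩ := flowO ha (hUk k)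
  have hY : 0 < 2 * b := by positivity
  obtain ⟨v, vt, vz, hv⟩ := switch hY hT
  set δ : Fin d → ℝ := fun m => if m = k then 1 else 0 with hδ
  have hδk : δ k = 1 := by simp [hδ]
  have hδ0 : ∀ m, m ≠ k → δ m = 0 := fun m hm => by simp [hδ, hm]
  set u : ℝ → Sp d → Sp d := fun t x =>
    WithLp.toLp 2 fun m => V m t (x j) + (δ m * Od t (x j)) * v t (x l) with hu
  set p : ℝ → Sp d → ℝ := fun t x => ∑ m, g m t * x m with hp
  have huk : ∀ t x m, u t x m = V m t (x j) + (δ m * Od t (x j)) * v t (x l) :=
    fun t x m => rfl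
  -- the region
  set N : Set (Sp d) := {x | |x j| < 2 * a ∧ |x l| < 2 * b} with hN
  have hcj : ∀ i : Fin d, Continuous fun x : Sp d => x i := fun i =>
    (EuclideanSpace.proj i : Sp d →L[ℝ] ℝ).continuous
  have hNo : IsOpen N :=
    (isOpen_lt (hcj j).abs continuous_const).inter (isOpen_lt (hcj l).abs continuous_const)
  have hGN : plates j l a b ⊆ N := fun x hx => ⟨by linarith [hx.1], by linarith [hx.2]⟩
  have hVb : ∀ m t, 0 < t → ∀ y, |y| < 2 * a →
      HasDerivAt (fun v => δ m * Od t v) (δ m * Oy t y) y := fun m t ht y hy =>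
    (hO.dy t y ht hy).const_mul _
  have hpd : ∀ m t, 0 < t → ∀ x ∈ N, ∀ i, pd i (fun y => u t y m) x =
      (if i = j then Vy m t (x j) + (δ m * Oy t (x j)) * v t (x l) else 0) +
        (if i = l then (δ m * Od t (x j)) * vz t (x l) else 0) := fun m t ht x hx i =>
    pd_three (C := fun y => V m t y) (A := fun y => δ m * Od t y) (B := fun z => v t z)
      (Eventually.of_forall fun y => huk t y m) ((hV m).dy t _ ht hx.1)
      (hVb m t ht _ hx.1) (hv.dz t _ ht hx.2) i
  have hlap : ∀ m t, 0 < t → ∀ x ∈ N, ∑ i, pd i (pd i fun y => u t y m) x =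
      Vyy m t (x j) + (δ m * Ot t (x j)) * v t (x l) + (δ m * Od t (x j)) * vt t (x l) := by
    intro m t ht x hx
    have e1 : pd j (pd j fun y => u t y m) x =
        Vyy m t (x j) + (δ m * Ot t (x j)) * v t (x l) := by
      have h1 : (pd j fun y => u t y m) =ᶠ[𝓝 x] fun y =>
          Vy m t (y j) + (δ m * Oy t (y j)) * v t (y l) := by
        filter_upwards [hNo.mem_nhds hx] with y hy
        rw [hpd m t ht y hy, if_pos rfl, if_neg hjl, add_zero]
      rw [pd_three (C := fun y => Vy m t y) (A := fun y => δ m * Oy t y) (B := fun z => v t z) h1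
        ((hV m).dyy t _ ht hx.1) ((hO.dyy t _ ht hx.1).const_mul _) (hv.dz t _ ht hx.2) j,
        if_pos rfl, if_neg hjl, add_zero]
    have e2 : pd l (pd l fun y => u t y m) x = (δ m * Od t (x j)) * vt t (x l) := by
      have h1 : (pd l fun y => u t y m) =ᶠ[𝓝 x] fun y =>
          (fun _ : ℝ => (0 : ℝ)) (y j) + (δ m * Od t (y j)) * vz t (y l) := by
        filter_upwards [hNo.mem_nhds hx] with y hy
        rw [hpd m t ht y hy, if_neg hjl.symm, if_pos rfl]
      rw [pd_three (C := fun _ => 0) (A := fun y => δ m * Od t y) (B := fun z => vz t z) h1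
        (hasDerivAt_const _ _) (hVb m t ht _ hx.1) (hv.dzz t _ ht hx.2) l, if_neg hjl.symm,
        if_pos rfl, zero_add]
    have e3 : ∀ i, i ≠ j → i ≠ l → pd i (pd i fun y => u t y m) x = 0 := by
      intro i hij hil
      have h1 : (pd i fun y => u t y m) =ᶠ[𝓝 x] fun _ => 0 := by
        filter_upwards [hNo.mem_nhds hx] with y hy
        rw [hpd m t ht y hy, if_neg hij, if_neg hil, add_zero]
      rw [pd, h1.fderiv_eq]
      simp
    have e4 : ∑ i, pd i (pd i fun y => u t y m) x =
        ∑ i ∈ ({j, l} : Finset (Fin d)), pd i (pd i fun y => u t y m) x := by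
      refine (Finset.sum_subset (Finset.subset_univ _) fun i _ hi => ?_).symm
      rw [Finset.mem_insert, Finset.mem_singleton, not_or] at hi
      exact e3 i hi.1 hi.2
    rw [e4, Finset.sum_pair hjl, e1, e2]
  have hVyj : ∀ t, 0 < t → ∀ y, |y| < 2 * a → Vy j t y = 0 := by
    intro t ht y hy
    have h1 := (hV j).dy t y ht hy
    have h2 : (fun v => V j t v) = fun _ => 0 := funext fun v => hVj j rfl t v
    rw [h2] at h1
    exact h1.unique (hasDerivAt_const y (0 : ℝ))
  have hpp : ∀ t (x : Sp d) m, pd m (p t) x = g m t := by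
    intro t x m
    have h1 : HasFDerivAt (p t)
        (∑ i, g i t • (EuclideanSpace.proj i : Sp d →L[ℝ] ℝ)) x := by
      have h2 : HasFDerivAt (fun y : Sp d => ∑ i, g i t * y i)
          (∑ i, g i t • (EuclideanSpace.proj i : Sp d →L[ℝ] ℝ)) x := by
        refine HasFDerivAt.fun_sum fun i _ => ?_
        exact ((EuclideanSpace.proj i : Sp d →L[ℝ] ℝ).hasFDerivAt).const_mul (g i t)
      exact h2
    rw [pd, h1.fderiv]
    simp [sum_apply]
  have hj0 : ∀ t x, u t x j = 0 := fun t x => by
    rw [huk, hVj j rfl, hδ0 j hjk]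
    ring
  -- the shear regime
  have hboxle : ∀ Ω ⊆ plates j l a b, Bornology.IsBounded Ω → ∃ c : ℝ≥0∞, c ≠ ⊤ ∧
      ∀ H : ℝ → ℝ≥0∞, AEMeasurable H (volume.restrict (Icc (-a) a)) →
        ∫⁻ x in Ω, H (x j) ≤ c * ∫⁻ y in Icc (-a) a, H y := by
    intro Ω hΩ hbd
    have hΩ' : Ω ⊆ slab j (Icc (-a) a) := fun x hx => abs_le.1 (hΩ hx).1
    obtain ⟨r, hr, hsub⟩ := subset_box hΩ' hbd
    obtain ⟨c, hc, -, hG⟩ := box_lintegral j (Icc (-a) a) measurableSet_Icc r
    refine ⟨c, hc, fun H hHm => ?_⟩
    rw [← hG H hHm]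
    exact lintegral_mono_set hsub
  have hcont : ∀ m t, 0 < t → ContinuousOn (fun y => V m t y) (Icc (-a) a) := fun m t ht y hy =>
    ((hV m).dy t y ht ((abs_le.2 hy).trans_lt (by linarith))).continuousAt.continuousWithinAt
  have hconty : ∀ m t, 0 < t → ContinuousOn (fun y => Vy m t y) (Icc (-a) a) := fun m t ht y hy =>
    ((hV m).dyy t y ht ((abs_le.2 hy).trans_lt (by linarith))).continuousAt.continuousWithinAt
  have hcontO : ∀ t, 0 < t → ContinuousOn (fun y => Od t y) (Icc (-a) a) := fun t ht y hy =>
    (hO.dy t y ht ((abs_le.2 hy).trans_lt (by linarith))).continuousAt.continuousWithinAt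
  have hcontOy : ∀ t, 0 < t → ContinuousOn (fun y => Oy t y) (Icc (-a) a) := fun t ht y hy =>
    (hO.dyy t y ht ((abs_le.2 hy).trans_lt (by linarith))).continuousAt.continuousWithinAt
  have hUkm : ∀ m, AEMeasurable (fun y => U₀ y m) (volume.restrict (Icc (-a) a)) := fun m =>
    (hUk m).aestronglyMeasurable.aemeasurable
  have hfk : AEMeasurable (f k) (volume.restrict (Icc (-a) a)) :=
    (hfm k).aestronglyMeasurable.aemeasurable
  have two : ∀ x y : ℝ≥0∞, (x + y) ^ 2 ≤ 2 * x ^ 2 + 2 * y ^ 2 := by
    intro x y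
    have h1 := ENNReal.rpow_add_le_mul_rpow_add_rpow x y (p := 2) (by norm_num)
    have e2 : (2 : ℝ≥0∞) ^ ((2 : ℝ) - 1) = 2 := by norm_num
    rw [e2] at h1
    have e3 : ∀ z : ℝ≥0∞, z ^ (2 : ℝ) = z ^ 2 := fun z => by
      rw [← ENNReal.rpow_natCast]
      norm_num
    rw [e3, e3, e3, mul_add] at h1
    exact h1
  refine ⟨u, p, ?_⟩
  exact
    { smooth := by
        refine ⟨N, hNo, hGN, ?_, ?_⟩
        · rw [contDiffOn_euclidean]
          intro m
          have h1 : ContDiff ℝ ∞ fun z : ℝ × Sp d => ((z.1, z.2 j) : ℝ × ℝ) :=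
            contDiff_fst.prodMk ((EuclideanSpace.proj j : Sp d →L[ℝ] ℝ).contDiff.comp contDiff_snd)
          have h2 : ContDiff ℝ ∞ fun z : ℝ × Sp d => ((z.1, z.2 l) : ℝ × ℝ) :=
            contDiff_fst.prodMk ((EuclideanSpace.proj l : Sp d →L[ℝ] ℝ).contDiff.comp contDiff_snd)
          have c1 := (hV m).smooth.comp (t := Dom (2 * a)) h1.contDiffOn
            (s := Ioi (0 : ℝ) ×ˢ N) fun z hz => ⟨hz.1, hz.2.1⟩
          have c2 := hO.smooth.comp (t := Dom (2 * a)) h1.contDiffOn
            (s := Ioi (0 : ℝ) ×ˢ N) fun z hz => ⟨hz.1, hz.2.1⟩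
          have c3 := hv.smooth.comp (t := Dom (2 * b)) h2.contDiffOn
            (s := Ioi (0 : ℝ) ×ˢ N) fun z hz => ⟨hz.1, hz.2.2⟩
          exact c1.add ((contDiffOn_const.mul c2).mul c3)
        · refine ContDiffOn.sum fun m _ => ?_
          refine ContDiffOn.mul ?_ ?_
          · exact (hV m).gsmooth.comp contDiff_fst.contDiffOn fun z hz => hz.1
          · exact ((EuclideanSpace.proj m : Sp d →L[ℝ] ℝ).contDiff.comp contDiff_snd).contDiffOn
      momentum := by
        intro t ht x hx m
        have hx' := hGN hx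
        have h1 : deriv (fun s => u s x m) t = Vt m t (x j) + ((δ m * Ot t (x j)) * v t (x l) +
            (δ m * Od t (x j)) * vt t (x l)) := by
          have h2 := ((hV m).dt t (x j) ht hx'.1).add
            (((hO.dt t (x j) ht hx'.1).const_mul (δ m)).mul (hv.dt t (x l) ht hx'.2))
          exact h2.deriv
        have h2 : ∑ i, u t x i * pd i (fun y => u t y m) x = 0 := by
          refine Finset.sum_eq_zero fun i _ => ?_
          rw [hpd m t ht x hx' i]
          by_cases hij : i = j
          · rw [hij, hj0, zero_mul]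
          · rw [if_neg hij, zero_add]
            by_cases hil : i = l
            · rw [if_pos hil, hil, huk, hδ0 l hkl.symm]
              rcases le_or_gt t (T / 2) with h3 | h3
              · rw [hv.onez t _ ht h3]
                ring
              · rw [(hV l).zero t _ h3.le]
                ring
            · rw [if_neg hil, mul_zero]
        rw [h1, h2, hlap m t ht x hx', hpp, (hV m).heat]
        ring
      divfree := by
        intro t ht x hx
        have hx' := hGN hx
        refine Finset.sum_eq_zero fun i _ => ?_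
        rw [hpd i t ht x hx' i]
        by_cases hij : i = j
        · rw [hij, if_pos rfl, if_neg hjl, hVyj t ht _ hx'.1, hδ0 j hjk]
          ring
        · rw [if_neg hij]
          by_cases hil : i = l
          · rw [hil, if_pos rfl, hδ0 l hkl.symm]
            ring
          · rw [if_neg hil, add_zero]
      wall := by
        intro t ht x hx
        have h1 : x j = a ∨ x j = -a := by
          have h2 := hx.1
          rcases abs_choice (x j) with h3 | h3
          · left
            rw [← h3, h2]
          · right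
            rw [← h2, h3, neg_neg]
        have h2 : ∀ m, V m t (x j) = 0 ∧ Od t (x j) = 0 := by
          intro m
          rcases h1 with h3 | h3
          · rw [h3]
            exact ⟨hVa m t, (hO.wall t ht).1⟩
          · rw [h3]
            exact ⟨hVa' m t, (hO.wall t ht).2⟩
        ext m
        rw [huk, (h2 m).1, (h2 m).2]
        show 0 + δ m * 0 * v t (x l) = 0
        ring
      rest := by
        intro t ht x _
        ext m
        rw [huk, (hV m).zero t _ (by linarith), hv.zero t _ ht]
        show 0 + δ m * Od t (x j) * 0 = 0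
        ring
      initial := by
        intro Ω hΩ _ hbd
        obtain ⟨c, hc, hG⟩ := hboxle Ω hΩ hbd
        set E : ℝ → ℝ≥0∞ := fun t => ∑ m, ∫⁻ y in Icc (-a) a, ‖V m t y - f m y‖ₑ ^ 2 with hE
        set Q : ℝ → ℝ≥0∞ := fun t =>
          ∫⁻ y in Icc (-a) a, ‖Od t y - (U₀ y k - U₀ (-y) k) / 2‖ₑ ^ 2 with hQ
        have hlim : Tendsto (fun t : ℝ => c * (2 * E t + (d : ℝ≥0∞) * (2 * Q t)))
            (𝓝[>] 0) (𝓝 0) := by
          have h1 : Tendsto E (𝓝[>] 0) (𝓝 (∑ _m : Fin d, 0)) :=
            tendsto_finsetSum _ fun m _ => (hV m).lim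
          rw [Finset.sum_const_zero] at h1
          have h2 : Tendsto Q (𝓝[>] 0) (𝓝 0) := hO.lim
          have h3 := ENNReal.Tendsto.const_mul (a := 2) h1 (Or.inr (by norm_num))
          have h4 := ENNReal.Tendsto.const_mul (a := 2) h2 (Or.inr (by norm_num))
          rw [mul_zero] at h3 h4
          have h5 := ENNReal.Tendsto.const_mul (a := (d : ℝ≥0∞)) h4
            (Or.inr (ENNReal.natCast_ne_top d))
          rw [mul_zero] at h5
          have h6 := h3.add h5
          rw [add_zero] at h6
          have h7 := ENNReal.Tendsto.const_mul (a := c) h6 (Or.inr hc)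
          rwa [mul_zero] at h7
        refine tendsto_of_tendsto_of_tendsto_of_le_of_le' tendsto_const_nhds hlim
          (Eventually.of_forall fun _ => bot_le) ?_
        have hsmall : Ioo (0 : ℝ) (T / 2) ∈ 𝓝[>] (0 : ℝ) := Ioo_mem_nhdsGT hT2
        filter_upwards [hsmall] with t ht
        have ht' : 0 < t := ht.1
        set P : Fin d → ℝ → ℝ≥0∞ := fun m y =>
          2 * ‖V m t y - f m y‖ₑ ^ 2 + 2 * ‖Od t y - (U₀ y k - U₀ (-y) k) / 2‖ₑ ^ 2 with hP
        have m1 : ∀ m, AEMeasurable (fun y => ‖V m t y - f m y‖ₑ ^ 2)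
            (volume.restrict (Icc (-a) a)) := fun m =>
          ((((hcont m t ht').aemeasurable measurableSet_Icc).sub
            (hfm m).aestronglyMeasurable.aemeasurable).enorm).pow_const 2
        have hUneg : AEMeasurable (fun y => U₀ (-y) k) (volume.restrict (Icc (-a) a)) :=
          ((hUk k).comp_measurePreserving hneg).aestronglyMeasurable.aemeasurable
        have m2 : AEMeasurable (fun y => ‖Od t y - (U₀ y k - U₀ (-y) k) / 2‖ₑ ^ 2)
            (volume.restrict (Icc (-a) a)) :=
          ((((hcontO t ht').aemeasurable measurableSet_Icc).sub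
            (((hUkm k).sub hUneg).div_const 2)).enorm).pow_const 2
        have mP : ∀ m, AEMeasurable (P m) (volume.restrict (Icc (-a) a)) := fun m =>
          ((m1 m).const_mul 2).add (m2.const_mul 2)
        -- pointwise comparison, almost everywhere
        have hae : ∀ᵐ y ∂(volume.restrict (Icc (-a) a)), ∀ m,
            ‖V m t y + δ m * Od t y * 1 - U₀ y m‖ₑ ^ 2 ≤ P m y := by
          rw [ae_all_iff]
          intro m
          by_cases hmk : m = k
          · refine Eventually.of_forall fun y => ?_
            subst hmk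
            have e : V m t y + δ m * Od t y * 1 - U₀ y m =
                (V m t y - f m y) + (Od t y - (U₀ y m - U₀ (-y) m) / 2) := by
              rw [hδk, hf]
              simp only
              ring
            rw [e]
            refine le_trans ?_ (two _ _)
            have := enorm_add_le (V m t y - f m y) (Od t y - (U₀ y m - U₀ (-y) m) / 2)
            gcongr
          · filter_upwards [heven m hmk] with y hy
            have e : V m t y + δ m * Od t y * 1 - U₀ y m = V m t y - f m y := by
              rw [hδ0 m hmk, hf]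
              simp only
              rw [hy]
              ring
            rw [e, hP]
            simp only
            refine le_trans ?_ le_self_add
            refine le_mul_of_one_le_left bot_le ?_
            norm_num
        have mL : AEMeasurable (fun y => ∑ m, ‖V m t y + δ m * Od t y * 1 - U₀ y m‖ₑ ^ 2)
            (volume.restrict (Icc (-a) a)) := by
          refine Finset.aemeasurable_fun_sum _ fun m _ => ?_
          exact ((((hcont m t ht').aemeasurable measurableSet_Icc).add
            ((((hcontO t ht').aemeasurable measurableSet_Icc).const_mul (δ m)).mul_const 1)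
            |>.sub (hUkm m)).enorm).pow_const 2
        calc ∫⁻ x in Ω, ‖u t x - U₀ (x j)‖ₑ ^ 2
            = ∫⁻ x in Ω, (fun y => ∑ m, ‖V m t y + δ m * Od t y * 1 - U₀ y m‖ₑ ^ 2) (x j) := by
              refine lintegral_congr fun x => ?_
              rw [enorm_sq_eq]
              refine Finset.sum_congr rfl fun m _ => ?_
              show ‖u t x m - U₀ (x j) m‖ₑ ^ 2 = _
              rw [huk, hv.one t _ ht' ht.2.le]
          _ ≤ c * ∫⁻ y in Icc (-a) a, ∑ m, ‖V m t y + δ m * Od t y * 1 - U₀ y m‖ₑ ^ 2 :=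
              hG _ mL
          _ ≤ c * ∫⁻ y in Icc (-a) a, ∑ m, P m y := by
              refine mul_le_mul_right ?_ _
              refine lintegral_mono_ae ?_
              filter_upwards [hae] with y hy
              exact Finset.sum_le_sum fun m _ => hy m
          _ = c * (2 * E t + (d : ℝ≥0∞) * (2 * Q t)) := by
              rw [lintegral_finsetSum' _ fun m _ => mP m]
              congr 1
              have e1 : ∀ m, ∫⁻ y in Icc (-a) a, P m y =
                  2 * (∫⁻ y in Icc (-a) a, ‖V m t y - f m y‖ₑ ^ 2) + 2 * Q t := by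
                intro m
                rw [hP]
                simp only
                rw [lintegral_add_left' ((m1 m).const_mul 2),
                  lintegral_const_mul' _ _ (by norm_num), lintegral_const_mul' _ _ (by norm_num)]
              simp_rw [e1]
              rw [Finset.sum_add_distrib, ← Finset.mul_sum, Finset.sum_const,
                Finset.card_univ, Fintype.card_fin, nsmul_eq_mul]
      energy := by
        intro Ω hΩ hΩm hbd
        obtain ⟨c, hc, hG⟩ := hboxle Ω hΩ hbd
        have hvol : volume Ω < ⊤ := hbd.measure_lt_top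
        have hVy0 : ∀ m t, T / 2 ≤ t → ∀ y, |y| < 2 * a → Vy m t y = 0 := by
          intro m t ht y hy
          have h1 := (hV m).dy t y (hT2.trans_le ht) hy
          have h2 : (fun v => V m t v) = fun _ => 0 := funext fun v => (hV m).zero t v ht
          rw [h2] at h1
          exact h1.unique (hasDerivAt_const y (0 : ℝ))
        have hvz0 : ∀ t, T ≤ t → ∀ z, |z| < 2 * b → vz t z = 0 := by
          intro t ht z hz
          have h1 := hv.dz t z (hT.trans_le ht) hz
          have h2 : (fun s => v t s) = fun _ => 0 := funext fun s => hv.zero t s ht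
          rw [h2] at h1
          exact h1.unique (hasDerivAt_const z (0 : ℝ))
        set I : ℝ → ℝ≥0∞ := fun t =>
          ∫⁻ x in Ω, ∑ i, ∑ m, ‖pd i (fun y => u t y m) x‖ₑ ^ 2 with hI
        have hun : Ioi (0 : ℝ) ⊆ Ioc 0 (T / 2) ∪ (Ioc (T / 2) T ∪ Ioi T) := by
          intro t ht
          have ht' : 0 < t := ht
          rcases le_or_gt t (T / 2) with h | h
          · exact Or.inl ⟨ht', h⟩
          · rcases le_or_gt t T with h' | h'
            · exact Or.inr (Or.inl ⟨h, h'⟩)
            · exact Or.inr (Or.inr h')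
        -- small times
        have p1 : ∫⁻ t in Ioc 0 (T / 2), I t < ⊤ := by
          set A : Fin d → ℝ → ℝ≥0∞ := fun m t => ∫⁻ y in Icc (-a) a, ‖Vy m t y‖ₑ ^ 2 with hA
          set B : ℝ → ℝ≥0∞ := fun t => ∫⁻ y in Icc (-a) a, ‖Oy t y‖ₑ ^ 2 with hB
          have mA : ∀ m t, 0 < t → AEMeasurable (fun y => ‖Vy m t y‖ₑ ^ 2)
              (volume.restrict (Icc (-a) a)) := fun m t ht =>
            (((hconty m t ht).aemeasurable measurableSet_Icc).enorm).pow_const 2
          have mB : ∀ t, 0 < t → AEMeasurable (fun y => ‖Oy t y‖ₑ ^ 2)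
              (volume.restrict (Icc (-a) a)) := fun t ht =>
            (((hcontOy t ht).aemeasurable measurableSet_Icc).enorm).pow_const 2
          have h1 : ∀ t ∈ Ioc (0 : ℝ) (T / 2), I t ≤ c * ∑ m, (2 * A m t + 2 * B t) := by
            intro t ht
            have ht' : 0 < t := ht.1
            have mS : ∀ m, AEMeasurable (fun y => 2 * ‖Vy m t y‖ₑ ^ 2 + 2 * ‖Oy t y‖ₑ ^ 2)
                (volume.restrict (Icc (-a) a)) := fun m =>
              ((mA m t ht').const_mul 2).add ((mB t ht').const_mul 2)
            calc I t ≤ ∫⁻ x in Ω, (fun y => ∑ m, (2 * ‖Vy m t y‖ₑ ^ 2 + 2 * ‖Oy t y‖ₑ ^ 2)) (x j) := by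
                  refine setLIntegral_mono_ae' hΩm (Eventually.of_forall fun x hx => ?_)
                  have hx' := hGN (hΩ hx)
                  have h2 : ∑ i, ∑ m, ‖pd i (fun y => u t y m) x‖ₑ ^ 2 =
                      ∑ m, ‖Vy m t (x j) + δ m * Oy t (x j) * 1‖ₑ ^ 2 := by
                    rw [Finset.sum_eq_single j]
                    · refine Finset.sum_congr rfl fun m _ => ?_
                      rw [hpd m t ht' x hx' j, if_pos rfl, if_neg hjl, add_zero,
                        hv.one t _ ht' ht.2]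
                    · intro i _ hij
                      refine Finset.sum_eq_zero fun m _ => ?_
                      rw [hpd m t ht' x hx' i, if_neg hij, hv.onez t _ ht' ht.2]
                      simp
                    · intro h
                      exact absurd (Finset.mem_univ j) h
                  rw [h2]
                  refine Finset.sum_le_sum fun m _ => ?_
                  have h3 : ‖Vy m t (x j) + δ m * Oy t (x j) * 1‖ₑ ≤
                      ‖Vy m t (x j)‖ₑ + ‖Oy t (x j)‖ₑ := by
                    refine (enorm_add_le _ _).trans (add_le_add le_rfl ?_)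
                    by_cases hmk : m = k
                    · rw [hmk, hδk, one_mul, mul_one]
                    · rw [hδ0 m hmk, zero_mul, zero_mul, enorm_zero]
                      exact bot_le
                  calc ‖Vy m t (x j) + δ m * Oy t (x j) * 1‖ₑ ^ 2
                      ≤ (‖Vy m t (x j)‖ₑ + ‖Oy t (x j)‖ₑ) ^ 2 := by gcongr
                    _ ≤ _ := two _ _
              _ ≤ c * ∫⁻ y in Icc (-a) a, ∑ m, (2 * ‖Vy m t y‖ₑ ^ 2 + 2 * ‖Oy t y‖ₑ ^ 2) := by
                  refine hG _ ?_
                  exact Finset.aemeasurable_fun_sum _ fun m _ =>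
                    ((mA m t ht').const_mul 2).add ((mB t ht').const_mul 2)
              _ = c * ∑ m, (2 * A m t + 2 * B t) := by
                  rw [lintegral_finsetSum' _ fun m _ => mS m]
                  congr 1
                  refine Finset.sum_congr rfl fun m _ => ?_
                  rw [lintegral_add_left' ((mA m t ht').const_mul 2),
                    lintegral_const_mul' _ _ (by norm_num), lintegral_const_mul' _ _ (by norm_num)]
          have jm : ∀ W : ℝ → ℝ → ℝ, ContinuousOn (fun q : ℝ × ℝ => W q.1 q.2) (Dom (2 * a)) →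
              AEMeasurable (fun t : ℝ => ∫⁻ y in Icc (-a) a, ‖W t y‖ₑ ^ 2)
                (volume.restrict (Ioc 0 (T / 2))) := by
            intro W hW
            have h3 : AEMeasurable (fun q : ℝ × ℝ => ‖W q.1 q.2‖ₑ ^ 2)
                ((volume.restrict (Ioc (0 : ℝ) (T / 2))).prod (volume.restrict (Icc (-a) a))) := by
              rw [Measure.prod_restrict]
              have h4 : ContinuousOn (fun q : ℝ × ℝ => W q.1 q.2)
                  (Ioc 0 (T / 2) ×ˢ Icc (-a) a) :=
                hW.mono fun q hq => ⟨hq.1.1, (abs_le.2 hq.2).trans_lt (by linarith)⟩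
              exact ((h4.aemeasurable (measurableSet_Ioc.prod measurableSet_Icc)).enorm).pow_const 2
            exact h3.lintegral_prod_right'
          have hfinA : ∀ m, ∫⁻ t in Ioc 0 (T / 2), A m t < ⊤ := fun m =>
            lt_of_le_of_lt (lintegral_mono_set fun t ht => ht.1) (hV m).en
          have hfinB : ∫⁻ t in Ioc 0 (T / 2), B t < ⊤ :=
            lt_of_le_of_lt (lintegral_mono_set fun t ht => ht.1) hO.en
          have jA := fun m => jm (Vy m) (hV m).ycont
          have jB := jm Oy hO.ycont
          have jS : ∀ m, AEMeasurable (fun t => 2 * A m t + 2 * B t)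
              (volume.restrict (Ioc 0 (T / 2))) := fun m =>
            ((jA m).const_mul 2).add (jB.const_mul 2)
          calc ∫⁻ t in Ioc 0 (T / 2), I t
              ≤ ∫⁻ t in Ioc 0 (T / 2), c * ∑ m, (2 * A m t + 2 * B t) :=
                setLIntegral_mono' measurableSet_Ioc h1
            _ = c * ∑ m, (2 * (∫⁻ t in Ioc 0 (T / 2), A m t) +
                  2 * ∫⁻ t in Ioc 0 (T / 2), B t) := by
                rw [lintegral_const_mul' _ _ hc, lintegral_finsetSum' _ fun m _ => jS m]
                congr 1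
                refine Finset.sum_congr rfl fun m _ => ?_
                rw [lintegral_add_left' ((jA m).const_mul 2),
                  lintegral_const_mul' _ _ (by norm_num), lintegral_const_mul' _ _ (by norm_num)]
            _ < ⊤ := by
                refine ENNReal.mul_lt_top (lt_top_iff_ne_top.2 hc) ?_
                refine ENNReal.sum_lt_top.2 fun m _ => ENNReal.add_lt_top.2 ⟨?_, ?_⟩
                · exact ENNReal.mul_lt_top (by norm_num) (hfinA m)
                · exact ENNReal.mul_lt_top (by norm_num) hfinB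
        -- intermediate times
        have p2 : ∫⁻ t in Ioc (T / 2) T, I t < ⊤ := by
          have hcomp : IsCompact (Icc (T / 2) T ×ˢ Icc (-a) a) :=
            isCompact_Icc.prod isCompact_Icc
          have hcomp' : IsCompact (Icc (T / 2) T ×ˢ Icc (-b) b) :=
            isCompact_Icc.prod isCompact_Icc
          have hs1 : Icc (T / 2) T ×ˢ Icc (-a) a ⊆ Dom (2 * a) := by
            rintro ⟨t, y⟩ ⟨h1, h2⟩
            exact ⟨hT2.trans_le h1.1, (abs_le.2 h2).trans_lt (by linarith)⟩
          have hs2 : Icc (T / 2) T ×ˢ Icc (-b) b ⊆ Dom (2 * b) := by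
            rintro ⟨t, y⟩ ⟨h1, h2⟩
            exact ⟨hT2.trans_le h1.1, (abs_le.2 h2).trans_lt (by linarith)⟩
          obtain ⟨C1, hC1⟩ := hcomp.exists_bound_of_continuousOn
            (hO.smooth.continuousOn.mono hs1)
          obtain ⟨C2, hC2⟩ := hcomp.exists_bound_of_continuousOn (hO.ycont.mono hs1)
          obtain ⟨C3, hC3⟩ := hcomp'.exists_bound_of_continuousOn
            (hv.smooth.continuousOn.mono hs2)
          obtain ⟨C4, hC4⟩ := hcomp'.exists_bound_of_continuousOn (hv.zcont.mono hs2)
          set C : ℝ := |C2| * |C3| + |C1| * |C4| with hCd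
          have hb1 : ∀ t ∈ Ioc (T / 2) T, ∀ x ∈ Ω, ∀ i m,
              ‖pd i (fun y => u t y m) x‖ₑ ≤ ENNReal.ofReal C := by
            intro t ht x hx i m
            have ht' : 0 < t := hT2.trans ht.1
            have hxG := hΩ hx
            have hx' := hGN hxG
            rw [← ofReal_norm]
            refine ENNReal.ofReal_le_ofReal ?_
            rw [hpd m t ht' x hx' i, hVy0 m t ht.1.le _ hx'.1, zero_add]
            have hδ1 : |δ m| ≤ 1 := by
              by_cases hmk : m = k
              · rw [hmk, hδk, abs_one]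
              · rw [hδ0 m hmk, abs_zero]
                exact zero_le_one
            have q1 : |Od t (x j)| ≤ |C1| :=
              (hC1 (t, x j) ⟨⟨ht.1.le, ht.2⟩, abs_le.1 hxG.1⟩).trans (le_abs_self _)
            have q2 : |Oy t (x j)| ≤ |C2| :=
              (hC2 (t, x j) ⟨⟨ht.1.le, ht.2⟩, abs_le.1 hxG.1⟩).trans (le_abs_self _)
            have q3 : |v t (x l)| ≤ |C3| :=
              (hC3 (t, x l) ⟨⟨ht.1.le, ht.2⟩, abs_le.1 hxG.2⟩).trans (le_abs_self _)
            have q4 : |vz t (x l)| ≤ |C4| :=
              (hC4 (t, x l) ⟨⟨ht.1.le, ht.2⟩, abs_le.1 hxG.2⟩).trans (le_abs_self _)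
            have r1 : |δ m * Oy t (x j) * v t (x l)| ≤ |C2| * |C3| := by
              rw [abs_mul, abs_mul]
              calc |δ m| * |Oy t (x j)| * |v t (x l)| ≤ 1 * |C2| * |C3| := by gcongr
                _ = _ := by rw [one_mul]
            have r2 : |δ m * Od t (x j) * vz t (x l)| ≤ |C1| * |C4| := by
              rw [abs_mul, abs_mul]
              calc |δ m| * |Od t (x j)| * |vz t (x l)| ≤ 1 * |C1| * |C4| := by gcongr
                _ = _ := by rw [one_mul]
            have s1 : 0 ≤ |C2| * |C3| := by positivity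
            have s2 : 0 ≤ |C1| * |C4| := by positivity
            rw [Real.norm_eq_abs]
            refine (abs_add_le _ _).trans (add_le_add ?_ ?_)
            · split_ifs
              · exact r1
              · rw [abs_zero]
                exact s1
            · split_ifs
              · exact r2
              · rw [abs_zero]
                exact s2
          have h3 : ∫⁻ t in Ioc (T / 2) T, I t ≤
              ∫⁻ _t in Ioc (T / 2) T, (∑ _i : Fin d, ∑ _m : Fin d, ENNReal.ofReal C ^ 2) *
                volume Ω := by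
            refine setLIntegral_mono' measurableSet_Ioc fun t ht => ?_
            calc I t ≤ ∫⁻ _x in Ω, ∑ _i : Fin d, ∑ _m : Fin d, ENNReal.ofReal C ^ 2 := by
                  refine setLIntegral_mono' hΩm fun x hx => ?_
                  refine Finset.sum_le_sum fun i _ => Finset.sum_le_sum fun m _ => ?_
                  have := hb1 t ht x hx i m
                  gcongr
              _ = _ := by rw [setLIntegral_const]
          refine h3.trans_lt ?_
          rw [setLIntegral_const]
          refine ENNReal.mul_lt_top (ENNReal.mul_lt_top ?_ hvol) (by simp)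
          refine ENNReal.sum_lt_top.2 fun i _ => ENNReal.sum_lt_top.2 fun m _ => ?_
          exact ENNReal.pow_lt_top ENNReal.ofReal_lt_top
        -- large times
        have p3 : ∫⁻ t in Ioi T, I t = 0 := by
          have : ∫⁻ t in Ioi T, I t = ∫⁻ _t in Ioi T, 0 := by
            refine setLIntegral_congr_fun measurableSet_Ioi fun t ht => ?_
            have ht' : T < t := ht
            show ∫⁻ x in Ω, ∑ i, ∑ m, ‖pd i (fun y => u t y m) x‖ₑ ^ 2 = 0
            have h4 : ∫⁻ x in Ω, ∑ i, ∑ m, ‖pd i (fun y => u t y m) x‖ₑ ^ 2 =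
                ∫⁻ _x in Ω, 0 := by
              refine setLIntegral_congr_fun hΩm fun x hx => ?_
              have hx' := hGN (hΩ hx)
              refine Finset.sum_eq_zero fun i _ => Finset.sum_eq_zero fun m _ => ?_
              rw [hpd m t (hT.trans ht') x hx' i, hVy0 m t (by linarith) _ hx'.1,
                hv.zero t _ ht'.le, hvz0 t ht'.le _ hx'.2]
              simp
            rw [h4]
            simp
          rw [this]
          simp
        calc ∫⁻ t in Ioi (0 : ℝ), I t
            ≤ ∫⁻ t in Ioc 0 (T / 2) ∪ (Ioc (T / 2) T ∪ Ioi T), I t := lintegral_mono_set hun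
          _ ≤ (∫⁻ t in Ioc 0 (T / 2), I t) + (∫⁻ t in Ioc (T / 2) T ∪ Ioi T, I t) :=
              lintegral_union_le _ _ _
          _ ≤ (∫⁻ t in Ioc 0 (T / 2), I t) +
              ((∫⁻ t in Ioc (T / 2) T, I t) + (∫⁻ t in Ioi T, I t)) :=
              add_le_add le_rfl (lintegral_union_le _ _ _)
          _ < ⊤ := by
              rw [p3, add_zero]
              exact ENNReal.add_lt_top.2 ⟨p1, p2⟩ }

end Pool.Agent.Q61.NC
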