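import Pool.Agent.Q61.NC.Free

/-!
# Axially symmetric solutions of the heat equation in two space dimensions
-/

set_option autoImplicit false

open Set Filter Topology

namespace Pool.Agent.Q61.NC

/-- The denominators. -/
noncomputable def bden (m i : ℕ) : ℝ := 4 ^ i * (i.factorial : ℝ) * ((i + m).factorial : ℝ)

theorem bden_pos (m i : ℕ) : 0 < bden m i := by
  unfold bden
  positivity

theorem bden_succ (m i : ℕ) : bden m (i + 1) = ((i : ℝ) + 1) * (4 * bden (m + 1) i) := by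
  unfold bden
  have e : i + 1 + m = i + (m + 1) := by ring
  rw [e, Nat.factorial_succ i]
  push_cast
  ring

theorem fact_succ_le (i : ℕ) : ((2 * (i + 1)).factorial : ℝ) ≤
    4 * ((i : ℝ) + 1) ^ 2 * ((2 * i).factorial : ℝ) := by
  have e : 2 * (i + 1) = (2 * i + 1) + 1 := by ring
  rw [e, Nat.factorial_succ, Nat.factorial_succ]
  push_cast
  have hf : (0 : ℝ) < ((2 * i).factorial : ℝ) := by positivity
  have hi : (0 : ℝ) ≤ (i : ℝ) := Nat.cast_nonneg i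
  have h : (2 * (i : ℝ) + 1 + 1) * (2 * (i : ℝ) + 1) ≤ 4 * ((i : ℝ) + 1) ^ 2 := by nlinarith
  calc (2 * (i : ℝ) + 1 + 1) * ((2 * (i : ℝ) + 1) * ((2 * i).factorial : ℝ))
      = ((2 * (i : ℝ) + 1 + 1) * (2 * (i : ℝ) + 1)) * ((2 * i).factorial : ℝ) := by ring
    _ ≤ _ := by gcongr

theorem fact_le (i : ℕ) : ((2 * i).factorial : ℝ) ≤ 4 ^ i * (i.factorial : ℝ) *
    (i.factorial : ℝ) := by
  induction i with
  | zero => simp
  | succ i ih =>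
    refine (fact_succ_le i).trans ?_
    rw [Nat.factorial_succ i]
    push_cast
    calc 4 * ((i : ℝ) + 1) ^ 2 * ((2 * i).factorial : ℝ)
        ≤ 4 * ((i : ℝ) + 1) ^ 2 * (4 ^ i * (i.factorial : ℝ) * (i.factorial : ℝ)) := by gcongr
      _ = _ := by ring

theorem fact_le_bden (m i : ℕ) : ((2 * i).factorial : ℝ) ≤ bden m i := by
  refine (fact_le i).trans ?_
  unfold bden
  have h : (i.factorial : ℝ) ≤ ((i + m).factorial : ℝ) := by
    exact_mod_cast Nat.factorial_le (by omega)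
  gcongr

/-- The series `∑ Z i t ρ ^ i / (4 ^ i i! (i + m)!)`. -/
noncomputable def SB (m : ℕ) (Z : ℕ → ℝ → ℝ) (t ρ : ℝ) : ℝ :=
  ∑' i : ℕ, Z i t * (ρ ^ i / bden m i)

/-- Derivatives of the terms. -/
noncomputable def dB (m : ℕ) : ℕ → ℝ → ℝ
  | 0 => fun _ => 0
  | i + 1 => fun ρ => ρ ^ i / (4 * bden (m + 1) i)

theorem hasDerivAt_dB (m i : ℕ) (ρ : ℝ) :
    HasDerivAt (fun ρ : ℝ => ρ ^ i / bden m i) (dB m i ρ) ρ := by
  rcases i with _ | i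
  · simpa [dB] using hasDerivAt_const ρ (1 / bden m 0)
  · have h := (hasDerivAt_pow (i + 1) ρ).div_const (bden m (i + 1))
    have e : ((i + 1 : ℕ) : ℝ) * ρ ^ (i + 1 - 1) / bden m (i + 1) = dB m (i + 1) ρ := by
      rw [bden_succ, Nat.add_sub_cancel, dB]
      have h1 := bden_pos (m + 1) i
      push_cast
      field_simp
    rw [e] at h
    exact h

section

variable {Y : ℝ} (hY : 0 < Y)

include hY

theorem term_boundsB (m : ℕ) {C r : ℝ} (hC : 0 ≤ C) (hr : 0 < r) {z ρ : ℝ} (i : ℕ)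
    (hz : |z| ≤ C * r ^ i * ((2 * i).factorial : ℝ)) (hρ : |ρ| < Y ^ 2) :
    |z * (ρ ^ i / bden m i)| ≤ C * (((i : ℝ) + 1) ^ 2 * (r * Y ^ 2) ^ i) ∧
    |z * dB m i ρ| ≤ C / Y ^ 2 * (((i : ℝ) + 1) ^ 2 * (r * Y ^ 2) ^ i) := by
  have hi : (0 : ℝ) ≤ (i : ℝ) := Nat.cast_nonneg i
  have h1i : (1 : ℝ) ≤ ((i : ℝ) + 1) ^ 2 := by nlinarith
  have hb := bden_pos m i
  have hρ0 : 0 ≤ |ρ| := abs_nonneg ρ
  have hρi : |ρ| ^ i ≤ (Y ^ 2) ^ i := pow_le_pow_left₀ hρ0 hρ.le _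
  have hσ : 0 ≤ (r * Y ^ 2) ^ i := by positivity
  refine ⟨?_, ?_⟩
  · rw [abs_mul, abs_div, abs_pow, abs_of_pos hb]
    calc |z| * (|ρ| ^ i / bden m i)
        ≤ (C * r ^ i * bden m i) * ((Y ^ 2) ^ i / bden m i) := by
          have h1 : |z| ≤ C * r ^ i * bden m i := by
            refine hz.trans ?_
            have := fact_le_bden m i
            gcongr
          gcongr
      _ = C * (1 * (r * Y ^ 2) ^ i) := by
          rw [mul_pow r, one_mul]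
          field_simp
      _ ≤ _ := by gcongr
  · rcases i with _ | i
    · simp only [dB, mul_zero, abs_zero]
      positivity
    · have hb1 := bden_pos (m + 1) i
      have hρi' : |ρ| ^ i ≤ (Y ^ 2) ^ i := pow_le_pow_left₀ hρ0 hρ.le _
      simp only [dB]
      rw [abs_mul, abs_div, abs_pow, abs_of_pos (by positivity : 0 < 4 * bden (m + 1) i)]
      have h1 : |z| ≤ C * r ^ (i + 1) * (4 * ((i : ℝ) + 1) ^ 2 * bden (m + 1) i) := by
        refine hz.trans ?_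
        have h2 := fact_succ_le i
        have h3 := fact_le_bden (m + 1) i
        calc C * r ^ (i + 1) * ((2 * (i + 1)).factorial : ℝ)
            ≤ C * r ^ (i + 1) * (4 * ((i : ℝ) + 1) ^ 2 * ((2 * i).factorial : ℝ)) := by gcongr
          _ ≤ _ := by gcongr
      have hii : (0 : ℝ) ≤ (i : ℝ) := Nat.cast_nonneg i
      calc |z| * (|ρ| ^ i / (4 * bden (m + 1) i))
          ≤ (C * r ^ (i + 1) * (4 * ((i : ℝ) + 1) ^ 2 * bden (m + 1) i)) *
              ((Y ^ 2) ^ i / (4 * bden (m + 1) i)) := by gcongr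
        _ = C / Y ^ 2 * (((i : ℝ) + 1) ^ 2 * (r * Y ^ 2) ^ (i + 1)) := by
            rw [mul_pow r, pow_succ (Y ^ 2)]
            field_simp
        _ ≤ C / Y ^ 2 * ((((i + 1 : ℕ) : ℝ) + 1) ^ 2 * (r * Y ^ 2) ^ (i + 1)) := by
            push_cast
            gcongr
            linarith

theorem summable_SB (m : ℕ) {Z : ℕ → ℝ → ℝ} (h : Good Y Z) {t ρ : ℝ} (ht : 0 < t)
    (hρ : |ρ| < Y ^ 2) : Summable fun i : ℕ => Z i t * (ρ ^ i / bden m i) := by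
  obtain ⟨C, r, hC, hr, hrY, hb⟩ := h.2 t ht
  refine Summable.of_norm_bounded
    ((summable_sq (by positivity : 0 ≤ r * Y ^ 2) hrY).mul_left C) fun i => ?_
  exact (term_boundsB hY m hC hr i (hb i t le_rfl) hρ).1

theorem summable_dB (m : ℕ) {Z : ℕ → ℝ → ℝ} (h : Good Y Z) {t ρ : ℝ} (ht : 0 < t)
    (hρ : |ρ| < Y ^ 2) : Summable fun i : ℕ => Z i t * dB m i ρ := by
  obtain ⟨C, r, hC, hr, hrY, hb⟩ := h.2 t ht
  refine Summable.of_norm_bounded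
    ((summable_sq (by positivity : 0 ≤ r * Y ^ 2) hrY).mul_left (C / Y ^ 2)) fun i => ?_
  exact (term_boundsB hY m hC hr i (hb i t le_rfl) hρ).2

theorem tsum_dB (m : ℕ) {Z : ℕ → ℝ → ℝ} (h : Good Y Z) {t ρ : ℝ} (ht : 0 < t)
    (hρ : |ρ| < Y ^ 2) : ∑' i : ℕ, Z i t * dB m i ρ = 1 / 4 * SB (m + 1) (sh Z) t ρ := by
  rw [(summable_dB hY m h ht hρ).tsum_eq_zero_add, SB, ← tsum_mul_left]
  simp only [dB, mul_zero, zero_add, sh]
  congr 1
  funext i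
  have := bden_pos (m + 1) i
  field_simp

theorem hasFDerivAt_SB (m : ℕ) {Z : ℕ → ℝ → ℝ} (h : Good Y Z) {t ρ : ℝ} (ht : 0 < t)
    (hρ : |ρ| < Y ^ 2) :
    HasFDerivAt (fun q : ℝ × ℝ => SB m Z q.1 q.2)
      (SB m (sh Z) t ρ • ContinuousLinearMap.fst ℝ ℝ ℝ +
        (1 / 4 * SB (m + 1) (sh Z) t ρ) • ContinuousLinearMap.snd ℝ ℝ ℝ) (t, ρ) := by
  have ht₁ : 0 < t / 2 := by linarith
  obtain ⟨C, r, hC, hr, hrY, hb⟩ := h.2 (t / 2) ht₁
  obtain ⟨C', r', hC', hr', hrY', hb'⟩ := (h.shift hY).2 (t / 2) ht₁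
  obtain ⟨ho, hc⟩ := piece (Y := Y ^ 2) (t / 2)
  have hmem : (t, ρ) ∈ {q : ℝ × ℝ | t / 2 < q.1 ∧ |q.2| < Y ^ 2} :=
    ⟨by show t / 2 < t; linarith, hρ⟩
  have key := hasFDerivAt_tsum_of_isPreconnected
    (f := fun (i : ℕ) (q : ℝ × ℝ) => Z i q.1 * (q.2 ^ i / bden m i))
    (f' := fun (i : ℕ) (q : ℝ × ℝ) =>
      (Z (i + 1) q.1 * (q.2 ^ i / bden m i)) •
        ContinuousLinearMap.fst ℝ ℝ ℝ + (Z i q.1 * dB m i q.2) • ContinuousLinearMap.snd ℝ ℝ ℝ)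
    (u := fun i : ℕ => C' * (((i : ℝ) + 1) ^ 2 * (r' * Y ^ 2) ^ i) +
      C / Y ^ 2 * (((i : ℝ) + 1) ^ 2 * (r * Y ^ 2) ^ i))
    (x₀ := (t, ρ)) (x := (t, ρ))
    (((summable_sq (by positivity : 0 ≤ r' * Y ^ 2) hrY').mul_left C').add
      ((summable_sq (by positivity : 0 ≤ r * Y ^ 2) hrY).mul_left (C / Y ^ 2)))
    ho hc ?_ ?_ hmem (summable_SB hY m h ht hρ) hmem
  · have e1 : (∑' i : ℕ, ((Z (i + 1) t * (ρ ^ i / bden m i)) •
        ContinuousLinearMap.fst ℝ ℝ ℝ + (Z i t * dB m i ρ) • ContinuousLinearMap.snd ℝ ℝ ℝ)) =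
        SB m (sh Z) t ρ • ContinuousLinearMap.fst ℝ ℝ ℝ +
        (1 / 4 * SB (m + 1) (sh Z) t ρ) • ContinuousLinearMap.snd ℝ ℝ ℝ := by
      have s1 := summable_SB hY m (h.shift hY) ht hρ
      have s2 := summable_dB hY m h ht hρ
      have s1' := s1.smul_const (ContinuousLinearMap.fst ℝ ℝ ℝ)
      have s2' := s2.smul_const (ContinuousLinearMap.snd ℝ ℝ ℝ)
      have e2 := s1'.tsum_add s2'
      rw [s1.tsum_smul_const, s2.tsum_smul_const, tsum_dB hY m h ht hρ] at e2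
      exact e2
    rw [e1] at key
    exact key
  · rintro i ⟨s, v⟩ ⟨hs, hv⟩
    have hs0 : 0 < s := ht₁.trans hs
    have h1 : HasFDerivAt (fun q : ℝ × ℝ => Z i q.1)
        (Z (i + 1) s • ContinuousLinearMap.fst ℝ ℝ ℝ) (s, v) :=
      (h.1 i s hs0).comp_hasFDerivAt (s, v) (hasFDerivAt_fst (p := (s, v)))
    have h2 : HasFDerivAt (fun q : ℝ × ℝ => q.2 ^ i / bden m i)
        (dB m i v • ContinuousLinearMap.snd ℝ ℝ ℝ) (s, v) := by
      have h0 : HasDerivAt (fun y : ℝ => y ^ i / bden m i) (dB m i v)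
        (Prod.snd ((s, v) : ℝ × ℝ)) := hasDerivAt_dB m i v
      exact h0.comp_hasFDerivAt ((s, v) : ℝ × ℝ)
        (hasFDerivAt_snd (𝕜 := ℝ) (E := ℝ) (F := ℝ) (p := (s, v)))
    have h3 : HasFDerivAt (fun q : ℝ × ℝ => Z i q.1 * (q.2 ^ i / bden m i))
        (Z i s • (dB m i v • ContinuousLinearMap.snd ℝ ℝ ℝ) +
          (v ^ i / bden m i) •
            (Z (i + 1) s • ContinuousLinearMap.fst ℝ ℝ ℝ)) (s, v) := h1.mul h2
    rw [smul_smul, smul_smul, add_comm, mul_comm (v ^ i / bden m i)] at h3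
    exact h3
  · rintro i ⟨s, v⟩ ⟨hs, hv⟩
    refine (norm_comb_le _ _).trans (add_le_add ?_ ?_)
    · exact (term_boundsB hY m hC' hr' i (hb' i s hs.le) hv).1
    · exact (term_boundsB hY m hC hr i (hb i s hs.le) hv).2

theorem smooth_natB (n : ℕ) : ∀ (m : ℕ) (Z : ℕ → ℝ → ℝ), Good Y Z →
    ContDiffOn ℝ n (fun q : ℝ × ℝ => SB m Z q.1 q.2) (Dom (Y ^ 2)) := by
  induction n with
  | zero =>
    intro m Z h
    rw [Nat.cast_zero, contDiffOn_zero]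
    exact fun q hq => (hasFDerivAt_SB hY m h hq.1 hq.2).continuousAt.continuousWithinAt
  | succ n ih =>
    intro m Z h
    have hd1 : DifferentiableOn ℝ (fun q : ℝ × ℝ => SB m Z q.1 q.2) (Dom (Y ^ 2)) := fun q hq =>
      (hasFDerivAt_SB hY m h hq.1 hq.2).differentiableAt.differentiableWithinAt
    have i1 := ih m (sh Z) (h.shift hY)
    have i2 := ih (m + 1) (sh Z) (h.shift hY)
    push_cast
    rw [contDiffOn_succ_iff_fderiv_of_isOpen (isOpen_Dom (Y ^ 2))]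
    refine ⟨hd1, by simp, ?_⟩
    have h5 : ContDiffOn ℝ n (fun q : ℝ × ℝ =>
        SB m (sh Z) q.1 q.2 • ContinuousLinearMap.fst ℝ ℝ ℝ +
        (1 / 4 * SB (m + 1) (sh Z) q.1 q.2) • ContinuousLinearMap.snd ℝ ℝ ℝ) (Dom (Y ^ 2)) :=
      (i1.smul contDiffOn_const).add ((contDiffOn_const.mul i2).smul contDiffOn_const)
    exact h5.congr fun q hq => (hasFDerivAt_SB hY m h hq.1 hq.2).fderiv

theorem smooth_SB (m : ℕ) {Z : ℕ → ℝ → ℝ} (h : Good Y Z) :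
    ContDiffOn ℝ ((⊤ : ℕ∞) : WithTop ℕ∞) (fun q : ℝ × ℝ => SB m Z q.1 q.2) (Dom (Y ^ 2)) :=
  contDiffOn_infty.2 fun n => smooth_natB hY n m Z h

theorem SB_dt (m : ℕ) {Z : ℕ → ℝ → ℝ} (h : Good Y Z) {t ρ : ℝ} (ht : 0 < t) (hρ : |ρ| < Y ^ 2) :
    HasDerivAt (fun s => SB m Z s ρ) (SB m (sh Z) t ρ) t := by
  have h1 := hasFDerivAt_SB hY m h ht hρ
  have h2 : HasDerivAt (fun s : ℝ => ((s, ρ) : ℝ × ℝ)) ((1, 0) : ℝ × ℝ) t :=
    (hasDerivAt_id t).prodMk (hasDerivAt_const t ρ)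
  have h3 := HasFDerivAt.comp_hasDerivAt t h1 h2
  have e : (SB m (sh Z) t ρ • ContinuousLinearMap.fst ℝ ℝ ℝ +
      (1 / 4 * SB (m + 1) (sh Z) t ρ) • ContinuousLinearMap.snd ℝ ℝ ℝ) ((1, 0) : ℝ × ℝ) =
      SB m (sh Z) t ρ := by simp
  rw [e] at h3
  exact h3

theorem SB_dr (m : ℕ) {Z : ℕ → ℝ → ℝ} (h : Good Y Z) {t ρ : ℝ} (ht : 0 < t) (hρ : |ρ| < Y ^ 2) :
    HasDerivAt (fun v => SB m Z t v) (1 / 4 * SB (m + 1) (sh Z) t ρ) ρ := by
  have h1 := hasFDerivAt_SB hY m h ht hρ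
  have h2 : HasDerivAt (fun v : ℝ => ((t, v) : ℝ × ℝ)) ((0, 1) : ℝ × ℝ) ρ :=
    (hasDerivAt_const ρ t).prodMk (hasDerivAt_id ρ)
  have h3 := HasFDerivAt.comp_hasDerivAt ρ h1 h2
  have e : (SB m (sh Z) t ρ • ContinuousLinearMap.fst ℝ ℝ ℝ +
      (1 / 4 * SB (m + 1) (sh Z) t ρ) • ContinuousLinearMap.snd ℝ ℝ ℝ) ((0, 1) : ℝ × ℝ) =
      1 / 4 * SB (m + 1) (sh Z) t ρ := by simp
  rw [e] at h3
  exact h3

/-- The heat equation in the variable `ρ = |x| ^ 2`, dimension two. -/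
theorem SB_heat {Z : ℕ → ℝ → ℝ} (h : Good Y Z) {t ρ : ℝ} (ht : 0 < t) (hρ : |ρ| < Y ^ 2) :
    4 * ρ * (1 / 4 * (1 / 4 * SB 2 (sh (sh Z)) t ρ)) + 4 * (1 / 4 * SB 1 (sh Z) t ρ) =
      SB 0 (sh Z) t ρ := by
  have s0 := summable_SB hY 0 (h.shift hY) ht hρ
  have s1 := summable_SB hY 1 (h.shift hY) ht hρ
  have s2 := summable_SB hY 2 ((h.shift hY).shift hY) ht hρ
  have e2 : 4 * ρ * (1 / 4 * (1 / 4 * SB 2 (sh (sh Z)) t ρ)) =
      ∑' i : ℕ, sh (sh Z) i t * (ρ ^ (i + 1) / (4 * bden 2 i)) := by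
    rw [SB, ← tsum_mul_left, ← tsum_mul_left, ← tsum_mul_left]
    congr 1
    funext i
    have := bden_pos 2 i
    rw [pow_succ]
    field_simp
  have s2' : Summable fun i : ℕ => sh (sh Z) i t * (ρ ^ (i + 1) / (4 * bden 2 i)) := by
    refine (s2.mul_left (ρ / 4)).congr fun i => ?_
    have := bden_pos 2 i
    rw [pow_succ]
    field_simp
  have e1 : 4 * (1 / 4 * SB 1 (sh Z) t ρ) = sh Z 0 t * (ρ ^ 0 / bden 1 0) +
      ∑' i : ℕ, sh Z (i + 1) t * (ρ ^ (i + 1) / bden 1 (i + 1)) := by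
    rw [← s1.tsum_eq_zero_add, SB]
    ring
  have s1' : Summable fun i : ℕ => sh Z (i + 1) t * (ρ ^ (i + 1) / bden 1 (i + 1)) :=
    (summable_nat_add_iff 1).2 s1
  rw [e2, e1, SB, s0.tsum_eq_zero_add, add_left_comm, ← s2'.tsum_add s1']
  have e0 : bden 1 0 = bden 0 0 := by simp [bden]
  rw [e0]
  congr 2
  funext i
  have hA : sh (sh Z) i t = sh Z (i + 1) t := rfl
  rw [hA, ← mul_add]
  congr 1
  have hb : bden 2 i = 4 ^ i * (i.factorial : ℝ) * (((i : ℝ) + 2) * ((i + 1).factorial : ℝ)) := by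
    unfold bden
    have e : i + 2 = (i + 1) + 1 := by ring
    rw [e, Nat.factorial_succ (i + 1)]
    push_cast
    ring
  have hb1 : bden 1 (i + 1) = 4 * 4 ^ i * (((i : ℝ) + 1) * (i.factorial : ℝ)) *
      (((i : ℝ) + 2) * ((i + 1).factorial : ℝ)) := by
    unfold bden
    have e : i + 1 + 1 = (i + 1) + 1 := rfl
    rw [e, Nat.factorial_succ (i + 1), Nat.factorial_succ i]
    push_cast
    ring
  have hb0 : bden 0 (i + 1) = 4 * 4 ^ i * (((i : ℝ) + 1) * (i.factorial : ℝ)) *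
      ((i + 1).factorial : ℝ) := by
    unfold bden
    rw [add_zero, Nat.factorial_succ i]
    push_cast
    ring
  rw [hb, hb1, hb0]
  have h1 : (0 : ℝ) < (i.factorial : ℝ) := by positivity
  have h2 : (0 : ℝ) < ((i + 1).factorial : ℝ) := by positivity
  field_simp
  ring

end

theorem SB_of_zero (m : ℕ) {Z : ℕ → ℝ → ℝ} {t : ℝ} (h : ∀ i, Z i t = 0) (ρ : ℝ) :
    SB m Z t ρ = 0 := by
  simp [SB, h]

theorem SB_congr (m : ℕ) {Z Z' : ℕ → ℝ → ℝ} {t : ℝ} (h : ∀ i, Z i t = Z' i t) (ρ : ℝ) :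
    SB m Z t ρ = SB m Z' t ρ := by
  simp [SB, h]

end Pool.Agent.Q61.NC
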